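import Pool.Agent.V7.Cls

/-!
# V7, block ALPHA: the numbers of points of the chain

On the level `l` (`j ≤ l ≤ 2M-1`) of the chain there are `rho k * (ν - (l-j)).choose (dgr k - l)` points
of the kind `k` (none if `dgr k < l`), `n = c ν + r` variables.  The kinds `ord M I` with
`range j ⊆ I` do not occur.
-/

set_option autoImplicit false

namespace Pool.Agent.V7

open Finset

/-- The number of points of the kind `k` on the level `l` is of degree `dgr k - l` in `n`. -/
def dgr (M : ℕ) : Kd → ℕ
  | .ord μ I => 2 * M - μ + I.card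
  | .sw _ I => M + I.card

/-- The kinds of the chain which starts at the level `j`. -/
def Kd.In (M j : ℕ) : Kd → Prop
  | .ord μ I => μ = M → ¬ range j ⊆ I
  | .sw i _ => i < j

instance (M j : ℕ) : DecidablePred (Kd.In M j) := fun k => by
  cases k <;> unfold Kd.In <;> infer_instance

/-- The densities. -/
def rho (M c : ℕ) : Kd → ℕ
  | .ord μ _ => if μ = M then c ^ M / (2 * M - 1).choose M + c ^ (M - 1) else 1
  | .sw _ _ => 3 * c ^ (M - 1)

/-- The number of points of the kind `k` on the level `l`. -/
def nmb (M c j l ν : ℕ) (k : Kd) : ℕ :=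
  if k ∈ kds M l ∧ k.In M j ∧ l ≤ dgr M k then rho M c k * (ν - (l - j)).choose (dgr M k - l) else 0

/-- The configuration on the level `l`. -/
def cfg (M c j l ν : ℕ) : Multiset Kd := ∑ k ∈ kds M l, Multiset.replicate (nmb M c j l ν k) k

end Pool.Agent.V7
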