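import Pool.Agent.V7.F1
import Pool.Agent.V7.AL.KDefs

/-!
# V7, ALPHA: the size of a kind is at least its weight

`V` at one position meets the coordinate subspace of `wt` exponents only in `0`.
-/

set_option autoImplicit false
set_option linter.unusedSectionVars false

namespace Pool.Agent.V7

open Finset MvPolynomial Pool.Agent.H51.TB Pool.Agent.H54.V7
open Pool.Agent.H18.Ex (tcr)

/-! ### A criterion -/

theorem finrank_add_card_le {E : Type} [Fintype E] [DecidableEq E] (V : Submodule ℂ (E → ℂ))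
    (A : Finset E) (h : ∀ f ∈ V, (∀ e, e ∉ A → f e = 0) → f = 0) :
    Module.finrank ℂ V + A.card ≤ Fintype.card E := by
  let L : V →ₗ[ℂ] ({e : E // e ∉ A} → ℂ) :=
    (LinearMap.funLeft ℂ ℂ (Subtype.val : {e : E // e ∉ A} → E)).comp V.subtype
  have hL : Function.Injective L := by
    rw [← LinearMap.ker_eq_bot, LinearMap.ker_eq_bot']
    intro f hf
    refine Subtype.ext (h f.1 f.2 fun e he => ?_)
    exact congrFun hf ⟨e, he⟩
  have h1 := LinearMap.finrank_le_finrank_of_injective hL
  rw [Module.finrank_fintype_fun_eq_card, Fintype.card_subtype_compl, Fintype.card_coe] at h1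
  have h2 : A.card ≤ Fintype.card E := card_le_univ A
  omega

theorem sum_supp {E ω : Type} [Fintype E] [Fintype ω] (ε : ω → E)
    (hε : Function.Injective ε) (f g : E → ℂ) (hf : ∀ e, (∀ w, ε w ≠ e) → f e = 0) :
    ∑ e, f e * g e = ∑ w, f (ε w) * g (ε w) := by
  classical
  rw [← sum_image (f := fun e => f e * g e) (s := (univ : Finset ω)) (g := ε)
    (fun x _ y _ h => hε h)]
  symm
  refine sum_subset (subset_univ _) fun e _ he => ?_
  rw [hf e fun w hw => he (mem_image.2 ⟨w, mem_univ w, hw⟩), zero_mul]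

theorem card_le_size {E ν T : Type} [Fintype E] (S : Sys E ν T) (t : T) {ω : Type} [Fintype ω]
    (ε : ω → E) (hε : Function.Injective ε) (q : ν → ℂ)
    (h : ∀ f ∈ S.V (fun _ : Unit => t) (fun _ => q), (∀ e, (∀ w, ε w ≠ e) → f e = 0) →
      ∀ w, f (ε w) = 0) : Fintype.card ω ≤ S.size t := by
  classical
  have h1 := finrank_add_card_le (S.V (fun _ : Unit => t) fun _ => q) (univ.image ε) (by
    intro f hf h2
    have h3 : ∀ e, (∀ w, ε w ≠ e) → f e = 0 := fun e he =>
      h2 e fun h4 => by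
        obtain ⟨w, -, hw⟩ := mem_image.1 h4
        exact he w hw
    funext e
    by_cases he : ∀ w, ε w ≠ e
    · exact h3 e he
    · push Not at he
      obtain ⟨w, rfl⟩ := he
      exact h f hf h3 w)
  rw [card_image_of_injective _ hε, card_univ] at h1
  have h2 := gd_le S (fun _ : Unit => t) fun _ => q
  have h3 := gd_unit S t
  omega

variable {ν : Type} [Fintype ν] [DecidableEq ν]

/-! ### Products -/

theorem choose_mul_pow (x : ℂ) (u e b : ℕ) :
    (((u + e).choose b : ℕ) : ℂ) * x ^ (u + e - b) = ∑ k ∈ range (b + 1),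
      ((u.choose (b - k) : ℕ) : ℂ) * x ^ (u - (b - k)) *
        (((e.choose k : ℕ) : ℂ) * x ^ (e - k)) := by
  have h1 : (u + e).choose b = ∑ k ∈ range (b + 1), e.choose k * u.choose (b - k) := by
    rw [Nat.add_comm u e, Nat.add_choose_eq]
    exact Nat.sum_antidiagonal_eq_sum_range_succ (fun i j => e.choose i * u.choose j) b
  rw [h1, Nat.cast_sum, sum_mul]
  refine sum_congr rfl fun k hk => ?_
  have hkb : k ≤ b := Nat.lt_succ_iff.1 (mem_range.1 hk)
  by_cases h2 : k ≤ e
  · by_cases h3 : b - k ≤ u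
    · have h4 : u + e - b = (u - (b - k)) + (e - k) := by omega
      rw [h4, pow_add, Nat.cast_mul]
      ring
    · rw [Nat.choose_eq_zero_of_lt (Nat.lt_of_not_le h3)]
      simp
  · rw [Nat.choose_eq_zero_of_lt (Nat.lt_of_not_le h2)]
    simp

/-- The Leibniz rule. -/
theorem tcr_mul (p : ν → ℂ) (u e b : ν → ℕ) : tcr p (u + e) b =
    ∑ k ∈ Fintype.piFinset fun i => range (b i + 1), tcr p u (b - k) * tcr p e k := by
  unfold tcr
  have h1 : ∀ i ∈ (univ : Finset ν), ((((u + e) i).choose (b i) : ℕ) : ℂ) *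
      p i ^ ((u + e) i - b i) = ∑ k ∈ range (b i + 1),
        (((u i).choose (b i - k) : ℕ) : ℂ) * p i ^ (u i - (b i - k)) *
          ((((e i).choose k : ℕ) : ℂ) * p i ^ (e i - k)) := fun i _ =>
    choose_mul_pow (p i) (u i) (e i) (b i)
  rw [prod_congr rfl h1, prod_univ_sum]
  refine sum_congr rfl fun k _ => ?_
  rw [prod_mul_distrib]
  rfl

/-- Division by a monomial which does not vanish at `p`. -/
theorem div_fat {ω : Type} (W : Finset ω) (φ : ω → ℂ) (h : ω → ν → ℕ) (u : ν → ℕ) (p : ν → ℂ)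
    (hu : tcr p u 0 = 1) (m : ℕ)
    (hF : ∀ b : ν → ℕ, ∑ i, b i < m → ∑ w ∈ W, φ w * tcr p (u + h w) b = 0) :
    (∀ b : ν → ℕ, ∑ i, b i < m → ∑ w ∈ W, φ w * tcr p (h w) b = 0) ∧
      ∀ b : ν → ℕ, ∑ i, b i ≤ m → ∑ w ∈ W, φ w * tcr p (u + h w) b =
        ∑ w ∈ W, φ w * tcr p (h w) b := by
  have key : ∀ b : ν → ℕ, (∀ k : ν → ℕ, ∑ i, k i < ∑ i, b i →
      ∑ w ∈ W, φ w * tcr p (h w) k = 0) →
      ∑ w ∈ W, φ w * tcr p (u + h w) b = ∑ w ∈ W, φ w * tcr p (h w) b := by
    intro b hb
    have h1 : ∑ w ∈ W, φ w * tcr p (u + h w) b =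
        ∑ k ∈ Fintype.piFinset fun i => range (b i + 1), tcr p u (b - k) *
          ∑ w ∈ W, φ w * tcr p (h w) k := by
      simp only [mul_sum]
      rw [sum_comm]
      refine sum_congr rfl fun w _ => ?_
      rw [tcr_mul, mul_sum]
      refine sum_congr rfl fun k _ => ?_
      ring
    rw [h1, sum_eq_single b]
    · rw [tsub_self, hu, one_mul]
    · intro k hk hkb
      rw [Fintype.mem_piFinset] at hk
      have hle : ∀ i, k i ≤ b i := fun i => Nat.lt_succ_iff.1 (mem_range.1 (hk i))
      have hlt : ∑ i, k i < ∑ i, b i := by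
        obtain ⟨i, hi⟩ := Function.ne_iff.1 hkb
        exact sum_lt_sum (fun i _ => hle i) ⟨i, mem_univ i, lt_of_le_of_ne (hle i) hi⟩
      rw [hb k hlt, mul_zero]
    · intro h2
      exfalso
      refine h2 (Fintype.mem_piFinset.2 fun i => mem_range.2 (Nat.lt_succ_self _))
  have hG : ∀ n : ℕ, n < m → ∀ b : ν → ℕ, ∑ i, b i = n →
      ∑ w ∈ W, φ w * tcr p (h w) b = 0 := by
    intro n
    induction n using Nat.strong_induction_on with
    | _ n ih =>
      intro hn b hb
      rw [← key b fun k hk => ih _ (hb ▸ hk) (by omega) k rfl]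
      exact hF b (by omega)
  exact ⟨fun b hb => hG _ hb b rfl, fun b hb => key b fun k hk => hG _ (by omega) k rfl⟩

theorem tcr_same (p : ν → ℂ) (e b : ν → ℕ) (h : ∑ i, e i = ∑ i, b i) :
    tcr p e b = if e = b then 1 else 0 := by
  by_cases h1 : ∀ i, b i ≤ e i
  · exact tcr_self p e b h1 h.le
  · rw [tcr_eq_zero p e b h1, if_neg]
    rintro rfl
    exact h1 fun i => le_rfl

theorem tcr_one {β : ν → ℕ} {I : Finset ℕ} {u : ν → ℕ} (hu : ∀ s, β s ∈ I → u s = 0) :
    tcr (msk β I fun _ => (1 : ℂ)) u 0 = 1 := by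
  unfold tcr
  refine prod_eq_one fun s _ => ?_
  unfold msk
  by_cases h : β s ∈ I
  · rw [hu s h]
    simp
  · rw [if_neg h]
    simp

/-! ### The exponent `u` -/

/-- One variable of every block of `J`, and `r` times `s₀`. -/
def uu (sf : ℕ → ν) (J : Finset ℕ) (s₀ : ν) (r : ℕ) : ν → ℕ := fun s =>
  (∑ i ∈ J, if sf i = s then 1 else 0) + if s₀ = s then r else 0

theorem uu_sum (sf : ℕ → ν) (J : Finset ℕ) (s₀ : ν) (r : ℕ) :
    ∑ s, uu sf J s₀ r s = J.card + r := by
  unfold uu
  rw [sum_add_distrib, sum_comm]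
  simp

theorem uu_pos (sf : ℕ → ν) {J : Finset ℕ} (s₀ : ν) (r : ℕ) {i : ℕ} (hi : i ∈ J) :
    uu sf J s₀ r (sf i) ≠ 0 := by
  unfold uu
  have h1 : 1 ≤ ∑ k ∈ J, if sf k = sf i then 1 else 0 := by
    refine le_trans ?_ (single_le_sum (f := fun k => if sf k = sf i then 1 else 0)
      (fun k _ => Nat.zero_le _) hi)
    simp
  omega

theorem uu_supp {sf : ℕ → ν} {J : Finset ℕ} {s₀ : ν} {r : ℕ} {s : ν}
    (h : uu sf J s₀ r s ≠ 0) : (∃ i ∈ J, sf i = s) ∨ s₀ = s := by
  by_contra hcon
  push Not at hcon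
  refine h ?_
  unfold uu
  rw [if_neg hcon.2, sum_eq_zero fun i hi => if_neg (hcon.1 i hi)]

theorem exists_sf {c l : ℕ} {β : ν → ℕ} (hβ : ∀ i < l, (blo β i).card = c) (hc : 1 ≤ c) (s₀ : ν) :
    ∃ sf : ℕ → ν, ∀ i < l, β (sf i) = i := by
  have h1 : ∀ i, ∃ s, i < l → β s = i := by
    intro i
    by_cases hi : i < l
    · have h2 : (blo β i).Nonempty := by
        rw [← card_pos, hβ i hi]
        exact hc
      obtain ⟨s, hs⟩ := h2
      exact ⟨s, fun _ => (mem_filter.1 hs).2⟩
    · exact ⟨s₀, fun h => absurd h hi⟩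
  choose sf hsf using h1
  exact ⟨sf, hsf⟩

/-! ### Ordinary points -/

theorem wt_le_size_ord {M c l : ℕ} {β : ν → ℕ}
    (hβ : ∀ i < l, (blo β i).card = c) (hc : 1 ≤ c) {s₀ : ν} (hs₀ : l ≤ β s₀) {μ : ℕ}
    {I : Finset ℕ} (h1 : 1 ≤ μ) (h2 : μ ≤ M) (h3 : I ⊆ range l) (hd : l ≤ 2 * M - μ + I.card) :
    wt M c (Fintype.card ν) (.ord μ I) ≤ (LS M β l).size (.ord μ I) := by
  obtain ⟨sf, hsf⟩ := exists_sf hβ hc s₀
  have hcardJ : (range l \ I).card = l - I.card := by
    rw [card_sdiff_of_subset h3, card_range]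
  have hIl : I.card ≤ l := by
    have := card_le_card h3
    rwa [card_range] at this
  set J : Finset ℕ := range l \ I with hJ
  set u : ν → ℕ := uu sf J s₀ (2 * M - μ - J.card) with hu
  have husum : ∑ s, u s = 2 * M - μ := by
    rw [hu, uu_sum]
    omega
  have hu0 : ∀ s, β s ∈ I → u s = 0 := by
    intro s hs
    by_contra h
    rcases uu_supp h with ⟨i, hi, rfl⟩ | rfl
    · rw [hJ, mem_sdiff, mem_range] at hi
      rw [hsf i hi.1] at hs
      exact hi.2 hs
    · have := mem_range.1 (h3 hs)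
      omega
  have hmem : ∀ w ∈ mset (blo β) univ I (μ - 1), u + w ∈ Ex β (2 * M - 1) l := by
    intro w hw
    rw [mem_mset] at hw
    rw [mem_Ex]
    refine ⟨?_, fun i hi => ?_⟩
    · simp only [Pi.add_apply]
      rw [sum_add_distrib, husum, hw.1.1]
      omega
    · by_cases hiI : i ∈ I
      · have h4 := hw.2 i hiI
        push Not at h4
        obtain ⟨s, hs, hs'⟩ := h4
        refine ⟨s, (mem_filter.1 hs).2, ?_⟩
        rw [Pi.add_apply]
        omega
      · refine ⟨sf i, hsf i hi, ?_⟩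
        have h4 : u (sf i) ≠ 0 := uu_pos sf s₀ _ (by
          rw [hJ, mem_sdiff, mem_range]
          exact ⟨hi, hiI⟩)
        rw [Pi.add_apply]
        omega
  let ε : mset (blo β) univ I (μ - 1) → Ex β (2 * M - 1) l := fun w => ⟨u + w.1, hmem w.1 w.2⟩
  have hε : Function.Injective ε := fun w w' h =>
    Subtype.ext (add_left_cancel (congrArg Subtype.val h))
  have key := card_le_size (LS M β l) (.ord μ I) ε hε (fun _ => 1) (by
    intro f hf hsupp w
    rw [mem_LSA] at hf
    have hfat := hf ()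
    have hF : ∀ b : ν → ℕ, ∑ i, b i < μ → ∑ w : mset (blo β) univ I (μ - 1),
        f (ε w) * tcr (msk β I fun _ => (1 : ℂ)) (u + w.1) b = 0 := by
      intro b hb
      have h4 := hfat b hb
      rw [sum_supp ε hε f (fun e => tcr (msk β I fun _ => (1 : ℂ)) e.1 b) hsupp] at h4
      exact h4
    have h5 := (div_fat univ (fun w => f (ε w)) (fun w => w.1) u _ (tcr_one hu0) μ hF).1 w.1 (by
      rw [(mem_mset.1 w.2).1.1]
      omega)
    rw [sum_eq_single w] at h5
    · rw [tcr_same _ _ _ rfl, if_pos rfl, mul_one] at h5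
      exact h5
    · intro w' _ hw'
      rw [tcr_same _ _ _ (by rw [(mem_mset.1 w.2).1.1, (mem_mset.1 w'.2).1.1]),
        if_neg fun h => hw' (Subtype.ext h), mul_zero]
    · intro h
      exact absurd (mem_univ w) h)
  rw [Fintype.card_coe, card_mset (blo β) c (μ - 1) I univ
    (fun i hi => ⟨subset_univ _, hβ i (mem_range.1 (h3 hi))⟩)
    (fun i _ k _ hik => blo_disjoint β hik), card_univ, ← bb_eq_bbc] at key
  exact key

/-! ### Swapped points -/

/-- A Taylor coefficient at the point `(1, 0, …, 0)`. -/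
theorem tcr_dir (x₀ : ν) (e a : ν → ℕ) (ha : a x₀ = 0) :
    tcr (fun s => if s = x₀ then (1 : ℂ) else 0) e a =
      if ∀ s, s ≠ x₀ → e s = a s then 1 else 0 := by
  classical
  unfold tcr
  split_ifs with h
  · refine prod_eq_one fun s _ => ?_
    by_cases hs : s = x₀
    · rw [hs, ha]
      simp
    · rw [h s hs]
      simp
  · push Not at h
    obtain ⟨s, hs, hne⟩ := h
    refine prod_eq_zero (mem_univ s) ?_
    show (((e s).choose (a s) : ℕ) : ℂ) * (if s = x₀ then (1 : ℂ) else 0) ^ (e s - a s) = 0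
    rw [if_neg hs]
    rcases Nat.lt_or_gt_of_ne hne with h1 | h1
    · rw [Nat.choose_eq_zero_of_lt h1]
      simp
    · rw [zero_pow (by omega), mul_zero]

theorem wt_le_size_sw {M c l : ℕ} (hM : 1 ≤ M) {β : ν → ℕ}
    (hβ : ∀ i < l, (blo β i).card = c) (hc : 1 ≤ c) {s₀ : ν} (hs₀ : l ≤ β s₀) {i : ℕ}
    {I : Finset ℕ} (h1 : i < l) (h2 : I ⊆ Ico (i + 1) l) (hd : l ≤ M + I.card) :
    wt M c (Fintype.card ν) (.sw i I) ≤ (LS M β l).size (.sw i I) := by
  classical
  obtain ⟨sf, hsf⟩ := exists_sf hβ hc s₀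
  obtain ⟨x₀, hx₀⟩ : ∃ x₀, β x₀ = i := ⟨sf i, hsf i h1⟩
  have hiI : i ∉ I := fun h => by
    have := mem_Ico.1 (h2 h)
    omega
  have hIr : I ⊆ range l := fun k hk => mem_range.2 (mem_Ico.1 (h2 hk)).2
  have hins : insert i I ⊆ range l := insert_subset (mem_range.2 h1) hIr
  have hcardJ : (range l \ insert i I).card = l - (I.card + 1) := by
    rw [card_sdiff_of_subset hins, card_range, card_insert_of_notMem hiI]
  have hIl : I.card + 1 ≤ l := by
    have := card_le_card hins
    rwa [card_range, card_insert_of_notMem hiI] at this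
  have hsx : s₀ ≠ x₀ := by
    rintro rfl
    omega
  set J : Finset ℕ := range l \ insert i I with hJ
  set u : ν → ℕ := uu sf J s₀ (M - 1 - J.card) with hu
  have husum : ∑ s, u s = M - 1 := by
    rw [hu, uu_sum]
    omega
  have hu0 : ∀ s, β s ∈ insert i I → u s = 0 := by
    intro s hs
    by_contra h
    rcases uu_supp h with ⟨k, hk, rfl⟩ | rfl
    · rw [hJ, mem_sdiff, mem_range] at hk
      rw [hsf k hk.1] at hs
      exact hk.2 hs
    · have := mem_range.1 (hins hs)
      omega
  -- the index set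
  set W₀ : Finset (ν → ℕ) := mset (blo β) univ I (M - 1) with hW₀
  set W : Finset (ν → ℕ) := if I = ∅ then W₀.erase (Pi.single x₀ (M - 1)) else W₀ with hW
  have hWW₀ : ∀ w ∈ W, w ∈ W₀ := by
    intro w hw
    rw [hW] at hw
    split_ifs at hw with h
    · exact mem_of_mem_erase hw
    · exact hw
  have hWsum : ∀ w ∈ W, ∑ s, w s = M - 1 := fun w hw => (mem_mset.1 (hWW₀ w hw)).1.1
  have hWI : ∀ w ∈ W, ∀ k ∈ I, ∃ s, β s = k ∧ w s ≠ 0 := by
    intro w hw k hk
    have h4 := (mem_mset.1 (hWW₀ w hw)).2 k hk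
    push Not at h4
    obtain ⟨s, hs, hs'⟩ := h4
    exact ⟨s, (mem_filter.1 hs).2, hs'⟩
  have hWne : ∀ w ∈ W, w ≠ Pi.single x₀ (M - 1) := by
    intro w hw h
    by_cases hI : I = ∅
    · rw [hW, if_pos hI] at hw
      exact (mem_erase.1 hw).1 h
    · obtain ⟨k, hk⟩ := nonempty_iff_ne_empty.2 hI
      obtain ⟨s, hs, hs'⟩ := hWI w hw k hk
      have h4 : s ≠ x₀ := by
        rintro rfl
        rw [hx₀] at hs
        exact hiI (hs ▸ hk)
      rw [h, Pi.single_eq_of_ne h4] at hs'
      exact hs' rfl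
  have hWcard : W.card = bb c (M - 1) I.card (Fintype.card ν) - if I = ∅ then 1 else 0 := by
    have h4 : W₀.card = bb c (M - 1) I.card (Fintype.card ν) := by
      rw [hW₀, card_mset (blo β) c (M - 1) I univ
        (fun i hi => ⟨subset_univ _, hβ i (mem_range.1 (hIr hi))⟩)
        (fun i _ k _ hik => blo_disjoint β hik), card_univ, ← bb_eq_bbc]
    rw [hW, ← h4]
    split_ifs with hI
    · refine card_erase_of_mem ?_
      rw [hW₀, mem_mset]
      refine ⟨⟨?_, fun x _ => mem_univ x⟩, fun k hk => ?_⟩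
      · rw [sum_pi_single']
        simp
      · rw [hI] at hk
        exact absurd hk (notMem_empty k)
    · rfl
  -- the exponents
  let Q : (ν → ℕ) → Prop := fun w => ∃ s, β s = i ∧ s ≠ x₀ ∧ w s ≠ 0
  let t : (ν → ℕ) → ν := fun w => if Q w then s₀ else x₀
  let hh : (ν → ℕ) → ν → ℕ := fun w => w + Pi.single (t w) 1
  have hoff : ∀ w s, β s = i → s ≠ x₀ → hh w s = w s := by
    intro w s hs hsx'
    show w s + (Pi.single (t w) 1 : ν → ℕ) s = w s
    have h4 : s ≠ t w := by
      show s ≠ if Q w then s₀ else x₀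
      split_ifs
      · rintro rfl
        omega
      · exact hsx'
    rw [Pi.single_eq_of_ne h4, Nat.add_zero]
  have hQ : ∀ w, Q (hh w) ↔ Q w := by
    intro w
    constructor
    · rintro ⟨s, hs, hs', h4⟩
      exact ⟨s, hs, hs', by rwa [hoff w s hs hs'] at h4⟩
    · rintro ⟨s, hs, hs', h4⟩
      exact ⟨s, hs, hs', by rwa [hoff w s hs hs']⟩
  have hhinj : ∀ w w', hh w = hh w' → w = w' := by
    intro w w' h
    have h4 : Q w ↔ Q w' := by rw [← hQ w, ← hQ w', h]
    have h5 : t w = t w' := by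
      show (if Q w then s₀ else x₀) = if Q w' then s₀ else x₀
      by_cases h6 : Q w
      · rw [if_pos h6, if_pos (h4.1 h6)]
      · rw [if_neg h6, if_neg fun h7 => h6 (h4.2 h7)]
    have h6 : w + Pi.single (t w) 1 = w' + Pi.single (t w') 1 := h
    rw [h5] at h6
    exact add_right_cancel h6
  have hhsum : ∀ w ∈ W, ∑ s, hh w s = M := by
    intro w hw
    show ∑ s, (w s + (Pi.single (t w) 1 : ν → ℕ) s) = M
    rw [sum_add_distrib, hWsum w hw, sum_pi_single']
    simp
    omega
  have hmem : ∀ w ∈ W, u + hh w ∈ Ex β (2 * M - 1) l := by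
    intro w hw
    rw [mem_Ex]
    refine ⟨?_, fun k hk => ?_⟩
    · simp only [Pi.add_apply]
      rw [sum_add_distrib, husum, hhsum w hw]
      omega
    · have hle : ∀ s, w s ≤ hh w s := fun s => Nat.le_add_right _ _
      by_cases hki : k = i
      · by_cases hQw : Q w
        · obtain ⟨s, hs, -, hs'⟩ := hQw
          refine ⟨s, by rw [hs, hki], ?_⟩
          have := hle s
          rw [Pi.add_apply]
          omega
        · refine ⟨x₀, by rw [hx₀, hki], ?_⟩
          have h4 : hh w x₀ = w x₀ + 1 := by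
            show w x₀ + (Pi.single (t w) 1 : ν → ℕ) x₀ = w x₀ + 1
            have h5 : t w = x₀ := if_neg hQw
            rw [h5, Pi.single_eq_same]
          rw [Pi.add_apply]
          omega
      · by_cases hkI : k ∈ I
        · obtain ⟨s, hs, hs'⟩ := hWI w hw k hkI
          refine ⟨s, hs, ?_⟩
          have := hle s
          rw [Pi.add_apply]
          omega
        · refine ⟨sf k, hsf k hk, ?_⟩
          have h4 : u (sf k) ≠ 0 := uu_pos sf s₀ _ (by
            rw [hJ, mem_sdiff, mem_range, mem_insert]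
            exact ⟨hk, fun h => h.elim hki hkI⟩)
          rw [Pi.add_apply]
          omega
  let ε : W → Ex β (2 * M - 1) l := fun w => ⟨u + hh w.1, hmem w.1 w.2⟩
  have hε : Function.Injective ε := fun w w' h =>
    Subtype.ext (hhinj _ _ (add_left_cancel (congrArg Subtype.val h)))
  have key := card_le_size (LS M β l) (.sw i I) ε hε
    (Sum.elim (fun _ => 1) fun s => if s = x₀ then 1 else 0) (by
    intro f hf hsupp
    rw [mem_LSA] at hf
    obtain ⟨hfat, hsw⟩ := hf ()
    set p : ν → ℂ := msk β (insert i I) fun _ => (1 : ℂ) with hp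
    have hv : (msk β I fun s => if s = x₀ then (1 : ℂ) else 0) =
        fun s => if s = x₀ then (1 : ℂ) else 0 := by
      funext s
      show (if β s ∈ I then (0 : ℂ) else if s = x₀ then 1 else 0) = if s = x₀ then 1 else 0
      by_cases h4 : s = x₀
      · rw [h4, hx₀, if_neg hiI]
      · rw [if_neg h4, ite_self]
    have hSF : ∀ b : ν → ℕ, ∑ e : Ex β (2 * M - 1) l, f e * tcr p e.1 b =
        ∑ w : W, f (ε w) * tcr p (u + hh w.1) b := fun b =>
      sum_supp ε hε f (fun e => tcr p e.1 b) hsupp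
    have hF : ∀ b : ν → ℕ, ∑ i, b i < M → ∑ w : W, f (ε w) * tcr p (u + hh w.1) b = 0 := by
      intro b hb
      rw [← hSF]
      exact hfat b hb
    obtain ⟨hA, hB⟩ := div_fat univ (fun w : W => f (ε w)) (fun w => hh w.1) u p (tcr_one hu0) M hF
    -- the swapped conditions
    have hS : ∀ a : ν → ℕ, (∀ s, β s = i → a s = 0) → 1 ≤ ∑ s, a s → ∑ s, a s ≤ M →
        ∑ w : W, f (ε w) * (if ∀ s, s ≠ x₀ → hh w.1 s = a s then 1 else 0) = 0 := by
      intro a ha ha1 ha2
      have h4 := hsw a (fun s hs => ha s (mem_filter.1 hs).2) ha1 ha2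
      refine Eq.trans ?_ h4
      have h5 : ∀ b ∈ bxd ν (2 * M) M,
          tcr (msk β I fun s => if s = x₀ then (1 : ℂ) else 0) b a *
            ∑ e : Ex β (2 * M - 1) l, f e * tcr p e.1 b =
          ∑ w : W, f (ε w) * ((if hh w.1 = b then 1 else 0) *
            (if ∀ s, s ≠ x₀ → b s = a s then 1 else 0)) := by
        intro b hb
        have hbs : ∑ s, b s = M := by
          unfold bxd at hb
          exact (mem_filter.1 hb).2
        rw [hSF, hB b hbs.le, hv, tcr_dir x₀ b a (ha x₀ hx₀), mul_sum]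
        refine sum_congr rfl fun w _ => ?_
        rw [tcr_same p _ b (by rw [hhsum w.1 w.2, hbs])]
        ring
      refine Eq.trans ?_ (sum_congr rfl h5).symm
      rw [sum_comm]
      refine sum_congr rfl fun w _ => ?_
      rw [← mul_sum]
      congr 1
      rw [sum_eq_single (hh w.1)]
      · rw [if_pos rfl, one_mul]
      · intro b _ hb
        rw [if_neg fun h => hb h.symm, zero_mul]
      · intro h
        exfalso
        refine h ?_
        unfold bxd
        rw [mem_filter, mem_bx]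
        refine ⟨fun s => ?_, hhsum w.1 w.2⟩
        have h6 := single_le_sum (f := hh w.1) (fun _ _ => Nat.zero_le _) (mem_univ s)
        rw [hhsum w.1 w.2] at h6
        omega
    -- the exponents with a pure power of `x₀` in the block `i`
    have hN : ∀ w : W, ¬ Q w.1 → f (ε w) = 0 := by
      intro w hw
      have hw0 : ∀ s, β s = i → s ≠ x₀ → w.1 s = 0 := by
        intro s hs hs'
        by_contra h
        exact hw ⟨s, hs, hs', h⟩
      have ha : ∀ s, s ≠ x₀ → Function.update w.1 x₀ 0 s = w.1 s := fun s hs =>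
        Function.update_of_ne hs _ _
      have hsum : ∑ s, Function.update w.1 x₀ 0 s + w.1 x₀ = M - 1 := by
        rw [← hWsum w.1 w.2, ← add_sum_erase univ (Function.update w.1 x₀ 0) (mem_univ x₀),
          ← add_sum_erase univ w.1 (mem_univ x₀), Function.update_self, zero_add, add_comm]
        congr 1
        exact sum_congr rfl fun s hs => ha s (ne_of_mem_erase hs)
      have h4 := hS (Function.update w.1 x₀ 0) (fun s hs => by
        by_cases hs' : s = x₀
        · rw [hs', Function.update_self]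
        · rw [ha s hs']
          exact hw0 s hs hs') (by
        by_contra hcon
        have h5 : ∑ s, Function.update w.1 x₀ 0 s = 0 := by omega
        refine hWne w.1 w.2 (funext fun s => ?_)
        by_cases hs' : s = x₀
        · rw [hs', Pi.single_eq_same]
          omega
        · rw [Pi.single_eq_of_ne hs', ← ha s hs']
          exact (sum_eq_zero_iff.1 h5) s (mem_univ s)) (by omega)
      rw [sum_eq_single w] at h4
      · rw [if_pos, mul_one] at h4
        · exact h4
        · intro s hs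
          rw [ha s hs]
          show w.1 s + (Pi.single (t w.1) 1 : ν → ℕ) s = w.1 s
          have h5 : t w.1 = x₀ := if_neg hw
          rw [h5, Pi.single_eq_of_ne hs, Nat.add_zero]
      · intro w' _ hw'
        rw [if_neg, mul_zero]
        intro h5
        refine hw' (Subtype.ext ?_)
        have h6 : ¬ Q w'.1 := by
          rintro ⟨s, hs, hs', h7⟩
          rw [← hoff w'.1 s hs hs', h5 s hs', ha s hs'] at h7
          exact h7 (hw0 s hs hs')
        have h7 : ∀ s, s ≠ x₀ → w'.1 s = w.1 s := by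
          intro s hs
          have h8 := h5 s hs
          rw [ha s hs] at h8
          rw [← h8]
          show w'.1 s = w'.1 s + (Pi.single (t w'.1) 1 : ν → ℕ) s
          have h9 : t w'.1 = x₀ := if_neg h6
          rw [h9, Pi.single_eq_of_ne hs, Nat.add_zero]
        have h8 : w'.1 x₀ = w.1 x₀ := by
          have e1 := hWsum w.1 w.2
          have e2 := hWsum w'.1 w'.2
          have e3 := add_sum_erase univ w.1 (mem_univ x₀)
          have e4 := add_sum_erase univ w'.1 (mem_univ x₀)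
          have e5 : ∑ s ∈ univ.erase x₀, w'.1 s = ∑ s ∈ univ.erase x₀, w.1 s :=
            sum_congr rfl fun s hs => h7 s (ne_of_mem_erase hs)
          omega
        funext s
        by_cases hs : s = x₀
        · rw [hs, h8]
        · exact h7 s hs
      · intro h
        exact absurd (mem_univ w) h
    -- the other exponents
    have hA' : ∀ b : ν → ℕ, ∑ i, b i < M →
        ∑ w : W, f (ε w) * tcr p (Pi.single s₀ 1 + w.1) b = 0 := by
      intro b hb
      rw [← hA b hb]
      refine sum_congr rfl fun w _ => ?_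
      by_cases hw : Q w.1
      · have h5 : hh w.1 = w.1 + Pi.single s₀ 1 := by
          show w.1 + Pi.single (t w.1) 1 = w.1 + Pi.single s₀ 1
          have h6 : t w.1 = s₀ := if_pos hw
          rw [h6]
        rw [h5, add_comm]
      · rw [hN w hw, zero_mul, zero_mul]
    intro w
    have h5 := (div_fat univ (fun w : W => f (ε w)) (fun w => w.1) (Pi.single s₀ 1) p
      (tcr_one fun s hs => by
        rw [Pi.single_eq_of_ne]
        rintro rfl
        have := mem_range.1 (hins hs)
        omega) M hA').1 w.1 (by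
      rw [hWsum w.1 w.2]
      omega)
    rw [sum_eq_single w] at h5
    · rw [tcr_same _ _ _ rfl, if_pos rfl, mul_one] at h5
      exact h5
    · intro w' _ hw'
      rw [tcr_same _ _ _ (by rw [hWsum w.1 w.2, hWsum w'.1 w'.2]),
        if_neg fun h => hw' (Subtype.ext h), mul_zero]
    · intro h
      exact absurd (mem_univ w) h)
  rw [Fintype.card_coe, hWcard] at key
  exact key

/-- The size of a kind is at least its weight. -/
theorem wt_le_size {M c l : ℕ} (hM : 2 ≤ M) {β : ν → ℕ} (hβ : ∀ i < l, (blo β i).card = c)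
    (hc : 1 ≤ c) {s₀ : ν} (hs₀ : l ≤ β s₀) {k : Kd} (hk : k.Ok M l) (hd : l ≤ dgr M k) :
    wt M c (Fintype.card ν) k ≤ (LS M β l).size k := by
  rcases k with ⟨μ, I⟩ | ⟨i, I⟩
  · exact wt_le_size_ord hβ hc hs₀ hk.1 hk.2.1 hk.2.2 hd
  · exact wt_le_size_sw (by omega) hβ hc hs₀ hk.1 hk.2 hd

/-- The size of a kind is its weight. -/
theorem size_eq_wt {M c l : ℕ} (hM : 2 ≤ M) {β : ν → ℕ} (hβ : ∀ i < l, (blo β i).card = c)
    (hc : 1 ≤ c) {s₀ : ν} (hs₀ : l ≤ β s₀) {k : Kd} (hk : k.Ok M l) (hd : l ≤ dgr M k) :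
    (LS M β l).size k = wt M c (Fintype.card ν) k :=
  le_antisymm (size_le_wt (by omega) hβ hs₀ hk) (wt_le_size hM hβ hc hs₀ hk hd)

theorem wt_le_size_blk {M c l n : ℕ} (hM : 2 ≤ M) (hc : 1 ≤ c) (h : l * c < n) {k : Kd}
    (hk : k.Ok M l) (hd : l ≤ dgr M k) : wt M c n k ≤ (LS M (blk c n) l).size k := by
  have h1 := wt_le_size (ν := Fin n) (c := c) hM (fun i hi => card_blo_blk hc
    ((Nat.mul_le_mul_right c (Nat.succ_le_of_lt hi)).trans h.le)) hc (s₀ := ⟨l * c, h⟩)
    (show l ≤ l * c / c by rw [Nat.mul_div_cancel _ hc]) hk hd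
  rwa [Fintype.card_fin] at h1

end Pool.Agent.V7
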