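import Pool.Agent.V7.Defs
import Pool.Agent.V7.AL.SwapK

/-!
# V7, block ALPHA, module Span: the span property of the level `l`

The spaces of solutions at general positions (kinds of the level `l`) are not contained in a fixed
hyperplane, unless their dimension is at most the number of exponents whose degree in the variables
of the blocks `≥ l` is less than `2 M - 1 - l`.

Proof.  Let `F` be a solution at `p₀`, `φ` a functional which vanishes on the general solutions.  For
a matrix `A` which preserves the subspaces `L_i`, `i < l`, the form `F_A(x) = F(A x)` is a solution at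
the positions `adj(A) p₀`; so `φ(F_A) * det A * G(adj(A) p₀) = 0` for all these `A`, hence
`φ(F_A) = 0`.  Take `A` of rank one on every block: `A s t = c s * v t` on the blocks `< l`,
`A s t = c s * w t` (all `t`) for the other `s`.  The coefficient of `c^a` in `φ(F_A)` is
`f_a * φ(∏_{i < l} λ_i^{a_i} * λ^{a_Z})`, where `λ_i = ∑ v t x_t` over the block `i` and
`λ = ∑ w t x_t`.  For `a` of degree `2 M - 1 - l` in the variables of the blocks `≥ l` all `a_i` are
`1`; if `v` is the indicator of one variable in every block the product is this monomial times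
`λ^{2M-1-l}`, and as `w` is arbitrary `f_a ≠ 0` would imply `φ = 0`.
-/

set_option autoImplicit false
set_option linter.unusedSectionVars false

namespace Pool.Agent.V7

open Finset MvPolynomial Pool.Agent.H51.TB Pool.Agent.H54.V7
open Pool.Agent.H18.Ex (tcr)

section

variable {ν : Type} [Fintype ν] [DecidableEq ν]

/-- The finitely supported function of a function. -/
private noncomputable def SpX.sf (α : ν → ℕ) : ν →₀ ℕ := Finsupp.equivFunOnFinite.symm α

private lemma SpX.sf_coe (α : ν → ℕ) : ⇑(SpX.sf α) = α := rfl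

private lemma SpX.sf_eta (α : ν →₀ ℕ) : SpX.sf ⇑α = α := by
  ext i
  rfl

private lemma SpX.sf_inj {α β : ν → ℕ} : SpX.sf α = SpX.sf β ↔ α = β :=
  Finsupp.equivFunOnFinite.symm.injective.eq_iff

private lemma SpX.sf_degree (α : ν → ℕ) : (SpX.sf α).degree = ∑ s, α s := by
  rw [Finsupp.degree_eq_sum]
  rfl

/-- The Taylor coefficients of a monomial. -/
private lemma SpX.shift_monomial (q : ν → ℂ) (α β : ν → ℕ) (c : ℂ) :
    coeff (SpX.sf β) (aeval (fun i => X i + C (q i)) (monomial (SpX.sf α) c) :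
      MvPolynomial ν ℂ) = c * tcr q α β := by
  classical
  rw [aeval_monomial, algebraMap_eq, coeff_C_mul, Finsupp.prod_fintype _ _ (by intro i; simp)]
  congr 1
  have h1 : ∀ j : ν, (X j + C (q j) : MvPolynomial ν ℂ) ^ (SpX.sf α j) =
      ∑ b ∈ range (α j + 1), monomial (Finsupp.single j b)
        (((α j).choose b : ℂ) * q j ^ (α j - b)) := by
    intro j
    rw [SpX.sf_coe, add_pow]
    refine sum_congr rfl fun b _ => ?_
    rw [X_pow_eq_monomial, ← C_pow, mul_assoc, mul_comm (C (q j ^ (α j - b)))]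
    rw [← C_eq_coe_nat, ← C_mul, mul_comm, C_mul_monomial, mul_one]
  simp_rw [h1]
  rw [prod_univ_sum, coeff_sum]
  have h2 : ∀ x ∈ Fintype.piFinset fun j => range (α j + 1),
      coeff (SpX.sf β) (∏ j, monomial (Finsupp.single j (x j))
        (((α j).choose (x j) : ℂ) * q j ^ (α j - x j)) : MvPolynomial ν ℂ) =
      if x = β then tcr q α β else 0 := by
    intro x _
    rw [← monomial_sum_prod, coeff_monomial]
    have h4 : (∑ j, Finsupp.single j (x j)) = SpX.sf x := by
      unfold SpX.sf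
      rw [Finsupp.equivFunOnFinite_symm_eq_sum]
    rw [h4]
    by_cases hx : x = β
    · subst hx
      simp [tcr]
    · rw [if_neg, if_neg hx]
      intro h5
      exact hx (SpX.sf_inj.1 h5)
  rw [sum_congr rfl h2, sum_ite_eq']
  split_ifs with h
  · rfl
  · rw [Fintype.mem_piFinset] at h
    push Not at h
    obtain ⟨j, hj⟩ := h
    rw [mem_range] at hj
    symm
    unfold tcr
    apply prod_eq_zero (mem_univ j)
    rw [Nat.choose_eq_zero_of_lt (by omega)]
    simp

/-- The polynomial of a coefficient vector. -/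
private noncomputable def SpX.P {A : Finset (ν → ℕ)} (f : {a // a ∈ A} → ℂ) :
    MvPolynomial ν ℂ := ∑ α : {a // a ∈ A}, monomial (SpX.sf α.1) (f α)

private lemma SpX.coeff_P {A : Finset (ν → ℕ)} (f : {a // a ∈ A} → ℂ)
    (α : {a // a ∈ A}) : coeff (SpX.sf α.1) (SpX.P f) = f α := by
  classical
  unfold SpX.P
  rw [coeff_sum]
  simp only [coeff_monomial, SpX.sf_inj, Subtype.coe_inj]
  simp

private lemma SpX.coeff_P_zero {A : Finset (ν → ℕ)} (f : {a // a ∈ A} → ℂ)
    (α : ν → ℕ) (hα : α ∉ A) : coeff (SpX.sf α) (SpX.P f) = 0 := by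
  classical
  unfold SpX.P
  rw [coeff_sum]
  refine sum_eq_zero fun β _ => ?_
  rw [coeff_monomial, if_neg]
  intro h
  rw [SpX.sf_inj] at h
  exact hα (h ▸ β.2)

/-- The shift. -/
private noncomputable def SpX.sh (q : ν → ℂ) (F : MvPolynomial ν ℂ) : MvPolynomial ν ℂ :=
  aeval (fun i => X i + C (q i)) F

private lemma SpX.shift_P {A : Finset (ν → ℕ)} (q : ν → ℂ) (f : {a // a ∈ A} → ℂ)
    (β : ν → ℕ) :
    coeff (SpX.sf β) (SpX.sh q (SpX.P f)) = ∑ α : {a // a ∈ A}, f α * tcr q α.1 β := by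
  unfold SpX.P SpX.sh
  rw [map_sum, coeff_sum]
  refine sum_congr rfl fun α _ => ?_
  rw [SpX.shift_monomial]

/-- The linear substitution. -/
private noncomputable def SpX.g (A : Matrix ν ν ℂ) (s : ν) : MvPolynomial ν ℂ :=
  ∑ t, C (A s t) * X t

/-- The matrices which preserve the subspaces `L_i`, `i < l`. -/
private def SpX.Ad {R : Type} [Zero R] (β : ν → ℕ) (l : ℕ) (A : Matrix ν ν R) : Prop :=
  ∀ s t, β s < l → β t ≠ β s → A s t = 0

private lemma SpX.key {β : ν → ℕ} {l : ℕ} {A : Matrix ν ν ℂ} (hA : SpX.Ad β l A) (a b : ν → ℕ)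
    (c : ℂ) (h : ∑ s, b s ≠ ∑ s, a s ∨
      ∃ i < l, (∃ s, β s = i ∧ a s ≠ 0) ∧ ∀ s, β s = i → b s = 0) :
    coeff (SpX.sf b) (aeval (SpX.g A) (monomial (SpX.sf a) c)) = 0 := by
  classical
  rcases h with h | ⟨i, hi, ⟨s₀, hs0, ha⟩, hb⟩
  · have h1 : (monomial (SpX.sf a) c : MvPolynomial ν ℂ).IsHomogeneous (∑ s, a s) := by
      apply isHomogeneous_monomial
      rw [SpX.sf_degree]
    have h2 : ∀ s, (SpX.g A s).IsHomogeneous 1 := by
      intro s
      unfold SpX.g
      refine IsHomogeneous.sum _ _ _ fun t _ => ?_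
      simpa using (isHomogeneous_C ν (A s t)).mul (isHomogeneous_X ℂ t)
    have h3 := h1.aeval (SpX.g A) h2
    refine h3.coeff_eq_zero ?_
    rw [SpX.sf_degree, one_mul]
    exact h
  · by_contra hne
    have h1 : aeval (SpX.g A) (monomial (SpX.sf a) c) ∈
        Ideal.span ((X : ν → MvPolynomial ν ℂ) '' {t | β t = i}) := by
      rw [aeval_monomial, Finsupp.prod_fintype _ _ (by intro i; simp),
        ← mul_prod_erase univ _ (mem_univ s₀)]
      refine Ideal.mul_mem_left _ _ (Ideal.mul_mem_right _ _ ?_)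
      rw [SpX.sf_coe]
      refine Ideal.pow_mem_of_mem _ ?_ _ (Nat.pos_of_ne_zero ha)
      unfold SpX.g
      refine Ideal.sum_mem _ fun t _ => ?_
      by_cases ht : β t = i
      · exact Ideal.mul_mem_left _ _ (Ideal.subset_span ⟨t, ht, rfl⟩)
      · rw [hA s₀ t (by omega) (by omega), C_0, zero_mul]
        exact Ideal.zero_mem _
    rw [mem_ideal_span_X_image] at h1
    obtain ⟨t, ht, ht0⟩ := h1 (SpX.sf b) (mem_support_iff.2 hne)
    exact ht0 (hb t ht)

private lemma SpX.pres {β : ν → ℕ} {l : ℕ} {A : Matrix ν ν ℂ} (hA : SpX.Ad β l A) (k : ℕ)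
    (I : Finset ℕ) (hI : ∀ i ∈ I, i < l) {H : MvPolynomial ν ℂ}
    (hH : ∀ b : ν → ℕ, ∑ s, b s = k → (∀ s, β s ∈ I → b s = 0) → coeff (SpX.sf b) H = 0)
    (b : ν → ℕ) (hb : ∑ s, b s = k) (hb' : ∀ s, β s ∈ I → b s = 0) :
    coeff (SpX.sf b) (aeval (SpX.g A) H) = 0 := by
  classical
  rw [H.as_sum, map_sum, coeff_sum]
  refine sum_eq_zero fun α hα => ?_
  rw [← SpX.sf_eta α]
  by_cases h1 : ∑ s, α s = k
  · by_cases h2 : ∀ s, β s ∈ I → α s = 0
    · have h3 := hH ⇑α h1 h2
      rw [SpX.sf_eta] at h3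
      exact absurd h3 (mem_support_iff.1 hα)
    · push Not at h2
      obtain ⟨s, hs, hs0⟩ := h2
      refine SpX.key hA _ _ _ (Or.inr ⟨β s, hI _ hs, ⟨s, rfl, hs0⟩, fun t ht => ?_⟩)
      exact hb' t (by rw [ht]; exact hs)
  · refine SpX.key hA _ _ _ (Or.inl ?_)
    rw [hb]
    exact Ne.symm h1

private lemma SpX.shift_comm (A : Matrix ν ν ℂ) (q : ν → ℂ) (F : MvPolynomial ν ℂ) :
    SpX.sh q (aeval (SpX.g A) F) = aeval (SpX.g A) (SpX.sh (A.mulVec q) F) := by
  unfold SpX.sh
  have h : (aeval (fun j => X j + C (q j)) :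
      MvPolynomial ν ℂ →ₐ[ℂ] MvPolynomial ν ℂ).comp (aeval (SpX.g A)) =
      (aeval (SpX.g A)).comp (aeval (fun j => X j + C (A.mulVec q j))) := by
    apply algHom_ext
    intro i
    simp only [SpX.g, AlgHom.comp_apply, aeval_X, map_sum, map_mul, aeval_C,
      algebraMap_eq, map_add, mul_add, sum_add_distrib, Matrix.mulVec, dotProduct]
  exact DFunLike.congr_fun h F

/-- The coefficients of the transformed polynomial. -/
private noncomputable def SpX.T {E : Finset (ν → ℕ)} (A : Matrix ν ν ℂ) (f : {a // a ∈ E} → ℂ) :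
    {a // a ∈ E} → ℂ :=
  fun α => coeff (SpX.sf α.1) (aeval (SpX.g A) (SpX.P f))

private lemma SpX.P_T {β : ν → ℕ} {l d : ℕ} {A : Matrix ν ν ℂ} (hA : SpX.Ad β l A)
    (f : {a // a ∈ Ex β d l} → ℂ) : SpX.P (SpX.T A f) = aeval (SpX.g A) (SpX.P f) := by
  classical
  ext γ
  rw [← SpX.sf_eta γ]
  by_cases hγ : ⇑γ ∈ Ex β d l
  · exact SpX.coeff_P (SpX.T A f) ⟨⇑γ, hγ⟩
  · rw [SpX.coeff_P_zero _ _ hγ]
    symm
    unfold SpX.P
    rw [map_sum, coeff_sum]
    refine sum_eq_zero fun α _ => SpX.key hA _ _ _ ?_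
    have h1 := mem_Ex.1 α.2
    by_cases h2 : ∑ s, γ s = d
    · right
      rw [mem_Ex] at hγ
      push Not at hγ
      obtain ⟨i, hi, h3⟩ := hγ h2
      exact ⟨i, hi, h1.2 i hi, h3⟩
    · left
      rw [h1.1]
      exact h2

private lemma SpX.tcr_sm (l : ℂ) (q : ν → ℂ) (e b : ν → ℕ) :
    tcr (fun i => l * q i) e b = l ^ (∑ i, e i - ∑ i, b i) * tcr q e b := by
  by_cases h : ∀ i, b i ≤ e i
  · exact tcr_smul l q e b h
  · rw [tcr_eq_zero _ _ _ h, tcr_eq_zero _ _ _ h, mul_zero]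

private lemma SpX.fat {β : ν → ℕ} {l d μ : ℕ} {A : Matrix ν ν ℂ} (hA : SpX.Ad β l A)
    (f : {a // a ∈ Ex β d l} → ℂ) (q q' : ν → ℂ) (u : ℂ) (hq : A.mulVec q' = fun s => u * q s)
    (h : Fat (fun e : {a // a ∈ Ex β d l} => e.1) μ q f) :
    Fat (fun e : {a // a ∈ Ex β d l} => e.1) μ q' (SpX.T A f) := by
  intro b hb
  rw [← SpX.shift_P, SpX.P_T hA, SpX.shift_comm, hq]
  refine SpX.pres hA (∑ s, b s) ∅ (fun i hi => absurd hi (notMem_empty i)) ?_ b rfl
    (fun s hs => absurd hs (notMem_empty _))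
  intro b' hb' _
  rw [SpX.shift_P]
  have h1 : ∀ e : {a // a ∈ Ex β d l}, f e * tcr (fun s => u * q s) e.1 b' =
      u ^ (d - ∑ s, b s) * (f e * tcr q e.1 b') := by
    intro e
    rw [SpX.tcr_sm, (mem_Ex.1 e.2).1, hb']
    ring
  rw [sum_congr rfl fun e _ => h1 e, ← mul_sum, h b' (by omega), mul_zero]

/-- The homogeneous component of degree `M` of the Taylor expansion at `p`. -/
private noncomputable def SpX.H {E : Finset (ν → ℕ)} (N M : ℕ) (p : ν → ℂ)
    (f : {a // a ∈ E} → ℂ) : MvPolynomial ν ℂ :=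
  SpX.P (fun b : {b // b ∈ bxd ν N M} => ∑ e, f e * tcr p e.1 b.1)

private lemma SpX.mem_bxd {N M : ℕ} {b : ν → ℕ} (hN : M < N) : b ∈ bxd ν N M ↔ ∑ i, b i = M := by
  unfold bxd
  rw [mem_filter, mem_bx]
  refine ⟨fun h => h.2, fun h => ⟨fun i => ?_, h⟩⟩
  have := single_le_sum (f := b) (fun _ _ => Nat.zero_le _) (mem_univ i)
  omega

private lemma SpX.coeff_H {E : Finset (ν → ℕ)} {N M : ℕ} (hN : M < N) (p : ν → ℂ)
    (f : {a // a ∈ E} → ℂ) (b : ν → ℕ) : coeff (SpX.sf b) (SpX.H N M p f) =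
      if ∑ i, b i = M then ∑ e, f e * tcr p e.1 b else 0 := by
  unfold SpX.H
  split_ifs with h
  · exact SpX.coeff_P (fun b : {b // b ∈ bxd ν N M} => ∑ e, f e * tcr p e.1 b.1)
      ⟨b, (SpX.mem_bxd hN).2 h⟩
  · exact SpX.coeff_P_zero _ b fun h1 => h ((SpX.mem_bxd hN).1 h1)

private lemma SpX.sw_sum {E : Finset (ν → ℕ)} (N M : ℕ) (p v : ν → ℂ)
    (f : {a // a ∈ E} → ℂ) (a : ν → ℕ) :
    ∑ b ∈ bxd ν N M, tcr v b a * ∑ e, f e * tcr p e.1 b =
      coeff (SpX.sf a) (SpX.sh v (SpX.H N M p f)) := by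
  unfold SpX.H
  rw [SpX.shift_P, ← sum_coe_sort (bxd ν N M)]
  exact sum_congr rfl fun b _ => mul_comm _ _

private lemma SpX.H_T {β : ν → ℕ} {l d N M : ℕ} (hN : M < N) {A : Matrix ν ν ℂ}
    (hA : SpX.Ad β l A) (f : {a // a ∈ Ex β d l} → ℂ) (p p' : ν → ℂ) (u : ℂ)
    (hp : A.mulVec p' = fun s => u * p s) :
    SpX.H N M p' (SpX.T A f) = C (u ^ (d - M)) * aeval (SpX.g A) (SpX.H N M p f) := by
  classical
  ext γ
  rw [← SpX.sf_eta γ, SpX.coeff_H hN]
  split_ifs with h
  · rw [← SpX.shift_P, SpX.P_T hA, SpX.shift_comm, hp]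
    have h1 : coeff (SpX.sf ⇑γ) (aeval (SpX.g A) (SpX.sh (fun s => u * p s) (SpX.P f) -
        C (u ^ (d - M)) * SpX.H N M p f)) = 0 := by
      refine SpX.pres hA M ∅ (fun i hi => absurd hi (notMem_empty i)) ?_ _ h
        (fun s hs => absurd hs (notMem_empty _))
      intro b hb _
      rw [coeff_sub, SpX.shift_P, coeff_C_mul, SpX.coeff_H hN, if_pos hb, mul_sum,
        ← sum_sub_distrib]
      refine sum_eq_zero fun e _ => ?_
      rw [SpX.tcr_sm, (mem_Ex.1 e.2).1, hb]
      ring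
    rw [map_sub, map_mul, coeff_sub, sub_eq_zero] at h1
    rw [h1]
    simp
  · rw [coeff_C_mul]
    have h1 : coeff (SpX.sf ⇑γ) (aeval (SpX.g A) (SpX.H N M p f)) = 0 := by
      refine SpX.pres hA (∑ s, γ s) ∅ (fun i hi => absurd hi (notMem_empty i)) ?_ _ rfl
        (fun s hs => absurd hs (notMem_empty _))
      intro b hb _
      rw [SpX.coeff_H hN, if_neg (by rw [hb]; exact h)]
    rw [h1, mul_zero]

private lemma SpX.sw {β : ν → ℕ} {l d N M i : ℕ} (hi : i < l) (hN : M < N) {A : Matrix ν ν ℂ}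
    (hA : SpX.Ad β l A) (f : {a // a ∈ Ex β d l} → ℂ) (p p' v v' : ν → ℂ) (u : ℂ)
    (hp : A.mulVec p' = fun s => u * p s) (hv : A.mulVec v' = fun s => u * v s)
    (h : Sw (fun e : {a // a ∈ Ex β d l} => e.1) M N (univ.filter fun s => β s = i) p v f) :
    Sw (fun e : {a // a ∈ Ex β d l} => e.1) M N (univ.filter fun s => β s = i) p' v'
      (SpX.T A f) := by
  intro a ha ha1 haM
  rw [SpX.sw_sum, SpX.H_T hN hA f p p' u hp]
  have h0 : SpX.sh v' (C (u ^ (d - M)) * aeval (SpX.g A) (SpX.H N M p f)) =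
      C (u ^ (d - M)) * aeval (SpX.g A) (SpX.sh (fun s => u * v s) (SpX.H N M p f)) := by
    rw [← hv, ← SpX.shift_comm]
    unfold SpX.sh
    rw [map_mul]
    congr 1
    simp
  rw [h0, coeff_C_mul]
  have h1 : coeff (SpX.sf a) (aeval (SpX.g A) (SpX.sh (fun s => u * v s) (SpX.H N M p f))) = 0 := by
    refine SpX.pres hA (∑ s, a s) {i} (fun j hj => by rw [mem_singleton.1 hj]; exact hi) ?_ a rfl
      (fun s hs => ha s (by rw [mem_filter]; exact ⟨mem_univ s, mem_singleton.1 hs⟩))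
    intro b hb hb'
    rw [← SpX.sw_sum]
    have h2 := h b (fun s hs => hb' s (by rw [mem_filter] at hs; exact mem_singleton.2 hs.2))
      (by omega) (by omega)
    have h3 : ∀ x ∈ bxd ν N M, tcr (fun s => u * v s) x b * ∑ e, f e * tcr p e.1 x =
        u ^ (M - ∑ s, b s) * (tcr v x b * ∑ e, f e * tcr p e.1 x) := by
      intro x hx
      rw [SpX.tcr_sm, (SpX.mem_bxd hN).1 hx]
      ring
    rw [sum_congr rfl h3, ← mul_sum, h2, mul_zero]
  rw [h1, mul_zero]

/-! ### The transformed positions -/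

/-- The transformed position. -/
private noncomputable def SpX.tr {R : Type} [CommRing R] (β : ν → ℕ) (A : Matrix ν ν R)
    (I : Finset ℕ) (q : ν → R) : ν → R :=
  fun s => if β s ∈ I then q s else A.adjugate.mulVec (msk β I q) s

private lemma SpX.tr_one {β : ν → ℕ} (I : Finset ℕ) (q : ν → ℂ) :
    SpX.tr β (1 : Matrix ν ν ℂ) I q = q := by
  funext s
  unfold SpX.tr
  split_ifs with h
  · rfl
  · rw [Matrix.adjugate_one, Matrix.one_mulVec]
    unfold msk
    rw [if_neg h]

private lemma SpX.mul_tr {β : ν → ℕ} {l : ℕ} {A : Matrix ν ν ℂ} (hA : SpX.Ad β l A)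
    (hdet : A.det ≠ 0) (I : Finset ℕ) (hI : ∀ i ∈ I, i < l) (q : ν → ℂ) :
    A.mulVec (msk β I (SpX.tr β A I q)) = fun s => A.det * msk β I q s := by
  classical
  -- the subspace of the vectors which vanish on the blocks of `I`
  let W : Submodule ℂ (ν → ℂ) :=
    { carrier := {x | ∀ s, β s ∈ I → x s = 0}
      zero_mem' := fun s _ => rfl
      add_mem' := fun {a b} ha hb s hs => by rw [Pi.add_apply, ha s hs, hb s hs, add_zero]
      smul_mem' := fun c x hx s hs => by rw [Pi.smul_apply, hx s hs, smul_zero] }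
  have hW : ∀ x ∈ W, A.mulVec x ∈ W := by
    intro x hx s hs
    unfold Matrix.mulVec dotProduct
    refine sum_eq_zero fun t _ => ?_
    by_cases ht : β t = β s
    · rw [hx t (by rw [ht]; exact hs), mul_zero]
    · show A s t * x t = 0
      rw [hA s t (hI _ hs) ht, zero_mul]
  have hinj : Function.Injective A.mulVec := by
    intro x y hxy
    have h1 := congrArg A.adjugate.mulVec hxy
    rw [Matrix.mulVec_mulVec, Matrix.mulVec_mulVec, Matrix.adjugate_mul, Matrix.smul_mulVec,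
      Matrix.smul_mulVec, Matrix.one_mulVec, Matrix.one_mulVec] at h1
    exact smul_right_injective _ hdet h1
  let L : W →ₗ[ℂ] W := (A.mulVecLin).restrict hW
  have hL : Function.Injective L := by
    intro x y hxy
    apply Subtype.ext
    apply hinj
    exact congrArg Subtype.val hxy
  have hsurj : Function.Surjective L := LinearMap.injective_iff_surjective.1 hL
  have hm : msk β I q ∈ W := fun s hs => by
    unfold msk
    rw [if_pos hs]
  obtain ⟨y, hy⟩ := hsurj (A.det • (⟨msk β I q, hm⟩ : W))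
  have hy1 : A.mulVec y.1 = A.det • msk β I q := congrArg Subtype.val hy
  have hy2 : A.adjugate.mulVec (msk β I q) = y.1 := by
    apply hinj
    rw [hy1, Matrix.mulVec_mulVec, Matrix.mul_adjugate, Matrix.smul_mulVec, Matrix.one_mulVec]
  have h3 : msk β I (SpX.tr β A I q) = y.1 := by
    funext s
    unfold msk
    split_ifs with hs
    · exact (y.2 s hs).symm
    · show SpX.tr β A I q s = _
      unfold SpX.tr
      rw [if_neg hs, hy2]
  rw [h3, hy1]
  rfl

/-- The blocks on which the position of the point vanishes. -/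
private def SpX.I1 : Kd → Finset ℕ
  | .ord _ I => I
  | .sw i I => insert i I

/-- The blocks on which the direction vanishes. -/
private def SpX.I2 : Kd → Finset ℕ
  | .ord _ I => I
  | .sw _ I => I

/-- The transformed positions. -/
private noncomputable def SpX.np {R : Type} [CommRing R] (β : ν → ℕ) (A : Matrix ν ν R) (k : Kd)
    (q : ν ⊕ ν → R) : ν ⊕ ν → R :=
  Sum.elim (SpX.tr β A (SpX.I1 k) fun s => q (Sum.inl s))
    (SpX.tr β A (SpX.I2 k) fun s => q (Sum.inr s))

private lemma SpX.np_one {β : ν → ℕ} (k : Kd) (q : ν ⊕ ν → ℂ) :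
    SpX.np β (1 : Matrix ν ν ℂ) k q = q := by
  funext s
  unfold SpX.np
  rw [SpX.tr_one, SpX.tr_one]
  rcases s with s | s <;> rfl

private lemma SpX.satK {M l : ℕ} {β : ν → ℕ} {A : Matrix ν ν ℂ} (hA : SpX.Ad β l A)
    (hdet : A.det ≠ 0) (k : Kd) (hk : k.Ok M l) (q : ν ⊕ ν → ℂ)
    (f : {a // a ∈ Ex β (2 * M - 1) l} → ℂ) (h : SatK M β k q f) :
    SatK M β k (SpX.np β A k q) (SpX.T A f) := by
  rcases k with ⟨μ, I⟩ | ⟨i, I⟩
  · have hI : ∀ i ∈ I, i < l := fun i hi => mem_range.1 (hk.2.2 hi)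
    exact SpX.fat hA f _ _ A.det (SpX.mul_tr hA hdet I hI _) h
  · obtain ⟨hi, hk2⟩ := hk
    have hI : ∀ j ∈ I, j < l := fun j hj => (mem_Ico.1 (hk2 hj)).2
    have hI' : ∀ j ∈ insert i I, j < l := fun j hj => by
      rcases mem_insert.1 hj with h | h
      · rw [h]
        exact hi
      · exact hI j h
    refine ⟨SpX.fat hA f _ _ A.det (SpX.mul_tr hA hdet (insert i I) hI' _) h.1, ?_⟩
    by_cases hM : M = 0
    · intro a _ h1 h2
      omega
    · exact SpX.sw hi (by omega) hA f _ _ _ _ A.det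
        (SpX.mul_tr hA hdet (insert i I) hI' _) (SpX.mul_tr hA hdet I hI _) h.2

private lemma SpX.mem {M l : ℕ} {β : ν → ℕ} {κ : Type} (m : κ → Kd) (hm : ∀ x, (m x).Ok M l)
    {A : Matrix ν ν ℂ} (hA : SpX.Ad β l A) (hdet : A.det ≠ 0) (p : κ → ν ⊕ ν → ℂ)
    (f : {a // a ∈ Ex β (2 * M - 1) l} → ℂ) (hf : f ∈ (LS M β l).V m p) :
    SpX.T A f ∈ (LS M β l).V m fun x => SpX.np β A (m x) (p x) := by
  rw [mem_LSA] at hf ⊢
  exact fun x => SpX.satK hA hdet (m x) (hm x) (p x) f (hf x)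

/-! ### The parameters -/

/-- The matrix of the parameters. -/
private def SpX.mk {R : Type} [Zero R] (β : ν → ℕ) (l : ℕ) (t : ν × ν → R) : Matrix ν ν R :=
  Matrix.of fun r s => if β r < l ∧ β s ≠ β r then 0 else t (r, s)

private lemma SpX.mk_ad {R : Type} [Zero R] (β : ν → ℕ) (l : ℕ) (t : ν × ν → R) :
    SpX.Ad β l (SpX.mk β l t) := by
  intro r s h1 h2
  unfold SpX.mk
  rw [Matrix.of_apply, if_pos ⟨h1, h2⟩]

private lemma SpX.mk_self {R : Type} [Zero R] {β : ν → ℕ} {l : ℕ} {A : Matrix ν ν R}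
    (hA : SpX.Ad β l A) : SpX.mk β l (fun x => A x.1 x.2) = A := by
  ext r s
  unfold SpX.mk
  rw [Matrix.of_apply]
  split_ifs with h
  · exact (hA r s h.1 h.2).symm
  · rfl

private lemma SpX.one_ad (β : ν → ℕ) (l : ℕ) : SpX.Ad β l (1 : Matrix ν ν ℂ) := by
  intro r s _ h2
  rw [Matrix.one_apply, if_neg]
  rintro rfl
  exact h2 rfl

/-- The generic matrix. -/
private noncomputable def SpX.gm (β : ν → ℕ) (l : ℕ) : Matrix ν ν (MvPolynomial (ν × ν) ℂ) :=
  SpX.mk β l X

private lemma SpX.gm_map (β : ν → ℕ) (l : ℕ) (t : ν × ν → ℂ) :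
    (eval t).mapMatrix (SpX.gm β l) = SpX.mk β l t := by
  ext r s
  unfold SpX.gm SpX.mk
  rw [RingHom.mapMatrix_apply, Matrix.map_apply, Matrix.of_apply, Matrix.of_apply]
  split_ifs
  · rw [map_zero]
  · rw [eval_X]

private lemma SpX.eval_det (β : ν → ℕ) (l : ℕ) (t : ν × ν → ℂ) :
    eval t (SpX.gm β l).det = (SpX.mk β l t).det := by
  rw [RingHom.map_det, SpX.gm_map]

private lemma SpX.eval_tr (β : ν → ℕ) (l : ℕ) (t : ν × ν → ℂ) (I : Finset ℕ) (q : ν → ℂ)
    (s : ν) : eval t (SpX.tr β (SpX.gm β l) I (fun s => C (q s)) s) =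
      SpX.tr β (SpX.mk β l t) I q s := by
  unfold SpX.tr
  split_ifs
  · rw [eval_C]
  · unfold Matrix.mulVec dotProduct
    rw [map_sum]
    refine sum_congr rfl fun k _ => ?_
    rw [map_mul]
    congr 1
    · have h3 := RingHom.map_adjugate (eval t) (SpX.gm β l)
      rw [SpX.gm_map] at h3
      rw [← h3]
      rfl
    · unfold msk
      split_ifs
      · rw [map_zero]
      · rw [eval_C]

private lemma SpX.eval_np (β : ν → ℕ) (l : ℕ) (t : ν × ν → ℂ) (k : Kd) (q : ν ⊕ ν → ℂ)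
    (s : ν ⊕ ν) : eval t (SpX.np β (SpX.gm β l) k (fun s => C (q s)) s) =
      SpX.np β (SpX.mk β l t) k q s := by
  unfold SpX.np
  rcases s with s | s
  · exact SpX.eval_tr β l t _ _ s
  · exact SpX.eval_tr β l t _ _ s

private lemma SpX.exists_D {β : ν → ℕ} {l : ℕ} {κ : Type} (m : κ → Kd)
    (G : MvPolynomial (κ × (ν ⊕ ν)) ℂ) (p : κ → ν ⊕ ν → ℂ) :
    ∃ D : MvPolynomial (ν × ν) ℂ, ∀ t, eval t D =
      eval (fun x : κ × (ν ⊕ ν) => SpX.np β (SpX.mk β l t) (m x.1) (p x.1) x.2) G := by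
  refine ⟨aeval (fun x : κ × (ν ⊕ ν) =>
    SpX.np β (SpX.gm β l) (m x.1) (fun s => C (p x.1 s)) x.2) G, fun t => ?_⟩
  have h : ∀ F : MvPolynomial (κ × (ν ⊕ ν)) ℂ, eval t (aeval (fun x : κ × (ν ⊕ ν) =>
      SpX.np β (SpX.gm β l) (m x.1) (fun s => C (p x.1 s)) x.2) F) =
      eval (fun x : κ × (ν ⊕ ν) => SpX.np β (SpX.mk β l t) (m x.1) (p x.1) x.2) F := by
    intro F
    induction F using MvPolynomial.induction_on with
    | C c => simp
    | add p q hp hq => rw [map_add, map_add, map_add, hp, hq]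
    | mul_X p i hp => rw [map_mul, map_mul, map_mul, hp, aeval_X, eval_X, SpX.eval_np]
  exact h G

/-- The generic substitution. -/
private noncomputable def SpX.gF (β : ν → ℕ) (l : ℕ) : MvPolynomial ν ℂ →+*
    MvPolynomial ν (MvPolynomial (ν × ν) ℂ) :=
  eval₂Hom (C.comp C) fun s => ∑ t, C (SpX.gm β l s t) * X t

private lemma SpX.map_gF (β : ν → ℕ) (l : ℕ) (t : ν × ν → ℂ) (F : MvPolynomial ν ℂ) :
    MvPolynomial.map (eval t) (SpX.gF β l F) = aeval (SpX.g (SpX.mk β l t)) F := by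
  have h : (MvPolynomial.map (eval t)).comp (SpX.gF β l) =
      (aeval (SpX.g (SpX.mk β l t)) : MvPolynomial ν ℂ →ₐ[ℂ] MvPolynomial ν ℂ).toRingHom := by
    apply ringHom_ext
    · intro c
      simp [SpX.gF]
    · intro s
      have h2 : ∀ r, eval t (SpX.gm β l s r) = SpX.mk β l t s r := by
        intro r
        rw [← SpX.gm_map]
        rfl
      simp [SpX.gF, SpX.g, h2]
  exact DFunLike.congr_fun h F

private lemma SpX.functional {E : Finset (ν → ℕ)} (φ : ({a // a ∈ E} → ℂ) →ₗ[ℂ] ℂ)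
    (f : {a // a ∈ E} → ℂ) :
    φ f = ∑ α, φ (Pi.single α 1) * f α := by
  classical
  rw [LinearMap.pi_apply_eq_sum_univ φ f]
  refine sum_congr rfl fun α _ => ?_
  rw [smul_eq_mul, mul_comm]
  congr 2
  funext β
  by_cases h : α = β
  · subst h; simp
  · rw [if_neg h, Pi.single_eq_of_ne (Ne.symm h)]

private lemma SpX.functional_poly (β : ν → ℕ) (l : ℕ) {E : Finset (ν → ℕ)}
    (φ : ({a // a ∈ E} → ℂ) →ₗ[ℂ] ℂ) (f : {a // a ∈ E} → ℂ) :
    ∃ Q : MvPolynomial (ν × ν) ℂ, ∀ t, eval t Q = φ (SpX.T (SpX.mk β l t) f) := by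
  classical
  refine ⟨∑ α : {a // a ∈ E},
    C (φ (Pi.single α 1)) * coeff (SpX.sf α.1) (SpX.gF β l (SpX.P f)), fun t => ?_⟩
  rw [SpX.functional, map_sum]
  refine sum_congr rfl fun α _ => ?_
  rw [map_mul, eval_C]
  congr 1
  unfold SpX.T
  rw [← SpX.map_gF, coeff_map]

/-- Step 1: `φ` vanishes on all transformed solutions. -/
private lemma SpX.all {M l : ℕ} {β : ν → ℕ} {κ : Type} (m : κ → Kd) (hm : ∀ x, (m x).Ok M l)
    (φ : ({a // a ∈ Ex β (2 * M - 1) l} → ℂ) →ₗ[ℂ] ℂ) (G : MvPolynomial (κ × (ν ⊕ ν)) ℂ)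
    (hG : ∀ p : κ → ν ⊕ ν → ℂ, eval (fun x => p x.1 x.2) G ≠ 0 →
      (LS M β l).V m p ≤ LinearMap.ker φ)
    (p₀ : κ → ν ⊕ ν → ℂ) (hp₀ : eval (fun x => p₀ x.1 x.2) G ≠ 0)
    (f : {a // a ∈ Ex β (2 * M - 1) l} → ℂ) (hf : f ∈ (LS M β l).V m p₀)
    (A : Matrix ν ν ℂ) (hA : SpX.Ad β l A) : φ (SpX.T A f) = 0 := by
  classical
  obtain ⟨Q, hQ⟩ := SpX.functional_poly β l φ f
  obtain ⟨D, hD⟩ := SpX.exists_D (β := β) (l := l) m G p₀
  have hQD : Q * ((SpX.gm β l).det * D) = 0 := by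
    apply MvPolynomial.funext
    intro t
    rw [map_mul, map_mul, map_zero, SpX.eval_det, hQ, hD]
    by_cases hdet : (SpX.mk β l t).det = 0
    · rw [hdet, zero_mul, mul_zero]
    by_cases hGA : eval (fun x : κ × (ν ⊕ ν) =>
        SpX.np β (SpX.mk β l t) (m x.1) (p₀ x.1) x.2) G = 0
    · rw [hGA, mul_zero, mul_zero]
    have h1 : φ (SpX.T (SpX.mk β l t) f) = 0 :=
      hG (fun x => SpX.np β (SpX.mk β l t) (m x) (p₀ x)) hGA
        (SpX.mem m hm (SpX.mk_ad β l t) hdet p₀ f hf)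
    rw [h1, zero_mul]
  have h1 : SpX.mk β l (fun x : ν × ν => (1 : Matrix ν ν ℂ) x.1 x.2) = 1 :=
    SpX.mk_self (SpX.one_ad β l)
  have hdet0 : (SpX.gm β l).det ≠ 0 := by
    intro h0
    have h2 := SpX.eval_det β l (fun x : ν × ν => (1 : Matrix ν ν ℂ) x.1 x.2)
    rw [h0, map_zero, h1, Matrix.det_one] at h2
    exact zero_ne_one h2
  have hD0 : D ≠ 0 := by
    intro h0
    have h2 := hD (fun x : ν × ν => (1 : Matrix ν ν ℂ) x.1 x.2)
    rw [h0, map_zero, h1] at h2
    apply hp₀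
    rw [h2]
    simp only [SpX.np_one]
  have hQ0 : Q = 0 := (mul_eq_zero.1 hQD).resolve_right (mul_ne_zero hdet0 hD0)
  have h2 := hQ (fun x => A x.1 x.2)
  rw [hQ0, map_zero, SpX.mk_self hA] at h2
  exact h2.symm

/-! ### Rank one -/

/-- The matrix of rank one on every block. -/
private def SpX.rk (β : ν → ℕ) (l : ℕ) (c v w : ν → ℂ) : Matrix ν ν ℂ :=
  Matrix.of fun s t => if β s < l then (if β t = β s then c s * v t else 0) else c s * w t

private lemma SpX.rk_ad (β : ν → ℕ) (l : ℕ) (c v w : ν → ℂ) : SpX.Ad β l (SpX.rk β l c v w) := by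
  intro s t h1 h2
  unfold SpX.rk
  rw [Matrix.of_apply, if_pos h1, if_neg h2]

/-- The linear form of the variable `s`. -/
private noncomputable def SpX.lam (β : ν → ℕ) (l : ℕ) (v w : ν → ℂ) (s : ν) : MvPolynomial ν ℂ :=
  if β s < l then ∑ t, (if β t = β s then C (v t) * X t else 0) else ∑ t, C (w t) * X t

private lemma SpX.g_rk (β : ν → ℕ) (l : ℕ) (c v w : ν → ℂ) (s : ν) :
    SpX.g (SpX.rk β l c v w) s = C (c s) * SpX.lam β l v w s := by
  unfold SpX.g SpX.lam SpX.rk
  split_ifs with h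
  · rw [mul_sum]
    refine sum_congr rfl fun t _ => ?_
    rw [Matrix.of_apply, if_pos h]
    split_ifs
    · rw [C_mul, mul_assoc]
    · rw [C_0, zero_mul, mul_zero]
  · rw [mul_sum]
    refine sum_congr rfl fun t _ => ?_
    rw [Matrix.of_apply, if_neg h, C_mul, mul_assoc]

/-- Step 2: the coefficients in `c`. -/
private lemma SpX.coef {d l : ℕ} {β : ν → ℕ} (φ : ({a // a ∈ Ex β d l} → ℂ) →ₗ[ℂ] ℂ)
    (f : {a // a ∈ Ex β d l} → ℂ)
    (h : ∀ A : Matrix ν ν ℂ, SpX.Ad β l A → φ (SpX.T A f) = 0)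
    (v w : ν → ℂ) (a : {a // a ∈ Ex β d l}) :
    f a * φ (fun e => coeff (SpX.sf e.1) (∏ s, SpX.lam β l v w s ^ a.1 s)) = 0 := by
  classical
  -- the polynomial in `c`
  have h1 : ∀ c : ν → ℂ, φ (SpX.T (SpX.rk β l c v w) f) = ∑ a : {a // a ∈ Ex β d l},
      (f a * φ (fun e => coeff (SpX.sf e.1) (∏ s, SpX.lam β l v w s ^ a.1 s))) *
        ∏ s, c s ^ a.1 s := by
    intro c
    have h2 : SpX.T (SpX.rk β l c v w) f = ∑ a : {a // a ∈ Ex β d l},
        (f a * ∏ s, c s ^ a.1 s) •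
          (fun e : {a // a ∈ Ex β d l} =>
            coeff (SpX.sf e.1) (∏ s, SpX.lam β l v w s ^ a.1 s)) := by
      funext e
      rw [Finset.sum_apply]
      unfold SpX.T SpX.P
      rw [map_sum, coeff_sum]
      refine sum_congr rfl fun a _ => ?_
      rw [Pi.smul_apply, smul_eq_mul, aeval_monomial, Finsupp.prod_fintype _ _ (by intro i; simp),
        algebraMap_eq, SpX.sf_coe]
      simp_rw [SpX.g_rk, mul_pow]
      rw [prod_mul_distrib, ← mul_assoc]
      have h3 : (∏ s, (C (c s) : MvPolynomial ν ℂ) ^ a.1 s) = C (∏ s, c s ^ a.1 s) := by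
        rw [map_prod]
        simp only [C_pow]
      rw [h3, ← C_mul, coeff_C_mul]
    rw [h2, map_sum]
    refine sum_congr rfl fun a _ => ?_
    rw [map_smul, smul_eq_mul]
    ring
  have h2 : SpX.P (fun a : {a // a ∈ Ex β d l} =>
      f a * φ (fun e => coeff (SpX.sf e.1) (∏ s, SpX.lam β l v w s ^ a.1 s))) = 0 := by
    apply MvPolynomial.funext
    intro c
    rw [map_zero, ← h _ (SpX.rk_ad β l c v w), h1 c]
    unfold SpX.P
    rw [map_sum]
    refine sum_congr rfl fun a _ => ?_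
    rw [eval_monomial, Finsupp.prod_fintype _ _ (by intro i; simp), SpX.sf_coe]
  rw [← SpX.coeff_P (fun a : {a // a ∈ Ex β d l} =>
      f a * φ (fun e => coeff (SpX.sf e.1) (∏ s, SpX.lam β l v w s ^ a.1 s))) a, h2, coeff_zero]

/-- The exponent of one variable in every block `< l`. -/
private def SpX.dl (l : ℕ) (σ : ℕ → ν) (t : ν) : ℕ := ∑ i ∈ range l, if σ i = t then 1 else 0

private lemma SpX.sf_dl (l : ℕ) (σ : ℕ → ν) :
    ∏ i ∈ range l, (X (σ i) : MvPolynomial ν ℂ) = monomial (SpX.sf (SpX.dl l σ)) 1 := by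
  classical
  have h1 : SpX.sf (SpX.dl l σ) = ∑ i ∈ range l, Finsupp.single (σ i) 1 := by
    ext t
    rw [SpX.sf_coe, Finsupp.finset_sum_apply]
    unfold SpX.dl
    refine sum_congr rfl fun i _ => ?_
    rw [Finsupp.single_apply]
  rw [h1]
  have h2 := monomial_sum_prod (R := ℂ) (range l) (fun i => Finsupp.single (σ i) 1)
    (fun _ => (1 : ℂ))
  rw [prod_const_one] at h2
  rw [h2]
  rfl

private lemma SpX.prod_lam {d l : ℕ} {β : ν → ℕ} {a : ν → ℕ} (ha : a ∈ Ex β d l)
    (htop : d ≤ (∑ s ∈ univ.filter (fun s => l ≤ β s), a s) + l) (σ : ℕ → ν)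
    (hσ : ∀ i < l, β (σ i) = i) (w : ν → ℂ) :
    ∏ s, SpX.lam β l (fun t => if σ (β t) = t then 1 else 0) w s ^ a s =
      monomial (SpX.sf (SpX.dl l σ)) 1 * (∑ t, C (w t) * X t) ^ (d - l) := by
  classical
  obtain ⟨h1, h2⟩ := mem_Ex.1 ha
  -- the degrees on the blocks
  have h3 : ∀ i < l, 1 ≤ ∑ s ∈ univ.filter (fun s => β s = i), a s := by
    intro i hi
    obtain ⟨s, hs, hs0⟩ := h2 i hi
    refine (Nat.pos_of_ne_zero hs0).trans_le ?_
    exact single_le_sum (f := a) (fun _ _ => Nat.zero_le _) (by rw [mem_filter]; exact ⟨mem_univ s, hs⟩)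
  have h4 : ∑ i ∈ range l, ∑ s ∈ univ.filter (fun s => β s = i), a s =
      ∑ s ∈ univ.filter (fun s => β s < l), a s := by
    rw [← sum_fiberwise_of_maps_to (s := univ.filter (fun s => β s < l)) (t := range l)
      (g := β) (fun s hs => by rw [mem_filter] at hs; exact mem_range.2 hs.2)]
    refine sum_congr rfl fun i hi => ?_
    refine sum_congr ?_ fun _ _ => rfl
    ext s
    simp only [mem_filter, mem_univ, true_and]
    constructor
    · intro h
      exact ⟨by rw [h]; exact mem_range.1 hi, h⟩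
    · exact fun h => h.2
  have h5 : ∑ s ∈ univ.filter (fun s => β s < l), a s +
      ∑ s ∈ univ.filter (fun s => l ≤ β s), a s = d := by
    rw [← h1, ← sum_filter_add_sum_filter_not univ (fun s => β s < l)]
    congr 1
    refine sum_congr ?_ fun _ _ => rfl
    ext s
    simp only [mem_filter, mem_univ, true_and, not_lt]
  have h6 : l ≤ ∑ s ∈ univ.filter (fun s => β s < l), a s := by
    rw [← h4]
    calc l = ∑ i ∈ range l, 1 := by simp
      _ ≤ _ := sum_le_sum fun i hi => h3 i (mem_range.1 hi)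
  have h7 : ∑ s ∈ univ.filter (fun s => β s < l), a s = l := by omega
  have h8 : ∑ s ∈ univ.filter (fun s => l ≤ β s), a s = d - l := by omega
  have h9 : ∀ i ∈ range l, ∑ s ∈ univ.filter (fun s => β s = i), a s = 1 := by
    intro i hi
    have h10 : ∑ i ∈ range l, (1 : ℕ) =
        ∑ i ∈ range l, ∑ s ∈ univ.filter (fun s => β s = i), a s := by
      rw [h4, h7]
      simp
    exact ((sum_eq_sum_iff_of_le fun i hi => h3 i (mem_range.1 hi)).1 h10 i hi).symm
  rw [← prod_filter_mul_prod_filter_not univ (fun s => β s < l)]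
  congr 1
  · rw [← SpX.sf_dl, ← prod_fiberwise_of_maps_to (s := univ.filter (fun s => β s < l))
      (t := range l) (g := β) (fun s hs => by rw [mem_filter] at hs; exact mem_range.2 hs.2)]
    refine prod_congr rfl fun i hi => ?_
    have h11 : ∀ s ∈ (univ.filter (fun s => β s < l)).filter (fun s => β s = i),
        SpX.lam β l (fun t => if σ (β t) = t then 1 else 0) w s ^ a s = X (σ i) ^ a s := by
      intro s hs
      rw [mem_filter] at hs
      congr 1
      have hsl : β s < l := by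
        rw [hs.2]
        exact mem_range.1 hi
      unfold SpX.lam
      rw [if_pos hsl, sum_eq_single (σ i)]
      · have e1 : β (σ i) = β s := by rw [hσ i (mem_range.1 hi), hs.2]
        have e2 : σ (β (σ i)) = σ i := by rw [hσ i (mem_range.1 hi)]
        rw [if_pos e1]
        show C (if σ (β (σ i)) = σ i then (1 : ℂ) else 0) * X (σ i) = X (σ i)
        rw [if_pos e2, C_1, one_mul]
      · intro t _ ht
        by_cases h12 : β t = β s
        · rw [if_pos h12]
          show C (if σ (β t) = t then (1 : ℂ) else 0) * X t = 0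
          rw [if_neg, C_0, zero_mul]
          intro h13
          apply ht
          rw [← h13, h12, hs.2]
        · rw [if_neg h12]
      · intro h
        exact absurd (mem_univ _) h
    rw [prod_congr rfl h11, prod_pow_eq_pow_sum]
    have h12 : (univ.filter (fun s => β s < l)).filter (fun s => β s = i) =
        univ.filter (fun s => β s = i) := by
      ext s
      simp only [mem_filter, mem_univ, true_and]
      constructor
      · exact fun h => h.2
      · intro h
        exact ⟨by rw [h]; exact mem_range.1 hi, h⟩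
    rw [h12, h9 i hi, pow_one]
  · have h11 : ∀ s ∈ univ.filter (fun s => ¬ β s < l),
        SpX.lam β l (fun t => if σ (β t) = t then 1 else 0) w s ^ a s =
          (∑ t, C (w t) * X t) ^ a s := by
      intro s hs
      rw [mem_filter] at hs
      unfold SpX.lam
      rw [if_neg hs.2]
    rw [prod_congr rfl h11, prod_pow_eq_pow_sum]
    congr 1
    rw [← h8]
    refine sum_congr ?_ fun _ _ => rfl
    ext s
    simp only [mem_filter, mem_univ, true_and, not_lt]

private lemma SpX.dl_sum (l : ℕ) (σ : ℕ → ν) : ∑ t, SpX.dl l σ t = l := by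
  unfold SpX.dl
  rw [sum_comm]
  simp

private lemma SpX.dl_mem {d l : ℕ} {β : ν → ℕ} (hl : l ≤ d) (σ : ℕ → ν)
    (hσ : ∀ i < l, β (σ i) = i) {b : ν → ℕ} (hb : ∑ s, b s = d - l) :
    (fun t => SpX.dl l σ t + b t) ∈ Ex β d l := by
  rw [mem_Ex]
  constructor
  · rw [sum_add_distrib, SpX.dl_sum, hb]
    omega
  · intro i hi
    refine ⟨σ i, hσ i hi, ?_⟩
    have h1 : 1 ≤ SpX.dl l σ (σ i) := by
      unfold SpX.dl
      have h2 := single_le_sum (f := fun j => if σ j = σ i then 1 else 0)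
        (fun _ _ => Nat.zero_le _) (mem_range.2 hi)
      simpa using h2
    omega

/-- Step 3: the coefficients in `w`. -/
private lemma SpX.fin {d l : ℕ} {β : ν → ℕ} (hl : l ≤ d)
    (φ : ({a // a ∈ Ex β d l} → ℂ) →ₗ[ℂ] ℂ) (σ : ℕ → ν) (hσ : ∀ i < l, β (σ i) = i)
    (h : ∀ w : ν → ℂ, φ (fun e => coeff (SpX.sf e.1)
      (monomial (SpX.sf (SpX.dl l σ)) 1 * (∑ t, C (w t) * X t) ^ (d - l))) = 0)
    (b : ν → ℕ) (hb : ∑ s, b s = d - l) :
    φ (Pi.single ⟨fun t => SpX.dl l σ t + b t, SpX.dl_mem hl σ hσ hb⟩ 1) = 0 := by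
  classical
  let B : Finset (ν → ℕ) := piAntidiag univ (d - l)
  have hB : ∀ b : {b // b ∈ B}, ∑ s, b.1 s = d - l := fun b => (mem_piAntidiag.1 b.2).1
  let c : {b // b ∈ B} → ℂ := fun b =>
    ((Nat.multinomial univ b.1 : ℕ) : ℂ) *
      φ (Pi.single ⟨fun t => SpX.dl l σ t + b.1 t, SpX.dl_mem hl σ hσ (hB b)⟩ 1)
  have h1 : SpX.P c = 0 := by
    apply MvPolynomial.funext
    intro w
    rw [map_zero, ← h w]
    have h2 : (fun e : {a // a ∈ Ex β d l} => coeff (SpX.sf e.1)
        (monomial (SpX.sf (SpX.dl l σ)) 1 * (∑ t, C (w t) * X t) ^ (d - l) :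
          MvPolynomial ν ℂ)) = ∑ b : {b // b ∈ B},
        (((Nat.multinomial univ b.1 : ℕ) : ℂ) * ∏ s, w s ^ b.1 s) •
          (Pi.single ⟨fun t => SpX.dl l σ t + b.1 t, SpX.dl_mem hl σ hσ (hB b)⟩ 1 :
            {a // a ∈ Ex β d l} → ℂ) := by
      funext e
      rw [Finset.sum_apply, sum_pow_eq_sum_piAntidiag, mul_sum, coeff_sum]
      rw [← sum_coe_sort (piAntidiag (univ : Finset ν) (d - l))]
      refine sum_congr rfl fun b _ => ?_
      have h3 : (monomial (SpX.sf (SpX.dl l σ)) 1 * ((Nat.multinomial univ b.1 : MvPolynomial ν ℂ) *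
          ∏ s, (C (w s) * X s) ^ b.1 s) : MvPolynomial ν ℂ) =
          monomial (SpX.sf fun t => SpX.dl l σ t + b.1 t)
            (((Nat.multinomial univ b.1 : ℕ) : ℂ) * ∏ s, w s ^ b.1 s) := by
        have h4 : SpX.sf (fun t => SpX.dl l σ t + b.1 t) =
            SpX.sf (SpX.dl l σ) + SpX.sf b.1 := by
          ext t
          rfl
        have h5 : (∏ s, (C (w s) * X s) ^ b.1 s : MvPolynomial ν ℂ) =
            monomial (SpX.sf b.1) (∏ s, w s ^ b.1 s) := by
          rw [monomial_eq, Finsupp.prod_fintype _ _ (by intro i; simp), SpX.sf_coe]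
          simp only [mul_pow, prod_mul_distrib, map_prod, C_pow]
        rw [h4, h5, ← C_eq_coe_nat, C_mul_monomial, monomial_mul, one_mul]
      rw [h3, coeff_monomial, Pi.smul_apply, smul_eq_mul]
      by_cases h6 : (fun t => SpX.dl l σ t + b.1 t) = e.1
      · rw [if_pos (by rw [h6])]
        have h7 : (⟨fun t => SpX.dl l σ t + b.1 t, SpX.dl_mem hl σ hσ (hB b)⟩ :
            {a // a ∈ Ex β d l}) = e := Subtype.ext h6
        rw [h7, Pi.single_eq_same, mul_one]
      · rw [if_neg (fun h8 => h6 (SpX.sf_inj.1 h8)), Pi.single_eq_of_ne, mul_zero]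
        intro h8
        exact h6 (congrArg Subtype.val h8).symm
    rw [h2, map_sum]
    unfold SpX.P
    rw [map_sum]
    refine sum_congr rfl fun b _ => ?_
    rw [map_smul, smul_eq_mul, eval_monomial, Finsupp.prod_fintype _ _ (by intro i; simp),
      SpX.sf_coe]
    show ((Nat.multinomial univ b.1 : ℕ) : ℂ) * _ * _ = _
    ring
  have hbB : b ∈ B := mem_piAntidiag.2 ⟨hb, fun i _ => mem_univ i⟩
  have h2 := SpX.coeff_P c ⟨b, hbB⟩
  rw [h1, coeff_zero] at h2
  have h6 : ((Nat.multinomial univ b : ℕ) : ℂ) ≠ 0 := by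
    rw [Nat.cast_ne_zero]
    exact (Nat.multinomial_pos _ _).ne'
  exact (mul_eq_zero.1 h2.symm).resolve_left h6

/-- The number of exponents of the level `l` whose degree in the variables of the blocks `≥ l` is
less than `2 M - 1 - l`. -/
def dzb (M : ℕ) (β : ν → ℕ) (l : ℕ) : ℕ :=
  ((Ex β (2 * M - 1) l).filter fun a =>
    (∑ s ∈ univ.filter (fun s => l ≤ β s), a s) + l < 2 * M - 1).card

/-- The span property of the level `l`, for the kinds of this level. -/
theorem span_LS (M : ℕ) (β : ν → ℕ) (l : ℕ) {κ : Type} [Fintype κ] (m : κ → Kd)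
    (hm : ∀ x, (m x).Ok M l) (φ : ({a // a ∈ Ex β (2 * M - 1) l} → ℂ) →ₗ[ℂ] ℂ) (hφ : φ ≠ 0)
    (hgn : Gn κ (ν ⊕ ν) fun p => (LS M β l).V m p ≤ LinearMap.ker φ) :
    (LS M β l).gd m ≤ dzb M β l := by
  classical
  obtain ⟨G, hG0, hG⟩ := hgn
  obtain ⟨t, ht⟩ : ∃ t, eval t G ≠ 0 := by
    by_contra hcon
    push Not at hcon
    exact hG0 (MvPolynomial.funext fun t => by rw [hcon t, map_zero])
  let p₀ : κ → ν ⊕ ν → ℂ := fun i k => t (i, k)
  have hp₀ : eval (fun x : κ × (ν ⊕ ν) => p₀ x.1 x.2) G ≠ 0 := ht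
  -- the top coefficients of the solutions vanish
  have hf : ∀ f ∈ (LS M β l).V m p₀, ∀ a : {a // a ∈ Ex β (2 * M - 1) l},
      2 * M - 1 ≤ (∑ s ∈ univ.filter (fun s => l ≤ β s), a.1 s) + l → f a = 0 := by
    intro f hf a ha
    by_contra hfa
    apply hφ
    have h1 := SpX.all m hm φ G hG p₀ hp₀ f hf
    have hl : l ≤ 2 * M - 1 := by
      obtain ⟨h2, h3⟩ := mem_Ex.1 a.2
      have h4 : ∀ i ∈ range l, 1 ≤ ∑ s ∈ univ.filter (fun s => β s = i), a.1 s := by
        intro i hi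
        obtain ⟨s, hs, hs0⟩ := h3 i (mem_range.1 hi)
        refine (Nat.pos_of_ne_zero hs0).trans_le ?_
        exact single_le_sum (f := a.1) (fun _ _ => Nat.zero_le _)
          (by rw [mem_filter]; exact ⟨mem_univ s, hs⟩)
      calc l = ∑ i ∈ range l, 1 := by simp
        _ ≤ ∑ i ∈ range l, ∑ s ∈ univ.filter (fun s => β s = i), a.1 s := sum_le_sum h4
        _ = ∑ s ∈ univ.filter (fun s => β s < l), a.1 s := by
            rw [← sum_fiberwise_of_maps_to (s := univ.filter (fun s => β s < l)) (t := range l)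
              (g := β) (fun s hs => by rw [mem_filter] at hs; exact mem_range.2 hs.2)]
            refine sum_congr rfl fun i hi => ?_
            refine sum_congr ?_ fun _ _ => rfl
            ext s
            simp only [mem_filter, mem_univ, true_and]
            constructor
            · intro h
              exact ⟨by rw [h]; exact mem_range.1 hi, h⟩
            · exact fun h => h.2
        _ ≤ ∑ s, a.1 s := sum_le_sum_of_subset (filter_subset _ _)
        _ = 2 * M - 1 := h2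
    ext e
    obtain ⟨h2, h3⟩ := mem_Ex.1 e.2
    rcases isEmpty_or_nonempty ν with hemp | ⟨⟨s₀⟩⟩
    · have h4 : ∀ x y : {a // a ∈ Ex β (2 * M - 1) l}, x = y := fun x y =>
        Subtype.ext (funext fun s => hemp.elim s)
      have h5 : f = f a • (Pi.single a 1 : {a // a ∈ Ex β (2 * M - 1) l} → ℂ) := by
        funext x
        rw [h4 x a, Pi.smul_apply, Pi.single_eq_same, smul_eq_mul, mul_one]
      have h6 : φ f = 0 := hG p₀ hp₀ hf
      rw [h5, map_smul, smul_eq_mul] at h6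
      have h7 := (mul_eq_zero.1 h6).resolve_left hfa
      rw [h4 e a]
      simpa using h7
    let σ : ℕ → ν := fun i => if h : i < l then (h3 i h).choose else s₀
    have hσ : ∀ i < l, β (σ i) = i := by
      intro i hi
      simp only [σ, dif_pos hi]
      exact (h3 i hi).choose_spec.1
    have hσe : ∀ i < l, e.1 (σ i) ≠ 0 := by
      intro i hi
      simp only [σ, dif_pos hi]
      exact (h3 i hi).choose_spec.2
    have hle : ∀ t, SpX.dl l σ t ≤ e.1 t := by
      intro t
      unfold SpX.dl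
      by_cases h5 : ∃ i < l, σ i = t
      · obtain ⟨i, hi, h6⟩ := h5
        rw [sum_eq_single i]
        · rw [if_pos h6]
          have := hσe i hi
          rw [h6] at this
          omega
        · intro j hj hji
          rw [if_neg]
          intro h7
          apply hji
          rw [← hσ j (mem_range.1 hj), h7, ← h6, hσ i hi]
        · intro h7
          exact absurd (mem_range.2 hi) h7
      · rw [sum_eq_zero]
        · exact Nat.zero_le _
        · intro i hi
          rw [if_neg]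
          intro h6
          exact h5 ⟨i, mem_range.1 hi, h6⟩
    have hb : ∑ t, (e.1 t - SpX.dl l σ t) = 2 * M - 1 - l := by
      rw [sum_tsub_distrib _ fun t _ => hle t, h2, SpX.dl_sum]
    have h4 := SpX.fin hl φ σ hσ (by
      intro w
      have h5 := SpX.coef φ f h1 (fun t => if σ (β t) = t then 1 else 0) w a
      rw [SpX.prod_lam a.2 ha σ hσ w] at h5
      exact (mul_eq_zero.1 h5).resolve_left hfa) (fun t => e.1 t - SpX.dl l σ t) hb
    have h5 : (⟨fun t => SpX.dl l σ t + (e.1 t - SpX.dl l σ t), SpX.dl_mem hl σ hσ hb⟩ :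
        {a // a ∈ Ex β (2 * M - 1) l}) = e := by
      apply Subtype.ext
      funext t
      have := hle t
      show SpX.dl l σ t + (e.1 t - SpX.dl l σ t) = e.1 t
      omega
    rw [h5] at h4
    simpa using h4
  -- the dimension
  let D : Finset (ν → ℕ) := (Ex β (2 * M - 1) l).filter fun a =>
    (∑ s ∈ univ.filter (fun s => l ≤ β s), a s) + l < 2 * M - 1
  let L : (LS M β l).V m p₀ →ₗ[ℂ] ({a // a ∈ D} → ℂ) :=
    { toFun := fun f a => f.1 ⟨a.1, (mem_filter.1 a.2).1⟩
      map_add' := fun _ _ => rfl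
      map_smul' := fun _ _ => rfl }
  have hL : Function.Injective L := by
    rw [← LinearMap.ker_eq_bot, Submodule.eq_bot_iff]
    intro f hf0
    apply Subtype.ext
    funext a
    by_cases ha : (∑ s ∈ univ.filter (fun s => l ≤ β s), a.1 s) + l < 2 * M - 1
    · have h1 : L f = 0 := hf0
      exact congrFun h1 ⟨a.1, mem_filter.2 ⟨a.2, ha⟩⟩
    · exact hf f.1 f.2 a (not_lt.1 ha)
  have h1 := LinearMap.finrank_le_finrank_of_injective hL
  rw [Module.finrank_fintype_fun_eq_card, Fintype.card_coe] at h1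
  exact (gd_le (LS M β l) m p₀).trans h1

theorem spanP_LS (M : ℕ) (β : ν → ℕ) (l : ℕ) :
    SpanP (LS M β l) (fun k => k.Ok M l) (dzb M β l) :=
  fun _ _ m φ hm hφ h => span_LS M β l m hm φ hφ h

end

/-- The number of the exponents of the level `l` whose degree in the variables of the blocks `≥ l` is
less than `2 M - 1 - l`, for the canonical variables. -/
def dz (M c l n : ℕ) : ℕ :=
  ((Ex (blk c n) (2 * M - 1) l).filter fun a =>
    ∑ s ∈ univ.filter (fun s => l ≤ blk c n s), a s < 2 * M - 1 - l).card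

theorem dzb_blk (M c l n : ℕ) : dzb M (blk c n) l = dz M c l n := by
  unfold dzb dz
  congr 1
  refine filter_congr fun a _ => ?_
  omega

/-- The span property of the level `l`, for the canonical variables. -/
theorem spanP_blk (M c l n : ℕ) :
    SpanP (LS M (blk c n) l) (fun k => k.Ok M l) (dz M c l n) := by
  rw [← dzb_blk]
  exact spanP_LS M (blk c n) l

end Pool.Agent.V7
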