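import Pool.Agent.V7.AL.BaseAbs
import Pool.Agent.V7.AL.Span
import Pool.Agent.V7.AL.Size

/-!
# V7, block ALPHA, module Base: exactness on the levels up to `2 M - 2` with room

If the virtual dimension exceeds `dz + |kds| B²` (`B` a bound of the weights of the kinds which occur)
then the configuration is independent: every further point imposes `size = wt` conditions, by the
window lemma and the span property.
-/

set_option autoImplicit false

namespace Pool.Agent.V7

open Finset MvPolynomial Pool.Agent.H51.TB Pool.Agent.V7.ST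

/-- **Exactness with room** on the canonical variables. -/
theorem base_exact {M c l n : ℕ} (hM : 2 ≤ M) (hc : 1 ≤ c) (hn : (l + 1) * c ≤ n) (s : Multiset Kd)
    (hs : ∀ k ∈ s, k.Ok M l ∧ l ≤ dgr M k) (B : ℕ) (hB : ∀ k ∈ s, wt M c n k ≤ B)
    (hroom : ((dz M c l n + (kds M l).card * B * B : ℕ) : ℤ) < vd M c l n s) :
    (gM (LS M (blk c n) l) s : ℤ) ≤ vd M c l n s := by
  have hln : l * c < n := by nlinarith
  have hsz : ∀ k ∈ s, (LS M (blk c n) l).size k = wt M c n k := fun k hk =>
    le_antisymm (size_blk (by omega) (by omega) hln (hs k hk).1)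
      (wt_le_size_blk hM hc hln (hs k hk).1 (hs k hk).2)
  have hmap : s.map (LS M (blk c n) l).size = s.map (wt M c n) := Multiset.map_congr rfl hsz
  have hE : Fintype.card (Ex (blk c n) (2 * M - 1) l) = bb c (2 * M - 1) l n :=
    (Fintype.card_coe _).trans (card_Ex_blk (by omega) hln.le _)
  have hKc : s.toFinset.card ≤ (kds M l).card :=
    card_le_card fun k hk => mem_kds.2 (hs k (Multiset.mem_toFinset.1 hk)).1
  have hKB : s.toFinset.card * B * B ≤ (kds M l).card * B * B :=
    Nat.mul_le_mul_right _ (Nat.mul_le_mul_right _ hKc)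
  unfold vd at hroom ⊢
  have h := base_abs (LS M (blk c n) l) (spanP_blk M c l n) s.toFinset
    (fun k hk => (hs k (Multiset.mem_toFinset.1 hk)).1) B
    (fun k hk => by
      rw [hsz k (Multiset.mem_toFinset.1 hk)]
      exact hB k (Multiset.mem_toFinset.1 hk)) s (fun k hk => Multiset.mem_toFinset.2 hk)
    (by
      rw [hmap, hE]
      have h1 : ((dz M c l n + (kds M l).card * B * B + (s.map (wt M c n)).sum : ℕ) : ℤ) <
          (bb c (2 * M - 1) l n : ℕ) := by
        push_cast at hroom ⊢
        linarith
      have h2 : dz M c l n + (kds M l).card * B * B + (s.map (wt M c n)).sum <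
          bb c (2 * M - 1) l n := by exact_mod_cast h1
      omega)
  rw [hmap, hE] at h
  have h3 : ((gM (LS M (blk c n) l) s + (s.map (wt M c n)).sum : ℕ) : ℤ) =
      (bb c (2 * M - 1) l n : ℕ) := by exact_mod_cast h
  push_cast at h3 ⊢
  linarith

end Pool.Agent.V7
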