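import Pool.Agent.V7.AL.TDefs

/-!
# V7, the tensor lemma, one slot at a time

For an intersecting family of kinds `S` with weights `w S`, total weight `W`, the `w S c^|S| / W`
general pure tensors of every kind kill all tensors.  Proof: give the points whose kind contains a
slot a coordinate vector in this slot.  The coordinate `x` of the slot (a *line*) is pure of a kind
`T`: only points of kind `T ∪ {slot}` are put on it, and the slice is again an intersecting problem
with total weight `W`, the kind `T` has the weight `W₁` = sum of the weights of the kinds containing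
the slot.
-/

namespace Pool.Agent.V7

open Finset MvPolynomial Pool.Agent.H51.TB

section cut

variable {α : Type} [Fintype α] [DecidableEq α] {c : ℕ}

/-- adding a coordinate -/
def tensCons (x : Fin c) (u : α → Fin c) : Option α → Fin c := fun o => o.elim x u

theorem tens_sum (f : (Option α → Fin c) → ℂ) :
    ∑ e : Option α → Fin c, f e = ∑ x : Fin c, ∑ u : α → Fin c, f (tensCons x u) := by
  rw [← Fintype.sum_prod_type' (fun (x : Fin c) (u : α → Fin c) => f (tensCons x u))]
  refine Fintype.sum_equiv Equiv.piOptionEquivProd _ _ fun e => ?_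
  refine congrArg f (funext fun o => ?_)
  cases o <;> rfl

theorem tens_ctr_some (S : Finset α) (y : Option α × Fin c → ℂ) (F : (Option α → Fin c) → ℂ)
    (x : Fin c) (w : α → Fin c) : ctr (S.map Function.Embedding.some) y F (tensCons x w) =
      ctr S (fun z => y (some z.1, z.2)) (fun u => F (tensCons x u)) w := by
  unfold ctr
  rw [tens_sum, Finset.sum_eq_single x]
  · refine Finset.sum_congr rfl fun u _ => ?_
    have h : (∀ j, j ∉ S.map Function.Embedding.some → tensCons x u j = tensCons x w j) ↔
        ∀ a, a ∉ S → u a = w a := by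
      constructor
      · intro h a ha
        exact h (some a) fun h' => ha (by simpa using h')
      · intro h j hj
        cases j with
        | none => rfl
        | some a => exact h a fun h' => hj (by simpa using h')
    by_cases h' : ∀ a, a ∉ S → u a = w a
    · rw [if_pos h', if_pos (h.2 h'), Finset.prod_map]
      rfl
    · rw [if_neg h', if_neg fun h1 => h' (h.1 h1)]
  · intro x' _ hx'
    refine Finset.sum_eq_zero fun u _ => if_neg fun h => hx' ?_
    exact h none (by simp)
  · exact fun h => absurd (Finset.mem_univ x) h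

theorem tens_ctr_none (S : Finset α) (y : Option α × Fin c → ℂ) (F : (Option α → Fin c) → ℂ)
    (x : Fin c) (w : α → Fin c) : ctr (insertNone S) y F (tensCons x w) =
      ∑ x', y (none, x') * ctr S (fun z => y (some z.1, z.2)) (fun u => F (tensCons x' u)) w := by
  unfold ctr
  rw [tens_sum]
  refine Finset.sum_congr rfl fun x' _ => ?_
  rw [Finset.mul_sum]
  refine Finset.sum_congr rfl fun u _ => ?_
  have h : (∀ j, j ∉ insertNone S → tensCons x' u j = tensCons x w j) ↔
      ∀ a, a ∉ S → u a = w a := by
    constructor
    · intro h a ha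
      exact h (some a) fun h' => ha (some_mem_insertNone.1 h')
    · intro h j hj
      cases j with
      | none => exact absurd none_mem_insertNone hj
      | some a => exact h a fun h' => hj (some_mem_insertNone.2 h')
  by_cases h' : ∀ a, a ∉ S → u a = w a
  · rw [if_pos h', if_pos (h.2 h'), Finset.prod_insertNone, ← mul_assoc]
    rfl
  · rw [if_neg h', if_neg fun h1 => h' (h.1 h1), mul_zero]

omit [Fintype α] in
theorem tens_eq_map {S : Finset (Option α)} (h : none ∉ S) :
    S = (eraseNone S).map Function.Embedding.some := by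
  ext (_ | a)
  · simp [h]
  · simp

omit [Fintype α] in
theorem tens_eq_ins {S : Finset (Option α)} (h : none ∈ S) : S = insertNone (eraseNone S) := by
  ext (_ | a)
  · simp [h]
  · simp

/-- The slot step: if all slices are killed, everything is killed. -/
theorem tens_step {κ : Type} [Fintype κ] (m : κ → Finset (Option α)) (line : κ → Fin c)
    (h : ∀ x : Fin c, (TSys α c).gd (fun i : {i // none ∉ m i ∨ line i = x} =>
      eraseNone (m i.1)) = 0) : (TSys (Option α) c).gd m = 0 := by
  classical
  have h1 : ∀ x ∈ (Finset.univ : Finset (Fin c)), Gn κ (α × Fin c) fun p =>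
      Module.finrank ℂ ((TSys α c).V (fun i : {i // none ∉ m i ∨ line i = x} =>
        eraseNone (m i.1)) fun i => p i.1) = 0 := by
    intro x _
    have h2 := gn_gd (TSys α c) fun i : {i // none ∉ m i ∨ line i = x} => eraseNone (m i.1)
    have h3 := Gn.comap (κ := κ) (fun i : {i // none ∉ m i ∨ line i = x} => i.1)
      Subtype.val_injective h2
    refine h3.mono fun p hp => ?_
    rw [h x] at hp
    exact hp
  obtain ⟨p, hp⟩ := (Gn.all Finset.univ h1).exists
  let P : κ → Option α × Fin c → ℂ := fun i z =>
    match z.1 with
    | none => if z.2 = line i then 1 else 0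
    | some a => p i (a, z.2)
  have hV : (TSys (Option α) c).V m P = ⊥ := by
    rw [Submodule.eq_bot_iff]
    intro F hF
    rw [mem_TSys] at hF
    have h3 : ∀ x : Fin c, (fun u : α → Fin c => F (tensCons x u)) = 0 := by
      intro x
      have h4 : (TSys α c).V (fun i : {i // none ∉ m i ∨ line i = x} =>
          eraseNone (m i.1)) (fun i => p i.1) = ⊥ := Submodule.finrank_eq_zero.1 (hp x (mem_univ x))
      have h5 : (fun u : α → Fin c => F (tensCons x u)) ∈
          (TSys α c).V (fun i : {i // none ∉ m i ∨ line i = x} =>
            eraseNone (m i.1)) (fun i => p i.1) := by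
        rw [mem_TSys]
        rintro ⟨i, hi⟩ w
        by_cases hn : none ∈ m i
        · have hl : line i = x := hi.resolve_left fun h' => h' hn
          have h6 := hF i (tensCons x w)
          rw [tens_eq_ins hn, tens_ctr_none, Finset.sum_eq_single x] at h6
          · have e1 : P i (none, x) = 1 := if_pos hl.symm
            rw [e1, one_mul] at h6
            exact h6
          · intro x' _ hx'
            have e1 : P i (none, x') = 0 := if_neg fun h' => hx' (h'.trans hl)
            rw [e1, zero_mul]
          · exact fun h' => absurd (mem_univ x) h'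
        · have h6 := hF i (tensCons x w)
          rw [tens_eq_map hn, tens_ctr_some] at h6
          exact h6
      rw [h4, Submodule.mem_bot] at h5
      exact h5
    funext e
    have h7 := congrFun (h3 (e none)) fun a => e (some a)
    have h8 : tensCons (e none) (fun a => e (some a)) = e := by
      funext o
      cases o <;> rfl
    simp only [h8] at h7
    exact h7
  have h9 := gd_le (TSys (Option α) c) m P
  rw [hV, finrank_bot] at h9
  omega

/-- The distribution of the points on the lines. -/
theorem tens_lines {κ : Type} [Fintype κ] (m : κ → Finset (Option α)) (hc : 0 < c)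
    (L q : Finset α → ℕ) (hL : ∑ T, L T = c)
    (hcard : ∀ T, (univ.filter fun i => m i = insertNone T).card = L T * q T) :
    ∃ (τ : Fin c → Finset α) (line : κ → Fin c), (∀ x, L (τ x) ≠ 0) ∧
      (∀ i, none ∈ m i → m i = insertNone (τ (line i))) ∧
      ∀ x, (univ.filter fun i => none ∈ m i ∧ line i = x).card = q (τ x) := by
  classical
  have e1 : Fin c ≃ Σ T : Finset α, Fin (L T) := by
    refine Fintype.equivOfCardEq ?_
    rw [Fintype.card_sigma]
    simp only [Fintype.card_fin]
    exact hL.symm
  let τ : Fin c → Finset α := fun x => (e1 x).1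
  have hτ : ∀ T, Fintype.card {x // τ x = T} = L T := by
    intro T
    have h1 : {x // τ x = T} ≃ {z : Σ T : Finset α, Fin (L T) // z.1 = T} :=
      e1.subtypeEquiv fun x => Iff.rfl
    have h2 : {z : Σ T : Finset α, Fin (L T) // z.1 = T} ≃ Fin (L T) :=
      { toFun := fun z => Fin.cast (congrArg L z.2) z.1.2
        invFun := fun v => ⟨⟨T, v⟩, rfl⟩
        left_inv := by
          rintro ⟨⟨T', v⟩, h⟩
          cases h
          rfl
        right_inv := fun v => rfl }
    rw [Fintype.card_congr (h1.trans h2), Fintype.card_fin]
  have hE : ∀ T, Nonempty ({i // m i = insertNone T} ≃ {x // τ x = T} × Fin (q T)) := by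
    intro T
    refine ⟨Fintype.equivOfCardEq ?_⟩
    rw [Fintype.card_prod, hτ, Fintype.card_fin, ← hcard T, Fintype.card_subtype]
  have E : ∀ T, {i // m i = insertNone T} ≃ {x // τ x = T} × Fin (q T) := fun T =>
    Classical.choice (hE T)
  let line : κ → Fin c := fun i =>
    if h : none ∈ m i then ((E (eraseNone (m i)) ⟨i, tens_eq_ins h⟩).1).1 else ⟨0, hc⟩
  have hl : ∀ (T : Finset α) (i : κ) (h : m i = insertNone T), line i = ((E T ⟨i, h⟩).1).1 := by
    intro T i h
    have h1 : none ∈ m i := by
      rw [h]
      exact none_mem_insertNone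
    have h2 : T = eraseNone (m i) := by
      rw [h, eraseNone_insertNone]
    subst h2
    exact dif_pos h1
  refine ⟨τ, line, ?_, ?_, ?_⟩
  · intro x h
    have h1 : (e1 x).2.1 < L (τ x) := (e1 x).2.2
    omega
  · intro i hi
    have h1 := hl (eraseNone (m i)) i (tens_eq_ins hi)
    rw [h1, ((E (eraseNone (m i)) ⟨i, tens_eq_ins hi⟩).1).2]
    exact tens_eq_ins hi
  · intro x
    have h3 : Fintype.card (Fin (q (τ x))) = q (τ x) := Fintype.card_fin _
    rw [← h3, ← Finset.card_univ]
    symm
    refine Finset.card_bij (fun j _ => ((E (τ x)).symm (⟨x, rfl⟩, j)).1) ?_ ?_ ?_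
    · intro j _
      have h4 := ((E (τ x)).symm (⟨x, rfl⟩, j)).2
      rw [mem_filter]
      refine ⟨mem_univ _, ?_, ?_⟩
      · rw [h4]
        exact none_mem_insertNone
      · rw [hl (τ x) _ h4]
        have h5 : (⟨((E (τ x)).symm (⟨x, rfl⟩, j)).1, h4⟩ : {i // m i = insertNone (τ x)}) =
            (E (τ x)).symm (⟨x, rfl⟩, j) := rfl
        rw [h5, Equiv.apply_symm_apply]
    · intro j _ j' _ h
      have h4 := (E (τ x)).symm.injective (Subtype.ext h)
      exact (Prod.ext_iff.1 h4).2
    · intro i hi
      rw [mem_filter] at hi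
      obtain ⟨-, hi1, hi2⟩ := hi
      have h4 : m i = insertNone (τ x) := by
        have h5 := hl (eraseNone (m i)) i (tens_eq_ins hi1)
        have h6 := ((E (eraseNone (m i)) ⟨i, tens_eq_ins hi1⟩).1).2
        rw [← h5, hi2] at h6
        rw [h6]
        exact tens_eq_ins hi1
      refine ⟨(E (τ x) ⟨i, h4⟩).2, mem_univ _, ?_⟩
      have h7 : (E (τ x) ⟨i, h4⟩).1 = ⟨x, rfl⟩ := Subtype.ext ((hl _ _ h4).symm.trans hi2)
      have h8 : ((⟨x, rfl⟩ : {y // τ y = τ x}), (E (τ x) ⟨i, h4⟩).2) = E (τ x) ⟨i, h4⟩ := by
        rw [← h7]
      show ((E (τ x)).symm (⟨x, rfl⟩, (E (τ x) ⟨i, h4⟩).2)).1 = i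
      rw [h8, Equiv.symm_apply_apply]

theorem tens_sum_opt (f : Finset (Option α) → ℕ) : ∑ S, f S =
    ∑ T : Finset α, f (T.map Function.Embedding.some) + ∑ T : Finset α, f (insertNone T) := by
  classical
  rw [← Finset.sum_filter_add_sum_filter_not univ (fun S : Finset (Option α) => none ∉ S) f]
  congr 1
  · refine Finset.sum_nbij' (i := fun S => eraseNone S)
      (j := fun T => T.map Function.Embedding.some) ?_ ?_ ?_ ?_ ?_
    · intro S _
      exact mem_univ _
    · intro T _
      rw [mem_filter]
      exact ⟨mem_univ _, by simp⟩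
    · intro S hS
      exact (tens_eq_map (mem_filter.1 hS).2).symm
    · intro T _
      ext a
      simp
    · intro S hS
      show f S = f ((eraseNone S).map Function.Embedding.some)
      rw [← tens_eq_map (mem_filter.1 hS).2]
  · refine Finset.sum_nbij' (i := fun S => eraseNone S) (j := fun T => insertNone T) ?_ ?_ ?_ ?_ ?_
    · intro S _
      exact mem_univ _
    · intro T _
      rw [mem_filter]
      exact ⟨mem_univ _, by simp⟩
    · intro S hS
      have h := (mem_filter.1 hS).2
      rw [not_not] at h
      exact (tens_eq_ins h).symm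
    · intro T _
      exact eraseNone_insertNone T
    · intro S hS
      have h := (mem_filter.1 hS).2
      rw [not_not] at h
      show f S = f (insertNone (eraseNone S))
      rw [← tens_eq_ins h]

/-- The numbers of lines of every kind and of points on every line. -/
theorem tens_data {W : ℕ} (hW : 1 ≤ W) (hdiv : W.factorial ∣ c)
    (w : Finset (Option α) → ℕ) (hsum : ∑ S, w S = W) (hint : Inter w) (n : Finset α → ℕ)
    (hn : ∀ T, n T * W = w (insertNone T) * c ^ (T.card + 1)) :
    ∃ L q : Finset α → ℕ, ∑ T, L T = c ∧ (∀ T, n T = L T * q T) ∧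
      (∀ T, L T ≠ 0 → q T * W = (∑ T, w (insertNone T)) * c ^ T.card) ∧
      ∀ T, L T ≠ 0 → (∑ T, w (insertNone T)) ≠ 0 → w (insertNone T) ≠ 0 := by
  classical
  set W1 := ∑ T, w (insertNone T) with hW1
  rcases Nat.eq_zero_or_pos W1 with h0 | h0
  · have h1 : ∀ T, w (insertNone T) = 0 := fun T => by
      rw [hW1] at h0
      exact (Finset.sum_eq_zero_iff.1 h0) T (mem_univ T)
    refine ⟨fun T => if T = ∅ then c else 0, fun _ => 0, ?_, ?_, ?_, ?_⟩
    · simp
    · intro T
      have h2 := hn T
      rw [h1, zero_mul] at h2
      rw [mul_zero]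
      exact (Nat.mul_eq_zero.1 h2).resolve_right (by omega)
    · intro T _
      rw [h0, zero_mul, zero_mul]
    · intro T _ h
      exact absurd h0 h
  · have hle : W1 ≤ W := by
      rw [← hsum, tens_sum_opt]
      exact Nat.le_add_left _ _
    obtain ⟨c1, hc1⟩ : W1 ∣ c := (Nat.dvd_factorial h0 hle).trans hdiv
    have hdW : W ∣ c := (Nat.dvd_factorial hW le_rfl).trans hdiv
    have hq : ∀ T : Finset α, w (insertNone T) ≠ 0 →
        (W1 * c ^ T.card / W) * W = W1 * c ^ T.card := by
      intro T hT
      refine Nat.div_mul_cancel ?_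
      rcases T.eq_empty_or_nonempty with hT0 | hT0
      · subst hT0
        have h2 : ∑ T : Finset α, w (T.map Function.Embedding.some) = 0 := by
          refine Finset.sum_eq_zero fun T _ => ?_
          by_contra h3
          rcases hint _ _ h3 hT with h4 | h4
          · obtain ⟨o, ho⟩ := h4
            rw [mem_inter] at ho
            cases o with
            | none => simp at ho
            | some a => simp at ho
          · have h5 : (none : Option α) ∈ insertNone (∅ : Finset α) := none_mem_insertNone
            rw [h4.2] at h5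
            exact absurd h5 (Finset.notMem_empty _)
        have h3 : W1 = W := by
          have h4 := tens_sum_opt w
          rw [hsum, h2, zero_add] at h4
          exact h4.symm
        rw [h3]
        exact Dvd.intro _ rfl
      · refine Dvd.dvd.mul_left (hdW.trans (dvd_pow_self c ?_)) _
        exact (Finset.card_pos.2 hT0).ne'
    refine ⟨fun T => c1 * w (insertNone T), fun T => W1 * c ^ T.card / W, ?_, ?_, ?_, ?_⟩
    · rw [← Finset.mul_sum, ← hW1, hc1]
      ring
    · intro T
      by_cases hT : w (insertNone T) = 0
      · have h2 := hn T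
        rw [hT, zero_mul] at h2
        show n T = c1 * w (insertNone T) * _
        rw [hT, mul_zero, zero_mul]
        exact (Nat.mul_eq_zero.1 h2).resolve_right (by omega)
      · refine Nat.eq_of_mul_eq_mul_right (show 0 < W by omega) ?_
        show n T * W = c1 * w (insertNone T) * (W1 * c ^ T.card / W) * W
        rw [hn, mul_assoc (c1 * w (insertNone T)), hq T hT, pow_succ]
        conv_lhs => rw [hc1]
        rw [← hc1]
        conv_lhs =>
          rw [show w (insertNone T) * (c ^ T.card * c) = w (insertNone T) * c ^ T.card * c by ring]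
        nth_rewrite 2 [hc1]
        ring
    · intro T hT
      refine hq T fun h => hT ?_
      show c1 * w (insertNone T) = 0
      rw [h, mul_zero]
    · intro T hT _ h
      refine hT ?_
      show c1 * w (insertNone T) = 0
      rw [h, mul_zero]

end cut

/-- The statement of the lemma with numbers of points instead of index types. -/
def TKill (ι : Type) [Fintype ι] [DecidableEq ι] : Prop :=
  ∀ (c W : ℕ), 1 ≤ W → 1 ≤ c → W.factorial ∣ c → ∀ w : Finset ι → ℕ, ∑ S, w S = W → Inter w →
    ∀ (κ : Type) [Fintype κ] (m : κ → Finset ι),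
      (∀ S, (univ.filter fun i => m i = S).card * W = w S * c ^ S.card) → (TSys ι c).gd m = 0

theorem tens_option {α : Type} [Fintype α] [DecidableEq α] (h : TKill α) : TKill (Option α) := by
  intro c W hW hc hdiv w hsum hint κ _ m hm
  classical
  obtain ⟨L, q, hL, hLq, hq, hw⟩ := tens_data hW hdiv w hsum hint
    (fun T => (univ.filter fun i => m i = insertNone T).card)
    (fun T => by rw [hm, Finset.card_insertNone])
  obtain ⟨τ, line, hτ, hline, hcard⟩ := tens_lines m hc L q hL hLq
  set W1 := ∑ T, w (insertNone T) with hW1
  refine tens_step m line fun x => ?_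
  refine h c W hW hc hdiv
    (fun S => w (S.map Function.Embedding.some) + if S = τ x then W1 else 0) ?_ ?_ _ _ ?_
  · rw [Finset.sum_add_distrib, Finset.sum_ite_eq' univ (τ x) fun _ => W1, if_pos (mem_univ _),
      hW1, ← tens_sum_opt, hsum]
  · intro S S' hS hS'
    have k1 : ∀ A B : Finset α, w (A.map Function.Embedding.some) ≠ 0 →
        w (B.map Function.Embedding.some) ≠ 0 → (A ∩ B).Nonempty ∨ (A = ∅ ∧ B = ∅) := by
      intro A B hA hB
      rcases hint _ _ hA hB with h1 | h1
      · left
        rw [← Finset.map_inter, Finset.map_nonempty] at h1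
        exact h1
      · right
        rw [Finset.map_eq_empty, Finset.map_eq_empty] at h1
        exact h1
    have k2 : ∀ B : Finset α, W1 ≠ 0 → w (B.map Function.Embedding.some) ≠ 0 →
        (τ x ∩ B).Nonempty := by
      intro B h0 hB
      rcases hint _ _ (hw _ (hτ x) h0) hB with h1 | h1
      · obtain ⟨o, ho⟩ := h1
        rw [mem_inter] at ho
        cases o with
        | none => simp at ho
        | some a =>
          refine ⟨a, ?_⟩
          rw [mem_inter]
          simpa using ho
      · have h5 : (none : Option α) ∈ insertNone (τ x) := none_mem_insertNone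
        rw [h1.1] at h5
        exact absurd h5 (Finset.notMem_empty _)
    have k3 : ∀ A, (w (A.map Function.Embedding.some) + if A = τ x then W1 else 0) ≠ 0 →
        w (A.map Function.Embedding.some) ≠ 0 ∨ (A = τ x ∧ W1 ≠ 0) := by
      intro A hA
      by_cases h1 : A = τ x
      · rw [if_pos h1] at hA
        by_cases h2 : W1 = 0
        · left
          omega
        · right
          exact ⟨h1, h2⟩
      · rw [if_neg h1] at hA
        left
        omega
    rcases k3 S hS with h1 | h1 <;> rcases k3 S' hS' with h2 | h2
    · exact k1 _ _ h1 h2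
    · left
      rw [h2.1, Finset.inter_comm]
      exact k2 S h2.2 h1
    · left
      rw [h1.1]
      exact k2 S' h1.2 h2
    · rw [h1.1, h2.1]
      rcases (τ x).eq_empty_or_nonempty with h3 | h3
      · right
        exact ⟨h3, h3⟩
      · left
        rw [Finset.inter_self]
        exact h3
  · intro S
    have h1 : (univ.filter fun i : {i // none ∉ m i ∨ line i = x} => eraseNone (m i.1) = S).card =
        (univ.filter fun i => (none ∉ m i ∨ line i = x) ∧ eraseNone (m i) = S).card := by
      refine Finset.card_bij (fun i _ => i.1) ?_ ?_ ?_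
      · intro i hi
        rw [mem_filter] at hi ⊢
        exact ⟨mem_univ _, i.2, hi.2⟩
      · intro i _ j _ hij
        exact Subtype.ext hij
      · intro i hi
        rw [mem_filter] at hi
        exact ⟨⟨i, hi.2.1⟩, by rw [mem_filter]; exact ⟨mem_univ _, hi.2.2⟩, rfl⟩
    have h2 : (univ.filter fun i => (none ∉ m i ∨ line i = x) ∧ eraseNone (m i) = S) =
        (univ.filter fun i => m i = S.map Function.Embedding.some) ∪
          univ.filter fun i => none ∈ m i ∧ line i = x ∧ S = τ x := by
      ext i
      rw [mem_union, mem_filter, mem_filter, mem_filter]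
      constructor
      · rintro ⟨-, h3, h4⟩
        by_cases h5 : none ∈ m i
        · right
          have h6 := h3.resolve_left fun h => h h5
          refine ⟨mem_univ _, h5, h6, ?_⟩
          rw [← h4, hline i h5, h6, eraseNone_insertNone]
        · left
          refine ⟨mem_univ _, ?_⟩
          rw [← h4]
          exact tens_eq_map h5
      · rintro (⟨-, h3⟩ | ⟨-, h3, h4, h5⟩)
        · refine ⟨mem_univ _, Or.inl ?_, ?_⟩
          · rw [h3]
            simp
          · rw [h3]
            ext a
            simp
        · refine ⟨mem_univ _, Or.inr h4, ?_⟩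
          rw [hline i h3, h4, eraseNone_insertNone, h5]
    have h3 : Disjoint (univ.filter fun i => m i = S.map Function.Embedding.some)
        (univ.filter fun i => none ∈ m i ∧ line i = x ∧ S = τ x) := by
      rw [Finset.disjoint_left]
      intro i hi hi'
      rw [mem_filter] at hi hi'
      have h4 := hi'.2.1
      rw [hi.2] at h4
      simp at h4
    have h4 : (univ.filter fun i => none ∈ m i ∧ line i = x ∧ S = τ x).card =
        if S = τ x then q (τ x) else 0 := by
      split_ifs with hS
      · rw [← hcard x]
        congr 1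
        ext i
        rw [mem_filter, mem_filter]
        tauto
      · rw [Finset.card_eq_zero, Finset.filter_eq_empty_iff]
        intro i _ hi
        exact hS hi.2.2
    rw [h1, h2, Finset.card_union_of_disjoint h3, h4, add_mul, hm, Finset.card_map, add_mul (w _)]
    congr 1
    split_ifs with hS
    · rw [hq _ (hτ x), hS]
    · rw [zero_mul, zero_mul]

/-- A point of kind `∅` kills everything. -/
theorem tens_point {ι : Type} [Fintype ι] [DecidableEq ι] {c : ℕ} {κ : Type} (m : κ → Finset ι)
    (i : κ) (hi : m i = ∅) : (TSys ι c).gd m = 0 := by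
  have h : (TSys ι c).V m 0 = ⊥ := by
    rw [Submodule.eq_bot_iff]
    intro F hF
    rw [mem_TSys] at hF
    funext w
    have h1 := hF i w
    rw [hi] at h1
    unfold ctr at h1
    rw [Finset.sum_eq_single w] at h1
    · simpa using h1
    · intro e _ he
      refine if_neg fun h => he ?_
      funext j
      exact h j (Finset.notMem_empty j)
    · exact fun h => absurd (mem_univ w) h
  have h2 := gd_le (TSys ι c) m 0
  rw [h, finrank_bot] at h2
  omega

/-- Renaming of the slots. -/
theorem tens_equiv {ι ι' : Type} [Fintype ι] [DecidableEq ι] [Fintype ι'] [DecidableEq ι']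
    (e : ι ≃ ι') {c : ℕ} {κ : Type} (m : κ → Finset ι')
    (h : (TSys ι c).gd (fun i => (m i).map e.symm.toEmbedding) = 0) : (TSys ι' c).gd m = 0 := by
  obtain ⟨p, hp⟩ := gd_attained (TSys ι c) fun i => (m i).map e.symm.toEmbedding
  rw [h] at hp
  have h1 := Submodule.finrank_eq_zero.1 hp
  let p' : κ → ι' × Fin c → ℂ := fun i z => p i (e.symm z.1, z.2)
  have h2 : (TSys ι' c).V m p' = ⊥ := by
    rw [Submodule.eq_bot_iff]
    intro F hF
    rw [mem_TSys] at hF
    have h3 : (fun u : ι → Fin c => F fun j => u (e.symm j)) ∈
        (TSys ι c).V (fun i => (m i).map e.symm.toEmbedding) p := by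
      rw [mem_TSys]
      intro i w
      rw [← hF i fun j => w (e.symm j)]
      unfold ctr
      refine Fintype.sum_equiv (Equiv.arrowCongr e (Equiv.refl (Fin c))) _ _ fun u => ?_
      have h4 : (Equiv.arrowCongr e (Equiv.refl (Fin c))) u = fun j => u (e.symm j) := rfl
      rw [h4]
      have h5 : (∀ j, j ∉ (m i).map e.symm.toEmbedding → u j = w j) ↔
          ∀ j, j ∉ m i → u (e.symm j) = w (e.symm j) := by
        constructor
        · intro h6 j hj
          refine h6 _ fun h7 => hj ?_
          rw [Finset.mem_map_equiv] at h7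
          simpa using h7
        · intro h6 j hj
          have h7 := h6 (e j) fun h8 => hj (by
            rw [Finset.mem_map_equiv]
            simpa using h8)
          simpa using h7
      by_cases h6 : ∀ j, j ∉ m i → u (e.symm j) = w (e.symm j)
      · rw [if_pos h6, if_pos (h5.2 h6), Finset.prod_map]
        rfl
      · rw [if_neg h6, if_neg fun h7 => h6 (h5.1 h7)]
    rw [h1, Submodule.mem_bot] at h3
    funext u
    have h4 := congrFun h3 fun j => u (e j)
    simp only [Equiv.apply_symm_apply] at h4
    exact h4
  have h3 := gd_le (TSys ι' c) m p'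
  rw [h2, finrank_bot] at h3
  omega

theorem tens_all (ι : Type) [Fintype ι] : ∀ [DecidableEq ι], TKill ι := by
  refine Fintype.induction_empty_option (P := fun ι _ => ∀ [DecidableEq ι], TKill ι) ?_ ?_ ?_ ι
  · intro α β _ e h _
    classical
    let _ : Fintype α := Fintype.ofEquiv β e.symm
    intro c W hW hc hdiv w hsum hint κ _ m hm
    refine tens_equiv e m ?_
    refine h c W hW hc hdiv (fun S => w (S.map e.toEmbedding)) ?_ ?_ κ _ ?_
    · rw [← hsum]
      exact Fintype.sum_equiv e.finsetCongr _ _ fun S => rfl
    · intro S S' hS hS'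
      rcases hint _ _ hS hS' with h1 | h1
      · left
        rw [← Finset.map_inter, Finset.map_nonempty] at h1
        exact h1
      · right
        rw [Finset.map_eq_empty, Finset.map_eq_empty] at h1
        exact h1
    · intro S
      have h1 := hm (S.map e.toEmbedding)
      rw [Finset.card_map] at h1
      rw [← h1]
      congr 2
      ext i
      rw [mem_filter, mem_filter]
      have h2 : (m i).map e.symm.toEmbedding = S ↔ m i = S.map e.toEmbedding := by
        constructor
        · rintro rfl
          ext a
          simp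
        · intro h3
          rw [h3]
          ext a
          simp
      rw [h2]
  · intro _ c W hW hc hdiv w hsum hint κ _ m hm
    have h1 : ∑ S, w S = w ∅ := by
      refine Fintype.sum_eq_single _ fun S hS => absurd ?_ hS
      ext a
      exact a.elim
    have h2 := hm ∅
    rw [← h1, hsum, Finset.card_empty, pow_zero, mul_one] at h2
    have h3 : (univ.filter fun i => m i = ∅).card ≠ 0 := by
      intro h3
      rw [h3, zero_mul] at h2
      omega
    obtain ⟨i, hi⟩ := Finset.card_ne_zero.1 h3
    exact tens_point m i (mem_filter.1 hi).2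
  · intro α _ h _
    classical
    have h1 := tens_option (@h fun a b => Classical.propDecidable _)
    have h2 : ∀ D E : DecidableEq (Option α), @TKill (Option α) _ D → @TKill (Option α) _ E := by
      intro D E hD
      rw [Subsingleton.elim E D]
      exact hD
    exact h2 _ _ h1

section gen

variable {E ν T : Type} [Fintype E] (S : Sys E ν T) {κ : Type}

/-- Further points impose at most the sum of their sizes. -/
theorem tens_gd_le_add [Fintype κ] (m : κ → T) (κ' : Type) [Fintype κ'] : ∀ n : κ' → T,
    S.gd m ≤ S.gd (Sum.elim m n) + ∑ i, S.size (n i) := by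
  refine Fintype.induction_empty_option (P := fun κ' _ => ∀ n : κ' → T,
    S.gd m ≤ S.gd (Sum.elim m n) + ∑ i, S.size (n i)) ?_ ?_ ?_ κ'
  · intro α β _ e h n
    let _ : Fintype α := Fintype.ofEquiv β e.symm
    have h1 := h fun a => n (e a)
    have h2 : S.gd (Sum.elim m fun a => n (e a)) = S.gd (Sum.elim m n) := by
      rw [← gd_comp_equiv S (Equiv.sumCongr (Equiv.refl κ) e)]
      congr 1
      funext i
      rcases i with i | i <;> rfl
    have h3 : ∑ a, S.size (n (e a)) = ∑ b, S.size (n b) :=
      Equiv.sum_comp e fun b => S.size (n b)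
    rw [h2, h3] at h1
    exact h1
  · intro n
    have h2 : S.gd (Sum.elim m n) = S.gd m := by
      rw [← gd_comp_equiv S (Equiv.sumEmpty κ PEmpty)]
      congr 1
      funext i
      rcases i with i | i
      · rfl
      · exact i.elim
    rw [h2]
    exact Nat.le_add_right _ _
  · intro α _ h n
    have h1 := h fun a => n (some a)
    have h2 := gd_le_ad S (Sum.elim m fun a => n (some a)) (n none)
    have h3 : S.gd (ad (Sum.elim m fun a => n (some a)) (n none)) = S.gd (Sum.elim m n) := by
      rw [← gd_comp_equiv S ((Equiv.sumAssoc κ α Unit).trans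
        (Equiv.sumCongr (Equiv.refl κ) (Equiv.optionEquivSumPUnit α).symm))]
      congr 1
      funext i
      rcases i with (i | i) | i <;> rfl
    rw [Fintype.sum_option]
    omega

end gen

section main

variable {ι : Type} [Fintype ι] [DecidableEq ι] {c W : ℕ}

theorem tens_dvd (hW : 1 ≤ W) (hdiv : W.factorial ∣ c) (w : Finset ι → ℕ)
    (hsum : ∑ S, w S = W) (hint : Inter w) (S : Finset ι) : W ∣ w S * c ^ S.card := by
  rcases S.eq_empty_or_nonempty with hS | hS
  · subst hS
    by_cases h0 : w ∅ = 0
    · rw [h0, zero_mul]
      exact dvd_zero W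
    · have h1 : ∑ S, w S = w ∅ := by
        refine Finset.sum_eq_single_of_mem _ (mem_univ _) fun S _ hS => ?_
        by_contra h2
        rcases hint _ _ h0 h2 with h3 | h3
        · rw [Finset.empty_inter] at h3
          exact absurd h3 Finset.not_nonempty_empty
        · exact hS h3.2
      rw [← h1, hsum]
      exact Dvd.intro _ rfl
  · exact Dvd.dvd.mul_left (((Nat.dvd_factorial hW le_rfl).trans hdiv).trans
      (dvd_pow_self c (Finset.card_pos.2 hS).ne')) _

theorem tens_tcard (w : Finset ι → ℕ) (S : Finset ι) :
    (univ.filter fun x : TIdx ι c W w => x.1 = S).card = w S * c ^ S.card / W := by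
  classical
  rw [← Fintype.card_subtype]
  have h2 : {z : TIdx ι c W w // z.1 = S} ≃ Fin (w S * c ^ S.card / W) :=
    { toFun := fun z => Fin.cast (congrArg (fun S : Finset ι => w S * c ^ S.card / W) z.2) z.1.2
      invFun := fun v => ⟨⟨S, v⟩, rfl⟩
      left_inv := by
        rintro ⟨⟨T', v⟩, h⟩
        cases h
        rfl
      right_inv := fun v => rfl }
  rw [Fintype.card_congr h2, Fintype.card_fin]

theorem tens_kill (hW : 1 ≤ W) (hc : 1 ≤ c) (hdiv : W.factorial ∣ c) (w : Finset ι → ℕ)
    (hsum : ∑ S, w S = W) (hint : Inter w) :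
    (TSys ι c).gd (fun x : TIdx ι c W w => x.1) = 0 := by
  refine tens_all ι c W hW hc hdiv w hsum hint _ _ fun S => ?_
  rw [tens_tcard]
  exact Nat.div_mul_cancel (tens_dvd hW hdiv w hsum hint S)

/-- The number of conditions of a point. -/
theorem tens_size (hc : 1 ≤ c) (S : Finset ι) :
    (TSys ι c).size S ≤ c ^ (Fintype.card ι - S.card) := by
  classical
  obtain ⟨p, hp⟩ := gd_attained (TSys ι c) fun _ : Unit => S
  let ex : ({j // j ∉ S} → Fin c) → ι → Fin c := fun u j =>
    if h : j ∉ S then u ⟨j, h⟩ else ⟨0, hc⟩
  let Φ : ((ι → Fin c) → ℂ) →ₗ[ℂ] (({j // j ∉ S} → Fin c) → ℂ) :=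
    { toFun := fun F u => ctr S (p ()) F (ex u)
      map_add' := fun F G => by
        funext u
        unfold ctr
        rw [Pi.add_apply, ← Finset.sum_add_distrib]
        refine Finset.sum_congr rfl fun e _ => ?_
        split_ifs
        · rw [Pi.add_apply, mul_add]
        · rw [add_zero]
      map_smul' := fun a F => by
        funext u
        unfold ctr
        rw [RingHom.id_apply, Pi.smul_apply, smul_eq_mul, Finset.mul_sum]
        refine Finset.sum_congr rfl fun e _ => ?_
        split_ifs
        · rw [Pi.smul_apply, smul_eq_mul]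
          ring
        · rw [mul_zero] }
  have h1 : LinearMap.ker Φ ≤ (TSys ι c).V (fun _ : Unit => S) p := by
    intro F hF
    rw [mem_TSys]
    rintro ⟨⟩ w
    have h2 : ctr S (p ()) F (ex fun j => w j.1) = 0 :=
      congrFun (LinearMap.mem_ker.1 hF) fun j => w j.1
    rw [← h2]
    unfold ctr
    refine Finset.sum_congr rfl fun e _ => ?_
    have h3 : (∀ j, j ∉ S → e j = w j) ↔ ∀ j, j ∉ S → e j = ex (fun j => w j.1) j := by
      refine forall_congr' fun j => forall_congr' fun hj => ?_
      have h4 : ex (fun j => w j.1) j = w j := dif_pos hj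
      rw [h4]
    by_cases h4 : ∀ j, j ∉ S → e j = w j
    · rw [if_pos h4, if_pos (h3.1 h4)]
    · rw [if_neg h4, if_neg fun h5 => h4 (h3.2 h5)]
  have h2 := LinearMap.finrank_range_add_finrank_ker Φ
  have h3 := Submodule.finrank_le (LinearMap.range Φ)
  rw [Module.finrank_fintype_fun_eq_card] at h2 h3
  have h4 := Submodule.finrank_mono h1
  rw [hp] at h4
  have h5 : Fintype.card ({j // j ∉ S} → Fin c) = c ^ (Fintype.card ι - S.card) := by
    rw [Fintype.card_fun, Fintype.card_fin, Fintype.card_subtype_compl, Fintype.card_coe]
  unfold Sys.size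
  omega

theorem tens_sum_kinds {κ : Type} [Fintype κ] (m : κ → Finset ι) (g : Finset ι → ℕ) :
    ∑ i, g (m i) = ∑ S, (univ.filter fun i => m i = S).card * g S := by
  classical
  have h1 : ∀ i, g (m i) = ∑ S, if m i = S then g S else 0 := fun i => by
    rw [Finset.sum_ite_eq univ (m i) g, if_pos (mem_univ _)]
  rw [Finset.sum_congr rfl fun i _ => h1 i, Finset.sum_comm]
  refine Finset.sum_congr rfl fun S _ => ?_
  rw [← Finset.sum_filter, Finset.sum_const, smul_eq_mul]

/-- At most the given numbers of points impose independent conditions. -/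
theorem tens_indep (hW : 1 ≤ W) (hc : 1 ≤ c) (hdiv : W.factorial ∣ c) (w : Finset ι → ℕ)
    (hsum : ∑ S, w S = W) (hint : Inter w) {κ : Type} [Fintype κ] (m : κ → Finset ι)
    (hcnt : ∀ S, (univ.filter fun i => m i = S).card * W ≤ w S * c ^ S.card) :
    (TSys ι c).gd m + ∑ i, c ^ (Fintype.card ι - (m i).card) = c ^ Fintype.card ι := by
  classical
  let n : Finset ι → ℕ := fun S =>
    w S * c ^ S.card / W - (univ.filter fun i => m i = S).card
  have hn : ∀ S, (univ.filter fun i => m i = S).card + n S = w S * c ^ S.card / W := by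
    intro S
    have h1 := (Nat.le_div_iff_mul_le (show 0 < W by omega)).2 (hcnt S)
    show _ + (w S * c ^ S.card / W - _) = _
    omega
  have hf : ∀ S, (univ.filter fun x : (Σ S : Finset ι, Fin (n S)) => x.1 = S).card = n S := by
    intro S
    rw [← Fintype.card_subtype]
    have h2 : {z : (Σ S : Finset ι, Fin (n S)) // z.1 = S} ≃ Fin (n S) :=
      { toFun := fun z => Fin.cast (congrArg n z.2) z.1.2
        invFun := fun v => ⟨⟨S, v⟩, rfl⟩
        left_inv := by
          rintro ⟨⟨T', v⟩, h⟩
          cases h
          rfl
        right_inv := fun v => rfl }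
    rw [Fintype.card_congr h2, Fintype.card_fin]
  have h1 : (TSys ι c).gd (Sum.elim m fun x : (Σ S : Finset ι, Fin (n S)) => x.1) = 0 := by
    refine tens_all ι c W hW hc hdiv w hsum hint _ _ fun S => ?_
    have h2 : (univ.filter fun y : κ ⊕ (Σ S : Finset ι, Fin (n S)) =>
        Sum.elim m (fun x => x.1) y = S).card =
        (univ.filter fun i => m i = S).card +
          (univ.filter fun x : (Σ S : Finset ι, Fin (n S)) => x.1 = S).card := by
      rw [Finset.card_filter, Fintype.sum_sum_type, Finset.card_filter, Finset.card_filter]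
      rfl
    rw [h2, hf, hn]
    exact Nat.div_mul_cancel (tens_dvd hW hdiv w hsum hint S)
  have h2 := tens_gd_le_add (TSys ι c) m (Σ S : Finset ι, Fin (n S)) fun x => x.1
  rw [h1, zero_add] at h2
  have h3 := tens_gd_le_add (TSys ι c) (fun x : PEmpty => (x.elim : Finset ι)) κ m
  have h4 : (TSys ι c).gd (Sum.elim (fun x : PEmpty => (x.elim : Finset ι)) m) =
      (TSys ι c).gd m := by
    rw [← gd_comp_equiv (TSys ι c) (Equiv.emptySum PEmpty κ)]
    congr 1
    funext i
    rcases i with i | i
    · exact i.elim
    · rfl
  rw [gd_empty, h4, Fintype.card_fun, Fintype.card_fin] at h3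
  have h5 : ∑ i, (TSys ι c).size (m i) ≤ ∑ i, c ^ (Fintype.card ι - (m i).card) :=
    Finset.sum_le_sum fun i _ => tens_size hc (m i)
  have h6 : ∑ x : (Σ S : Finset ι, Fin (n S)), (TSys ι c).size x.1 ≤
      ∑ x : (Σ S : Finset ι, Fin (n S)), c ^ (Fintype.card ι - x.1.card) :=
    Finset.sum_le_sum fun i _ => tens_size hc i.1
  have h7 : ∑ i, c ^ (Fintype.card ι - (m i).card) +
      ∑ x : (Σ S : Finset ι, Fin (n S)), c ^ (Fintype.card ι - x.1.card) =
      c ^ Fintype.card ι := by
    rw [tens_sum_kinds m fun S => c ^ (Fintype.card ι - S.card),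
      tens_sum_kinds (fun x : (Σ S : Finset ι, Fin (n S)) => x.1)
        fun S => c ^ (Fintype.card ι - S.card), ← Finset.sum_add_distrib]
    refine Nat.eq_of_mul_eq_mul_right (show 0 < W by omega) ?_
    rw [Finset.sum_mul]
    have h8 : ∀ S : Finset ι, ((univ.filter fun i => m i = S).card *
        c ^ (Fintype.card ι - S.card) + (univ.filter fun x : (Σ S : Finset ι, Fin (n S)) =>
          x.1 = S).card * c ^ (Fintype.card ι - S.card)) * W = w S * c ^ Fintype.card ι := by
      intro S
      rw [hf, ← add_mul, hn, mul_right_comm,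
        Nat.div_mul_cancel (tens_dvd hW hdiv w hsum hint S), mul_assoc, ← pow_add]
      congr 2
      have := Finset.card_le_univ S
      omega
    rw [Finset.sum_congr rfl fun S _ => h8 S, ← Finset.sum_mul, hsum, mul_comm]
  omega

end main

end Pool.Agent.V7
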