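import Pool.Agent.V7.AL.KDefs
import Pool.Agent.V7.AL.Tens
import Pool.Agent.V7.Num.BB

/-!
# V7, block ALPHA: the top level `2M - 1`

On the level `2M - 1` the exponents are the choices of one variable from each of the blocks
`0, …, 2M - 2`, and a point of the kind `k` with `dgr M k = 2M - 1` is a contraction with the
pure tensor of the slots `supp M k` (in the slot `i` of `sw i I` the direction `v` is used).  So the
system is the tensor system.
-/

set_option autoImplicit false
set_option linter.unusedSectionVars false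

namespace Pool.Agent.V7

open Finset MvPolynomial Pool.Agent.H51.TB Pool.Agent.H54.V7 Pool.Agent.V7.ST
open Pool.Agent.H18.Ex (tcr)

/-- The slots of a kind on the level `2M - 1`. -/
def supp (M : ℕ) : Kd → Finset ℕ
  | .ord _ I => range (2 * M - 1) \ I
  | .sw _ I => range (2 * M - 1) \ I

namespace TopX

section

variable {ν : Type} [Fintype ν] [DecidableEq ν] {L c : ℕ}

/-- The exponent of the variables `φ (j, w j)`, `j ∈ I`. -/
def xI (φ : Fin L × Fin c → ν) (I : Finset (Fin L)) (w : Fin L → Fin c) : ν → ℕ :=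
  fun s => if ∃ j ∈ I, φ (j, w j) = s then 1 else 0

variable {β : ν → ℕ} {φ : Fin L × Fin c → ν}

theorem xI_app (hφ : Function.Injective φ) (I : Finset (Fin L)) (w : Fin L → Fin c) (j : Fin L)
    (t : Fin c) : xI φ I w (φ (j, t)) = if j ∈ I ∧ t = w j then 1 else 0 := by
  unfold xI
  refine if_congr ?_ rfl rfl
  constructor
  · rintro ⟨j', hj', h⟩
    have h1 := hφ h
    have h2 : j' = j := congrArg Prod.fst h1
    have h3 : w j' = t := congrArg Prod.snd h1
    subst h2
    exact ⟨hj', h3.symm⟩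
  · rintro ⟨h1, h2⟩
    exact ⟨j, h1, by rw [h2]⟩

theorem sum_xI (hφ : Function.Injective φ) (I : Finset (Fin L)) (w : Fin L → Fin c) :
    ∑ s, xI φ I w s = I.card := by
  unfold xI
  rw [Finset.sum_boole, Nat.cast_id]
  have h1 : (univ.filter fun s => ∃ j ∈ I, φ (j, w j) = s) = I.image fun j => φ (j, w j) := by
    ext s
    simp
  rw [h1, card_image_of_injective]
  intro a b h
  exact congrArg Prod.fst (hφ h)

theorem xI_mem (hφ : Function.Injective φ) (hβ : ∀ x, β (φ x) = x.1.1) (e : Fin L → Fin c) :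
    xI φ univ e ∈ Ex β L L := by
  rw [mem_Ex, sum_xI hφ, card_univ, Fintype.card_fin]
  refine ⟨rfl, fun i hi => ⟨φ (⟨i, hi⟩, e ⟨i, hi⟩), hβ _, ?_⟩⟩
  rw [xI_app hφ, if_pos ⟨mem_univ _, rfl⟩]
  exact one_ne_zero

theorem xI_surj (hφ : Function.Injective φ) (hβ : ∀ x, β (φ x) = x.1.1)
    (hs : ∀ s, β s < L → ∃ x, φ x = s) {a : ν → ℕ} (ha : a ∈ Ex β L L) :
    ∃ e, xI φ univ e = a := by
  obtain ⟨h1, h2⟩ := mem_Ex.1 ha
  have h3 : ∀ j : Fin L, ∃ t : Fin c, a (φ (j, t)) ≠ 0 := by
    intro j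
    obtain ⟨s, hs1, hs2⟩ := h2 j.1 j.2
    obtain ⟨⟨j', t⟩, rfl⟩ := hs s (by rw [hs1]; exact j.2)
    have h4 : j' = j := Fin.ext (by rw [← hs1, hβ])
    subst h4
    exact ⟨t, hs2⟩
  choose e he using h3
  refine ⟨e, ?_⟩
  have h4 : ∀ s, xI φ univ e s ≤ a s := by
    intro s
    unfold xI
    split_ifs with h
    · obtain ⟨j, _, rfl⟩ := h
      exact Nat.one_le_iff_ne_zero.2 (he j)
    · exact Nat.zero_le _
  have h5 : ∑ s, xI φ univ e s = ∑ s, a s := by
    rw [sum_xI hφ, h1, card_univ, Fintype.card_fin]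
  have h6 := (sum_eq_sum_iff_of_le fun s _ => h4 s).1 h5
  exact funext fun s => h6 s (mem_univ s)

theorem xI_inj (hφ : Function.Injective φ) {e e' : Fin L → Fin c}
    (h : xI φ univ e = xI φ univ e') : e = e' := by
  funext j
  have h1 := congrFun h (φ (j, e j))
  rw [xI_app hφ, xI_app hφ, if_pos ⟨mem_univ _, rfl⟩] at h1
  by_contra h2
  rw [if_neg fun h3 => h2 h3.2] at h1
  exact one_ne_zero h1

theorem tcr_xI (hφ : Function.Injective φ) (q : ν → ℂ) {I J : Finset (Fin L)} (hIJ : I ⊆ J)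
    (e w : Fin L → Fin c) : tcr q (xI φ J e) (xI φ I w) =
      if ∀ j ∈ I, e j = w j then ∏ j ∈ J \ I, q (φ (j, e j)) else 0 := by
  split_ifs with h
  · have h1 : ∏ j ∈ J \ I, q (φ (j, e j)) =
        ∏ j : Fin L, if j ∈ J \ I then q (φ (j, e j)) else 1 := by
      rw [Finset.prod_ite_mem, univ_inter]
    rw [h1]
    unfold tcr
    symm
    refine Fintype.prod_of_injective (fun j => φ (j, e j)) ?_ _ _ ?_ ?_
    · intro a b hab
      exact congrArg Prod.fst (hφ hab)
    · intro s hs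
      have h2 : xI φ J e s = 0 := by
        unfold xI
        rw [if_neg]
        rintro ⟨j, _, hj⟩
        exact hs ⟨j, hj⟩
      have h3 : xI φ I w s = 0 := by
        unfold xI
        rw [if_neg]
        rintro ⟨j, hj, hj'⟩
        exact hs ⟨j, by rw [← hj', ← h j hj]⟩
      rw [h2, h3]
      simp
    · intro j
      show _ = (((xI φ J e (φ (j, e j))).choose (xI φ I w (φ (j, e j))) : ℕ) : ℂ) *
        q (φ (j, e j)) ^ (xI φ J e (φ (j, e j)) - xI φ I w (φ (j, e j)))
      rw [xI_app hφ, xI_app hφ]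
      by_cases hjI : j ∈ I
      · rw [if_neg fun h2 => (mem_sdiff.1 h2).2 hjI, if_pos ⟨hIJ hjI, rfl⟩,
          if_pos ⟨hjI, h j hjI⟩]
        simp
      · by_cases hjJ : j ∈ J
        · rw [if_pos (mem_sdiff.2 ⟨hjJ, hjI⟩), if_pos ⟨hjJ, rfl⟩, if_neg fun h2 => hjI h2.1]
          simp
        · rw [if_neg fun h2 => hjJ (mem_sdiff.1 h2).1, if_neg fun h2 => hjJ h2.1,
            if_neg fun h2 => hjI h2.1]
          simp
  · push Not at h
    obtain ⟨j, hj, hj'⟩ := h
    refine tcr_eq_zero _ _ _ fun h1 => ?_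
    have h2 := h1 (φ (j, w j))
    rw [xI_app hφ, xI_app hφ, if_pos ⟨hj, rfl⟩, if_neg fun h3 => hj' h3.2.symm] at h2
    exact absurd h2 (by norm_num)

/-- Sums over the exponents. -/
theorem sum_Ex (hφ : Function.Injective φ) (hβ : ∀ x, β (φ x) = x.1.1)
    (hs : ∀ s, β s < L → ∃ x, φ x = s) (f : {a // a ∈ Ex β L L} → ℂ) (g : (ν → ℕ) → ℂ) :
    ∑ a : {a // a ∈ Ex β L L}, f a * g a.1 =
      ∑ e : Fin L → Fin c, f ⟨xI φ univ e, xI_mem hφ hβ e⟩ * g (xI φ univ e) := by
  symm
  refine Fintype.sum_bijective (fun e => (⟨xI φ univ e, xI_mem hφ hβ e⟩ :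
    {a // a ∈ Ex β L L})) ⟨?_, ?_⟩ _ _ fun e => rfl
  · intro e e' h
    have h1 := congrArg Subtype.val h
    exact xI_inj hφ h1
  · rintro ⟨a, ha⟩
    obtain ⟨e, he⟩ := xI_surj hφ hβ hs ha
    exact ⟨e, Subtype.ext he⟩

/-- The blocks of `I` among the slots. -/
def tF (L : ℕ) (I : Finset ℕ) : Finset (Fin L) := univ.filter fun j => j.1 ∈ I

theorem mem_tF {I : Finset ℕ} {j : Fin L} : j ∈ tF L I ↔ j.1 ∈ I := by
  unfold tF
  rw [mem_filter]
  exact ⟨fun h => h.2, fun h => ⟨mem_univ _, h⟩⟩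

theorem map_tF {I : Finset ℕ} (hI : I ⊆ range L) : (tF L I).map Fin.valEmbedding = I := by
  ext x
  rw [mem_map]
  constructor
  · rintro ⟨j, hj, rfl⟩
    exact mem_tF.1 hj
  · intro hx
    exact ⟨⟨x, mem_range.1 (hI hx)⟩, mem_tF.2 hx, rfl⟩

theorem card_tF {I : Finset ℕ} (hI : I ⊆ range L) : (tF L I).card = I.card := by
  conv_rhs => rw [← map_tF hI]
  rw [card_map]

/-- An ordinary point is a contraction. -/
theorem ctr_ord (hφ : Function.Injective φ) (hβ : ∀ x, β (φ x) = x.1.1)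
    (hs : ∀ s, β s < L → ∃ x, φ x = s) (f : {a // a ∈ Ex β L L} → ℂ) (p : ν → ℂ)
    (y : Fin L × Fin c → ℂ) (hy : ∀ x, p (φ x) = y x) {μ : ℕ} {I : Finset ℕ} (hI : I ⊆ range L)
    (hμ : I.card < μ) (h : Fat (fun e : {a // a ∈ Ex β L L} => e.1) μ (msk β I p) f)
    (w : Fin L → Fin c) :
    ctr (tF L I)ᶜ y (fun e => f ⟨xI φ univ e, xI_mem hφ hβ e⟩) w = 0 := by
  have h1 := h (xI φ (tF L I) w) (by rw [sum_xI hφ, card_tF hI]; exact hμ)
  have h2 := sum_Ex hφ hβ hs f fun a => tcr (msk β I p) a (xI φ (tF L I) w)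
  rw [h1] at h2
  rw [h2]
  unfold ctr
  refine sum_congr rfl fun e _ => ?_
  rw [tcr_xI hφ _ (subset_univ _)]
  have h3 : (∀ j ∈ tF L I, e j = w j) ↔ ∀ j, j ∉ (tF L I)ᶜ → e j = w j := by
    refine forall_congr' fun j => ?_
    rw [mem_compl, not_not]
  by_cases h4 : ∀ j ∈ tF L I, e j = w j
  · rw [if_pos h4, if_pos (h3.1 h4), mul_comm]
    congr 1
    rw [← compl_eq_univ_sdiff]
    refine prod_congr rfl fun j hj => ?_
    rw [mem_compl, mem_tF] at hj
    unfold msk
    rw [hβ, if_neg hj, hy]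
  · rw [if_neg h4, if_neg fun h5 => h4 (h3.2 h5), mul_zero]

/-- A swapped point is a contraction. -/
theorem ctr_sw (hφ : Function.Injective φ) (hβ : ∀ x, β (φ x) = x.1.1)
    (hs : ∀ s, β s < L → ∃ x, φ x = s) (f : {a // a ∈ Ex β L L} → ℂ) (p v : ν → ℂ)
    (y : Fin L × Fin c → ℂ) (hy : ∀ x, p (φ x) = y x) (hy' : ∀ x, v (φ x) = y x)
    {M i : ℕ} {I : Finset ℕ} (hi : i < L) (hiI : i ∉ I) (hI : I ⊆ range L)
    (hM : I.card + 1 = M) (hM2 : 2 ≤ M)
    (h : Sw (fun e : {a // a ∈ Ex β L L} => e.1) M (2 * M) (univ.filter fun s => β s = i)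
      (msk β (insert i I) p) (msk β I v) f) (w : Fin L → Fin c) :
    ctr (tF L I)ᶜ y (fun e => f ⟨xI φ univ e, xI_mem hφ hβ e⟩) w = 0 := by
  have hJ : insert i I ⊆ range L := by
    intro x hx
    rcases mem_insert.1 hx with rfl | hx
    · exact mem_range.2 hi
    · exact hI hx
  have hIJ : tF L I ⊆ tF L (insert i I) := by
    intro j hj
    rw [mem_tF] at hj ⊢
    exact mem_insert_of_mem hj
  have hsum : ∑ s, xI φ (tF L I) w s = I.card := by rw [sum_xI hφ, card_tF hI]
  have h1 := h (xI φ (tF L I) w) (by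
    intro s hs'
    rw [mem_filter] at hs'
    unfold xI
    rw [if_neg]
    rintro ⟨j, hj, rfl⟩
    rw [hβ] at hs'
    rw [mem_tF, hs'.2] at hj
    exact hiI hj) (by rw [hsum]; omega) (by rw [hsum]; omega)
  -- exchange the sums
  have h2 : ∀ b, ∑ a : {a // a ∈ Ex β L L}, f a * tcr (msk β (insert i I) p) a.1 b =
      ∑ e : Fin L → Fin c, f ⟨xI φ univ e, xI_mem hφ hβ e⟩ *
        tcr (msk β (insert i I) p) (xI φ univ e) b := fun b =>
    sum_Ex hφ hβ hs f fun a => tcr (msk β (insert i I) p) a b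
  have h3 : ∑ e : Fin L → Fin c, f ⟨xI φ univ e, xI_mem hφ hβ e⟩ *
      ∑ b ∈ bxd ν (2 * M) M, tcr (msk β I v) b (xI φ (tF L I) w) *
        tcr (msk β (insert i I) p) (xI φ univ e) b = 0 := by
    rw [← h1]
    simp only [h2, mul_sum]
    rw [sum_comm]
    refine sum_congr rfl fun b _ => sum_congr rfl fun e _ => ?_
    ring
  rw [← h3]
  unfold ctr
  refine sum_congr rfl fun e _ => ?_
  have hmem : xI φ (tF L (insert i I)) e ∈ bxd ν (2 * M) M := by
    unfold bxd
    rw [mem_filter, mem_bx]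
    refine ⟨fun s => ?_, ?_⟩
    · have h4 : xI φ (tF L (insert i I)) e s ≤ 1 := by
        unfold xI
        split_ifs
        · exact le_rfl
        · exact Nat.zero_le _
      omega
    · rw [sum_xI hφ, card_tF hJ, card_insert_of_notMem hiI, hM]
  have h4 : ∑ b ∈ bxd ν (2 * M) M, tcr (msk β I v) b (xI φ (tF L I) w) *
      tcr (msk β (insert i I) p) (xI φ univ e) b =
      tcr (msk β I v) (xI φ (tF L (insert i I)) e) (xI φ (tF L I) w) *
        tcr (msk β (insert i I) p) (xI φ univ e) (xI φ (tF L (insert i I)) e) := by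
    refine Finset.sum_eq_single_of_mem _ hmem fun b hb hne => ?_
    have h5 : tcr (msk β (insert i I) p) (xI φ univ e) b = 0 := by
      by_contra h6
      apply hne
      have h7 : ∀ s, xI φ (tF L (insert i I)) e s ≤ b s := by
        intro s
        unfold xI
        split_ifs with h8
        · obtain ⟨j, hj, rfl⟩ := h8
          by_contra h9
          apply h6
          unfold tcr
          refine prod_eq_zero (mem_univ (φ (j, e j))) ?_
          have h10 : b (φ (j, e j)) = 0 := by omega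
          have h11 : msk β (insert i I) p (φ (j, e j)) = 0 := by
            unfold msk
            rw [hβ, if_pos (mem_tF.1 hj)]
          rw [h10, h11, xI_app hφ, if_pos ⟨mem_univ _, rfl⟩]
          simp
        · exact Nat.zero_le _
      unfold bxd at hb
      rw [mem_filter] at hb
      have h8 : ∑ s, xI φ (tF L (insert i I)) e s = ∑ s, b s := by
        rw [hb.2, sum_xI hφ, card_tF hJ, card_insert_of_notMem hiI, hM]
      have h9 := (sum_eq_sum_iff_of_le fun s _ => h7 s).1 h8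
      exact funext fun s => (h9 s (mem_univ s)).symm
    rw [h5, mul_zero]
  rw [h4, tcr_xI hφ _ hIJ, tcr_xI hφ _ (subset_univ _), if_pos fun j _ => rfl]
  have h5 : (∀ j ∈ tF L I, e j = w j) ↔ ∀ j, j ∉ (tF L I)ᶜ → e j = w j := by
    refine forall_congr' fun j => ?_
    rw [mem_compl, not_not]
  by_cases h6 : ∀ j ∈ tF L I, e j = w j
  · rw [if_pos h6, if_pos (h5.1 h6), mul_comm]
    congr 1
    have h7 : (tF L I)ᶜ = (tF L (insert i I) \ tF L I) ∪ (univ \ tF L (insert i I)) := by
      ext j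
      rw [mem_compl, mem_union, mem_sdiff, mem_sdiff, mem_tF, mem_tF]
      constructor
      · intro h8
        by_cases h9 : j.1 ∈ insert i I
        · exact Or.inl ⟨h9, h8⟩
        · exact Or.inr ⟨mem_univ _, h9⟩
      · rintro (h8 | h8)
        · exact h8.2
        · exact fun h9 => h8.2 (mem_insert_of_mem h9)
    have h8 : Disjoint (tF L (insert i I) \ tF L I) (univ \ tF L (insert i I)) := by
      rw [disjoint_left]
      intro j hj hj'
      exact (mem_sdiff.1 hj').2 (mem_sdiff.1 hj).1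
    rw [h7, prod_union h8]
    congr 1
    · refine prod_congr rfl fun j hj => ?_
      rw [mem_sdiff, mem_tF, mem_tF] at hj
      unfold msk
      rw [hβ, if_neg hj.2, hy']
    · refine prod_congr rfl fun j hj => ?_
      rw [mem_sdiff, mem_tF] at hj
      unfold msk
      rw [hβ, if_neg hj.2, hy]
  · rw [if_neg h6, if_neg fun h7 => h6 (h5.2 h7), zero_mul, mul_zero]

end

/-! ### The canonical variables -/

section

variable {L c n : ℕ}

/-- The variables of the first `L` blocks. -/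
def ph (hn : L * c ≤ n) (x : Fin L × Fin c) : Fin n :=
  ⟨x.1.1 * c + x.2.1, by
    have h1 : (x.1.1 + 1) * c ≤ L * c := Nat.mul_le_mul_right c x.1.2
    have h2 : (x.1.1 + 1) * c = x.1.1 * c + c := by ring
    have h3 := x.2.2
    omega⟩

theorem ph_blk (hn : L * c ≤ n) (x : Fin L × Fin c) : blk c n (ph hn x) = x.1.1 := by
  have hc : 0 < c := lt_of_le_of_lt (Nat.zero_le _) x.2.2
  show (x.1.1 * c + x.2.1) / c = x.1.1
  rw [add_comm, Nat.add_mul_div_right _ _ hc, Nat.div_eq_of_lt x.2.2, zero_add]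

theorem ph_inj (hn : L * c ≤ n) : Function.Injective (ph hn) := by
  intro x y h
  have h1 : x.1 = y.1 := Fin.ext (by rw [← ph_blk hn x, ← ph_blk hn y, h])
  have h2 : x.1.1 * c + x.2.1 = y.1.1 * c + y.2.1 := congrArg Fin.val h
  rw [h1] at h2
  exact Prod.ext h1 (Fin.ext (Nat.add_left_cancel h2))

theorem ph_surj (hc : 0 < c) (hn : L * c ≤ n) (s : Fin n) (hs : blk c n s < L) :
    ∃ x, ph hn x = s :=
  ⟨(⟨s.1 / c, hs⟩, ⟨s.1 % c, Nat.mod_lt _ hc⟩), Fin.ext (Nat.div_add_mod' s.1 c)⟩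

end

theorem gM_mono {E ν T : Type} [Fintype E] (S : Sys E ν T) {s s' : Multiset T} (h : s' ≤ s) :
    gM S s ≤ gM S s' := by
  obtain ⟨t, rfl⟩ := Multiset.le_iff_exists_add.1 h
  clear h
  induction t using Multiset.induction_on with
  | empty => rw [add_zero]
  | cons a t ih =>
    rw [Multiset.add_cons]
    exact (gM_cons_le S _ a).trans ih

/-- The set of the blocks of a kind. -/
def bI : Kd → Finset ℕ
  | .ord _ I => I
  | .sw _ I => I

theorem bI_sub {M j : ℕ} {k : Kd} (h : k.Ok M j) : bI k ⊆ range j := by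
  rcases k with ⟨μ, I⟩ | ⟨i, I⟩
  · exact h.2.2
  · intro x hx
    exact mem_range.2 (mem_Ico.1 (h.2 hx)).2

theorem supp_eq (M : ℕ) (k : Kd) : supp M k = range (2 * M - 1) \ bI k := by
  rcases k with ⟨μ, I⟩ | ⟨i, I⟩ <;> rfl

/-- The number of conditions of a point on the top level. -/
theorem wt_top {M c n : ℕ} (hM : 2 ≤ M) (hn : (2 * M - 1) * c ≤ n) {k : Kd}
    (hk : k.Ok M (2 * M - 1)) (hd : 2 * M - 1 ≤ dgr M k) :
    wt M c n k = if dgr M k = 2 * M - 1 then c ^ (bI k).card else 0 := by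
  have h1 : (bI k).card ≤ 2 * M - 1 := by
    have h2 := card_le_card (bI_sub hk)
    rwa [card_range] at h2
  have h2 : (bI k).card * c ≤ n := (Nat.mul_le_mul_right c h1).trans hn
  rcases k with ⟨μ, I⟩ | ⟨i, I⟩
  · show bb c (μ - 1) I.card n = if 2 * M - μ + I.card = 2 * M - 1 then c ^ I.card else 0
    have hd' : 2 * M - 1 ≤ 2 * M - μ + I.card := hd
    have hμ := hk.1
    have hμ' := hk.2.1
    split_ifs with h3
    · have h4 : μ - 1 = I.card := by omega
      rw [h4]
      exact bb_self c _ n h2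
    · exact bb_zero c _ _ n h2 (by omega)
  · show (bb c (M - 1) I.card n - if I = ∅ then 1 else 0) =
      if M + I.card = 2 * M - 1 then c ^ I.card else 0
    have hd' : 2 * M - 1 ≤ M + I.card := hd
    have h5 : I ≠ ∅ := by
      rintro rfl
      rw [card_empty] at hd'
      omega
    rw [if_neg h5, Nat.sub_zero]
    split_ifs with h3
    · have h4 : M - 1 = I.card := by omega
      rw [h4]
      exact bb_self c _ n h2
    · exact bb_zero c _ _ n h2 (by omega)

end TopX

open TopX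

/-- The top level: an intersecting family of tensor kinds is independent. -/
theorem top_level {M c n : ℕ} (hM : 2 ≤ M) (hc : 1 ≤ c) (hn : (2 * M - 1) * c ≤ n)
    (s : Multiset Kd) (hs : ∀ k ∈ s, k.Ok M (2 * M - 1) ∧ 2 * M - 1 ≤ dgr M k) (W : ℕ)
    (hW : 1 ≤ W) (hdiv : W.factorial ∣ c) (w : Finset ℕ → ℕ)
    (hsum : ∑ S ∈ (range (2 * M - 1)).powerset, w S = W)
    (hint : ∀ S S', w S ≠ 0 → w S' ≠ 0 → (S ∩ S').Nonempty)
    (hcnt : ∀ S ∈ (range (2 * M - 1)).powerset,
      (s.filter fun k => dgr M k = 2 * M - 1 ∧ supp M k = S).card * W ≤ w S * c ^ S.card) :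
    (gM (LS M (blk c n) (2 * M - 1)) s : ℤ) ≤ vd M c (2 * M - 1) n s := by
  classical
  set s' := s.filter fun k => dgr M k = 2 * M - 1 with hs'
  have hle : s' ≤ s := Multiset.filter_le _ s
  obtain ⟨N, m, hm, hg⟩ : ∃ (N : ℕ) (m : Fin N → Kd), (univ : Finset (Fin N)).val.map m = s' ∧
      (LS M (blk c n) (2 * M - 1)).gd m = gM (LS M (blk c n) (2 * M - 1)) s' :=
    ⟨_, exists_conf (LS M (blk c n) (2 * M - 1)) s'⟩
  have hmem : ∀ i, m i ∈ s' := by
    intro i
    rw [← hm]
    exact Multiset.mem_map_of_mem m (mem_univ i)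
  have hmk : ∀ i, (m i).Ok M (2 * M - 1) ∧ dgr M (m i) = 2 * M - 1 := by
    intro i
    have h1 := Multiset.mem_filter.1 (hmem i)
    exact ⟨(hs _ h1.1).1, h1.2⟩
  let φ := ph (c := c) hn
  have hφ : Function.Injective φ := ph_inj hn
  have hβ : ∀ x, blk c n (φ x) = x.1.1 := ph_blk hn
  have hsur : ∀ t, blk c n t < 2 * M - 1 → ∃ x, φ x = t := ph_surj hc hn
  let m' : Fin N → Finset (Fin (2 * M - 1)) := fun i => (tF (2 * M - 1) (bI (m i)))ᶜ
  obtain ⟨y, hy⟩ := gd_attained (TSys (Fin (2 * M - 1)) c) m'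
  let q : Fin N → Fin n ⊕ Fin n → ℂ := fun i =>
    Sum.elim (Function.extend φ (y i) 0) (Function.extend φ (y i) 0)
  have hq : ∀ i x, Function.extend φ (y i) 0 (φ x) = y i x := fun i x => hφ.extend_apply _ _ _
  -- the comparison
  have h1 : gM (LS M (blk c n) (2 * M - 1)) s ≤ (TSys (Fin (2 * M - 1)) c).gd m' := by
    refine (gM_mono _ hle).trans ?_
    rw [← hg, ← hy]
    refine (gd_le _ m q).trans ?_
    let K : (LS M (blk c n) (2 * M - 1)).V m q →ₗ[ℂ] (TSys (Fin (2 * M - 1)) c).V m' y :=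
      LinearMap.codRestrict _ ((LinearMap.funLeft ℂ ℂ fun e : Fin (2 * M - 1) → Fin c =>
        (⟨xI φ univ e, xI_mem hφ hβ e⟩ : {a // a ∈ Ex (blk c n) (2 * M - 1) (2 * M - 1)})).comp
          (Submodule.subtype _)) (by
        rintro ⟨f, hf⟩
        rw [mem_LSA] at hf
        rw [mem_TSys]
        intro i z
        have hfi := hf i
        have hki := hmk i
        show ctr (tF (2 * M - 1) (bI (m i)))ᶜ (y i)
          (fun e => f ⟨xI φ univ e, xI_mem hφ hβ e⟩) z = 0
        rcases hk : m i with ⟨μ, I⟩ | ⟨i', I⟩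
        · rw [hk] at hfi hki
          have h2 : 2 * M - μ + I.card = 2 * M - 1 := hki.2
          have h3 : 1 ≤ μ ∧ μ ≤ M ∧ I ⊆ range (2 * M - 1) := hki.1
          exact ctr_ord hφ hβ hsur f _ (y i) (hq i) h3.2.2 (by omega) hfi z
        · rw [hk] at hfi hki
          have h2 : M + I.card = 2 * M - 1 := hki.2
          have h3 : i' < 2 * M - 1 ∧ I ⊆ Ico (i' + 1) (2 * M - 1) := hki.1
          have h4 : i' ∉ I := fun h => by
            have := mem_Ico.1 (h3.2 h)
            omega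
          have h5 : I ⊆ range (2 * M - 1) := bI_sub hki.1
          exact ctr_sw hφ hβ hsur f _ _ (y i) (hq i) (hq i) h3.1 h4 h5 (by omega) hM hfi.2 z)
    have hK : Function.Injective K := by
      intro f g hfg
      apply Subtype.ext
      funext a
      obtain ⟨e, he⟩ := xI_surj hφ hβ hsur a.2
      have h2 : (K f).1 e = (K g).1 e := by rw [hfg]
      have h3 : (⟨xI φ univ e, xI_mem hφ hβ e⟩ :
        {a // a ∈ Ex (blk c n) (2 * M - 1) (2 * M - 1)}) = a := Subtype.ext he
      rw [← h3]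
      exact h2
    exact LinearMap.finrank_le_finrank_of_injective hK
  -- the tensor system
  have hmap : ∀ i, (m' i).map Fin.valEmbedding = supp M (m i) := by
    intro i
    rw [supp_eq]
    ext x
    rw [mem_map, mem_sdiff, mem_range]
    constructor
    · rintro ⟨j, hj, rfl⟩
      have h2 := mem_compl.1 hj
      rw [mem_tF] at h2
      exact ⟨j.2, h2⟩
    · rintro ⟨h2, h3⟩
      refine ⟨⟨x, h2⟩, ?_, rfl⟩
      show _ ∈ (tF (2 * M - 1) (bI (m i)))ᶜ
      rw [mem_compl, mem_tF]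
      exact h3
  have h2 := tens_indep (ι := Fin (2 * M - 1)) hW hc hdiv
    (fun S => w (S.map Fin.valEmbedding)) (by
      rw [← hsum]
      refine Finset.sum_bij (fun S _ => S.map Fin.valEmbedding) ?_ ?_ ?_ ?_
      · intro S _
        rw [mem_powerset]
        intro x hx
        obtain ⟨j, _, rfl⟩ := mem_map.1 hx
        exact mem_range.2 j.2
      · intro S _ S' _ h
        exact map_injective _ h
      · intro T hT
        rw [mem_powerset] at hT
        exact ⟨tF (2 * M - 1) T, mem_univ _, map_tF hT⟩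
      · intro S _
        rfl) (by
      intro S S' h3 h4
      left
      obtain ⟨x, hx⟩ := hint _ _ h3 h4
      rw [mem_inter, mem_map, mem_map] at hx
      obtain ⟨⟨j, hj, hj'⟩, ⟨i, hi, hi'⟩⟩ := hx
      have h5 : j = i := Fin.ext (by
        have h6 : j.1 = x := hj'
        have h7 : i.1 = x := hi'
        rw [h6, h7])
      exact ⟨j, mem_inter.2 ⟨hj, h5 ▸ hi⟩⟩) m' (by
      intro S
      have h3 := hcnt (S.map Fin.valEmbedding) (by
        rw [mem_powerset]
        intro x hx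
        obtain ⟨j, _, rfl⟩ := mem_map.1 hx
        exact mem_range.2 j.2)
      rw [card_map] at h3
      refine le_trans (le_of_eq ?_) h3
      congr 1
      have h4 : (s.filter fun k => dgr M k = 2 * M - 1 ∧ supp M k = S.map Fin.valEmbedding) =
          s'.filter fun k => supp M k = S.map Fin.valEmbedding := by
        rw [hs', Multiset.filter_filter]
        exact Multiset.filter_congr fun k _ => and_comm
      rw [h4, ← hm, Multiset.filter_map, Multiset.card_map, ← Finset.filter_val, Finset.card_val]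
      congr 1
      refine filter_congr fun i _ => ?_
      show m' i = S ↔ supp M (m i) = S.map Fin.valEmbedding
      rw [← hmap i]
      exact (map_injective Fin.valEmbedding).eq_iff.symm)
  rw [Fintype.card_fin] at h2
  -- the numbers
  have h3 : ∀ i, c ^ (2 * M - 1 - (m' i).card) = wt M c n (m i) := by
    intro i
    rw [wt_top hM hn (hmk i).1 (hmk i).2.ge, if_pos (hmk i).2]
    congr 1
    have h4 : (m' i).card = 2 * M - 1 - (bI (m i)).card := by
      show ((tF (2 * M - 1) (bI (m i)))ᶜ).card = _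
      rw [card_compl, Fintype.card_fin, card_tF (bI_sub (hmk i).1)]
    have h5 := card_le_card (bI_sub (hmk i).1)
    rw [card_range] at h5
    omega
  have h4 : ∑ i, c ^ (2 * M - 1 - (m' i).card) = (s'.map (wt M c n)).sum := by
    rw [← hm, Multiset.map_map]
    exact sum_congr rfl fun i _ => h3 i
  have h5 : (s.map (wt M c n)).sum = (s'.map (wt M c n)).sum := by
    have h6 : s = s' + s.filter fun k => ¬ dgr M k = 2 * M - 1 :=
      (Multiset.filter_add_not _ s).symm
    have h7 : ((s.filter fun k => ¬ dgr M k = 2 * M - 1).map (wt M c n)).sum = 0 := by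
      refine Multiset.sum_eq_zero fun x hx => ?_
      obtain ⟨k, hk, rfl⟩ := Multiset.mem_map.1 hx
      have h8 := Multiset.mem_filter.1 hk
      have h9 := hs k h8.1
      rw [wt_top hM hn h9.1 h9.2, if_neg h8.2]
    conv_lhs => rw [h6]
    rw [Multiset.map_add, Multiset.sum_add, h7, add_zero]
  unfold vd
  rw [bb_self c (2 * M - 1) n hn, h5]
  rw [h4] at h2
  have h6 : ((gM (LS M (blk c n) (2 * M - 1)) s : ℕ) : ℤ) ≤
      (((TSys (Fin (2 * M - 1)) c).gd m' : ℕ) : ℤ) := by exact_mod_cast h1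
  have h7 : (((TSys (Fin (2 * M - 1)) c).gd m' : ℕ) : ℤ) + ((s'.map (wt M c n)).sum : ℕ) =
      ((c ^ (2 * M - 1) : ℕ) : ℤ) := by exact_mod_cast h2
  linarith

end Pool.Agent.V7
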