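import Pool.Agent.V7.AL.ChainA
import Pool.Agent.V7.AL.Top
import Pool.Agent.V7.Num.BB

/-!
# V7, block ALPHA: the virtual dimension on the top level of the chain
-/

set_option autoImplicit false

namespace Pool.Agent.V7

open Finset Pool.Agent.H51.TB Pool.Agent.V7.ST

open Classical in
/-- The number of `M - 1`-sets which do not contain `range j`. -/
theorem card_top_ord (M j : ℕ) (hM : 2 ≤ M) (hj : j < M) :
    ((kds M (2 * M - 1)).filter fun k => ∃ I, k = Kd.ord M I ∧ I.card = M - 1 ∧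
      ¬ range j ⊆ I).card + 1 ≤ (2 * M - 1).choose M := by

  have h1 : ((kds M (2 * M - 1)).filter fun k => ∃ I, k = Kd.ord M I ∧ I.card = M - 1 ∧
      ¬ range j ⊆ I) ⊆ (((range (2 * M - 1)).powersetCard (M - 1)).erase (range (M - 1))).image
        (Kd.ord M) := by
    intro k hk
    rw [mem_filter] at hk
    obtain ⟨h2, I, rfl, h3, h4⟩ := hk
    rw [mem_kds] at h2
    rw [mem_image]
    refine ⟨I, ?_, rfl⟩
    rw [mem_erase, mem_powersetCard]
    refine ⟨?_, h2.2.2, h3⟩
    rintro rfl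
    exact h4 (range_subset_range.2 (by omega))
  have h2 := (card_le_card h1).trans card_image_le
  have h3 : range (M - 1) ∈ (range (2 * M - 1)).powersetCard (M - 1) := by
    rw [mem_powersetCard, card_range]
    exact ⟨range_subset_range.2 (by omega), rfl⟩
  have h4 := card_erase_add_one h3
  rw [card_powersetCard, card_range] at h4
  have h5 : (2 * M - 1).choose (M - 1) = (2 * M - 1).choose M :=
    Nat.choose_symm_of_eq_add (by omega)
  omega

open Classical in
/-- The bound for one kind. -/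
theorem nmb_wt_top {M c j n ν : ℕ} (hM : 2 ≤ M) (hc : 1 ≤ c) (hn : (2 * M - 1) * c ≤ n) {k : Kd}
    (hk : k ∈ kds M (2 * M - 1)) :
    nmb M c j (2 * M - 1) ν k * wt M c n k ≤
      (if ∃ I, k = Kd.ord M I ∧ I.card = M - 1 ∧ ¬ range j ⊆ I then
        c ^ M / (2 * M - 1).choose M * c ^ (M - 1) else 0) + 3 * c ^ (2 * M - 2) := by

  by_cases h0 : k ∈ kds M (2 * M - 1) ∧ k.In M j ∧ 2 * M - 1 ≤ dgr M k
  swap
  · rw [nmb_neg h0, zero_mul]
    exact Nat.zero_le _
  rw [nmb_pos h0.1 h0.2.1 h0.2.2]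
  have hok := mem_kds.1 hk
  have hpow : c ^ (M - 1) * c ^ (M - 1) = c ^ (2 * M - 2) := by
    rw [← pow_add]
    congr 1
    omega
  have hcard : ∀ I : Finset ℕ, I ⊆ range (2 * M - 1) → I.card * c ≤ n := by
    intro I hI
    have h1 := card_le_card hI
    rw [card_range] at h1
    exact (Nat.mul_le_mul_right c h1).trans hn
  cases k with
  | ord μ I =>
    obtain ⟨h1, h2, h3⟩ := hok
    have h4 : 2 * M - 1 ≤ 2 * M - μ + I.card := h0.2.2
    show rho M c (Kd.ord μ I) * (ν - (2 * M - 1 - j)).choose (2 * M - μ + I.card - (2 * M - 1)) *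
      bb c (μ - 1) I.card n ≤ _
    rcases Nat.lt_or_ge (μ - 1) I.card with h5 | h5
    · rw [bb_zero c _ _ n (hcard I h3) h5, mul_zero]
      exact Nat.zero_le _
    · have h6 : I.card = μ - 1 := by omega
      have h7 : 2 * M - μ + I.card - (2 * M - 1) = 0 := by omega
      rw [h7, Nat.choose_zero_right, mul_one, h6, bb_self c _ n (h6 ▸ hcard I h3)]
      by_cases h8 : μ = M
      · subst h8
        have h9 : ∃ I', Kd.ord μ I = Kd.ord μ I' ∧ I'.card = μ - 1 ∧ ¬ range j ⊆ I' :=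
          ⟨I, rfl, h6, h0.2.1 rfl⟩
        rw [if_pos h9]
        show (if μ = μ then c ^ μ / (2 * μ - 1).choose μ + c ^ (μ - 1) else 1) * c ^ (μ - 1) ≤ _
        rw [if_pos rfl, add_mul, hpow]
        omega
      · show (if μ = M then c ^ M / (2 * M - 1).choose M + c ^ (M - 1) else 1) * c ^ (μ - 1) ≤ _
        rw [if_neg h8, one_mul]
        have h9 : c ^ (μ - 1) ≤ c ^ (2 * M - 2) := Nat.pow_le_pow_right hc (by omega)
        omega
  | sw i I =>
    obtain ⟨h1, h3'⟩ := hok
    have h3 : I ⊆ range (2 * M - 1) := fun x hx => mem_range.2 (mem_Ico.1 (h3' hx)).2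
    have h4 : 2 * M - 1 ≤ M + I.card := h0.2.2
    show 3 * c ^ (M - 1) * (ν - (2 * M - 1 - j)).choose (M + I.card - (2 * M - 1)) *
      (bb c (M - 1) I.card n - if I = ∅ then 1 else 0) ≤ _
    rcases Nat.lt_or_ge (M - 1) I.card with h5 | h5
    · rw [bb_zero c _ _ n (hcard I h3) h5, Nat.zero_sub, mul_zero]
      exact Nat.zero_le _
    · have h6 : I.card = M - 1 := by omega
      have h7 : M + I.card - (2 * M - 1) = 0 := by omega
      rw [h7, Nat.choose_zero_right, mul_one, h6, bb_self c _ n (h6 ▸ hcard I h3)]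
      have h8 : 3 * c ^ (M - 1) * (c ^ (M - 1) - if I = ∅ then 1 else 0) ≤ 3 * c ^ (2 * M - 2) := by
        rw [← hpow, ← mul_assoc]
        exact Nat.mul_le_mul_left _ (Nat.sub_le _ _)
      omega

/-- N1 (helper72), file AL/N1.lean -/
theorem top_low (M j : ℕ) (hM : 2 ≤ M) (hj : j < M) : ∃ c₀ : ℕ, ∀ c, c₀ ≤ c →
    (2 * M - 1).choose M ∣ c → ∀ n ν, (2 * M - 1) * c ≤ n →
    ((c ^ (2 * M - 1) : ℕ) : ℤ) ≤
      2 * ((2 * M - 1).choose M : ℤ) * vd M c (2 * M - 1) n (cfg M c j (2 * M - 1) ν) := by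
  classical

  refine ⟨6 * (2 * M - 1).choose M * (kds M (2 * M - 1)).card + 1, fun c hc hdiv n ν hn => ?_⟩
  have hc1 : 1 ≤ c := by omega
  obtain ⟨m, hm⟩ := hdiv
  set C := (2 * M - 1).choose M with hC
  set K := (kds M (2 * M - 1)).card with hK
  have hCpos : 0 < C := Nat.choose_pos (by omega)
  -- the sum of the weights
  have hsum : ((cfg M c j (2 * M - 1) ν).map (wt M c n)).sum ≤
      (C - 1) * (c ^ M / C * c ^ (M - 1)) + K * (3 * c ^ (2 * M - 2)) := by
    have e1 : ((cfg M c j (2 * M - 1) ν).map (wt M c n)).sum =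
        ∑ k ∈ kds M (2 * M - 1), nmb M c j (2 * M - 1) ν k * wt M c n k := by
      unfold cfg
      have e : (∑ k ∈ kds M (2 * M - 1), Multiset.replicate (nmb M c j (2 * M - 1) ν k) k).map
          (wt M c n) = ∑ k ∈ kds M (2 * M - 1),
            (Multiset.replicate (nmb M c j (2 * M - 1) ν k) k).map (wt M c n) :=
        map_sum (Multiset.mapAddMonoidHom (wt M c n)) _ _
      rw [e]
      have e2 : (∑ k ∈ kds M (2 * M - 1),
          (Multiset.replicate (nmb M c j (2 * M - 1) ν k) k).map (wt M c n)).sum =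
          ∑ k ∈ kds M (2 * M - 1),
            ((Multiset.replicate (nmb M c j (2 * M - 1) ν k) k).map (wt M c n)).sum :=
        map_sum (Multiset.sumAddMonoidHom : Multiset ℕ →+ ℕ) _ _
      rw [e2]
      refine Finset.sum_congr rfl fun k _ => ?_
      rw [Multiset.map_replicate, Multiset.sum_replicate, smul_eq_mul]
    rw [e1]
    refine (Finset.sum_le_sum fun k hk => nmb_wt_top (j := j) (ν := ν) hM hc1 hn hk).trans ?_
    rw [Finset.sum_add_distrib, Finset.sum_const, smul_eq_mul, ← Finset.sum_filter,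
      Finset.sum_const, smul_eq_mul]
    have h1 := card_top_ord M j hM hj
    have h2 : ((kds M (2 * M - 1)).filter fun k => ∃ I, k = Kd.ord M I ∧ I.card = M - 1 ∧
        ¬ range j ⊆ I).card ≤ C - 1 := by omega
    exact Nat.add_le_add_right (Nat.mul_le_mul_right _ h2) _
  have hCM : C * (c ^ M / C) = c ^ M := by
    refine Nat.mul_div_cancel' ?_
    exact (Dvd.intro m hm.symm).trans (dvd_pow_self c (by omega))
  have hp1 : c ^ M * c ^ (M - 1) = c ^ (2 * M - 1) := by
    rw [← pow_add]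
    congr 1
    omega
  have hp2 : c ^ (2 * M - 1) = c * c ^ (2 * M - 2) := by
    rw [← pow_succ']
    congr 1
    omega
  have hvd : vd M c (2 * M - 1) n (cfg M c j (2 * M - 1) ν) =
      ((c ^ (2 * M - 1) : ℕ) : ℤ) - (((cfg M c j (2 * M - 1) ν).map (wt M c n)).sum : ℕ) := by
    unfold vd
    rw [bb_self c (2 * M - 1) n hn]
  rw [hvd]
  set S := ((cfg M c j (2 * M - 1) ν).map (wt M c n)).sum with hS
  have h3 : C * S ≤ (C - 1) * c ^ (2 * M - 1) + C * (K * (3 * c ^ (2 * M - 2))) := by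
    calc C * S ≤ C * ((C - 1) * (c ^ M / C * c ^ (M - 1)) + K * (3 * c ^ (2 * M - 2))) :=
          Nat.mul_le_mul_left _ hsum
      _ = (C - 1) * (C * (c ^ M / C) * c ^ (M - 1)) + C * (K * (3 * c ^ (2 * M - 2))) := by ring
      _ = _ := by rw [hCM, hp1]
  have h4 : 6 * C * K * c ^ (2 * M - 2) ≤ c ^ (2 * M - 1) := by
    rw [hp2]
    exact Nat.mul_le_mul_right _ (by omega)
  set X := c ^ (2 * M - 1) with hX
  set Y := c ^ (2 * M - 2) with hY
  have h5 : 2 * (C * S) ≤ 2 * ((C - 1) * X) + X := by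
    have h6 : 2 * (C * (K * (3 * Y))) = 6 * C * K * Y := by ring
    omega
  have h6 : (C - 1) * X + X = C * X := by
    rw [← Nat.succ_mul]
    congr 1
    omega
  have h7 : 2 * (C * S) + X ≤ 2 * (C * X) := by omega
  have h8 : (2 * ((C : ℤ) * S) + X) ≤ 2 * ((C : ℤ) * X) := by exact_mod_cast h7
  linarith

end Pool.Agent.V7
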