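import Pool.Agent.V7.AL.Span

/-!
# V7, block ALPHA, N3: the number of exponents which are not linear in all blocks

Such an exponent is the sum of one variable in every block `i < l`, one more variable of these blocks
and `2M - 2 - l` arbitrary variables.
-/

set_option autoImplicit false

namespace Pool.Agent.V7

open Finset

namespace N3X

variable {n : ℕ}

/-- The indicator of the variable with the number `m`. -/
def ev (n m : ℕ) : Fin n → ℕ := fun s => if s.1 = m then 1 else 0

theorem sum_ev (s : Fin n) (P : Fin n → Prop) [DecidablePred P] (h : P s) :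
    ∑ t ∈ univ.filter P, ev n s.1 t = 1 := by
  rw [Finset.sum_eq_single_of_mem s (mem_filter.2 ⟨mem_univ s, h⟩)]
  · unfold ev
    rw [if_pos rfl]
  · intro t _ ht
    unfold ev
    rw [if_neg fun h => ht (Fin.ext h)]

theorem exists_seq (d : ℕ) : ∀ a : Fin n → ℕ, ∑ s, a s = d →
    ∃ u : Fin d → Fin n, ∀ s, a s = ∑ t, ev n (u t).1 s := by
  induction d with
  | zero =>
    intro a ha
    refine ⟨fun t => t.elim0, fun s => ?_⟩
    have h1 := (sum_eq_zero_iff.1 ha) s (mem_univ s)
    rw [h1]
    simp
  | succ d ih =>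
    intro a ha
    obtain ⟨s₀, hs₀⟩ : ∃ s, a s ≠ 0 := by
      by_contra h
      push Not at h
      rw [sum_eq_zero fun s _ => h s] at ha
      omega
    have h1 : ∀ s, a s = (a s - ev n s₀.1 s) + ev n s₀.1 s := by
      intro s
      refine (Nat.sub_add_cancel ?_).symm
      unfold ev
      split_ifs with h
      · rw [Fin.ext h]
        omega
      · exact Nat.zero_le _
    have h2 : ∑ s, (a s - ev n s₀.1 s) = d := by
      have h3 : ∑ s, a s = ∑ s, (a s - ev n s₀.1 s) + ∑ s, ev n s₀.1 s := by
        rw [← sum_add_distrib]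
        exact sum_congr rfl fun s _ => h1 s
      have h4 : ∑ s, ev n s₀.1 s = 1 := by
        have h5 := sum_ev s₀ (fun _ => True) trivial
        rwa [filter_true] at h5
      omega
    obtain ⟨u, hu⟩ := ih _ h2
    refine ⟨Fin.cons s₀ u, fun s => ?_⟩
    rw [Fin.sum_univ_succ]
    simp only [Fin.cons_zero, Fin.cons_succ]
    rw [← hu s, add_comm]
    exact h1 s

end N3X

open N3X

theorem dz_le (M c l n : ℕ) (hc : 1 ≤ c) (hl : l + 2 ≤ 2 * M) :
    dz M c l n ≤ c ^ l * (l * c) * n ^ (2 * M - 2 - l) := by
  classical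
  let F : (Fin l → Fin c) × Fin (l * c) × (Fin (2 * M - 2 - l) → Fin n) → Fin n → ℕ := fun x s =>
    ∑ i : Fin l, ev n (i.1 * c + (x.1 i).1) s + ev n x.2.1.1 s + ∑ t, ev n (x.2.2 t).1 s
  have hF : ((Ex (blk c n) (2 * M - 1) l).filter fun a =>
      ∑ s ∈ univ.filter (fun s => l ≤ blk c n s), a s < 2 * M - 1 - l) ⊆ univ.image F := by
    intro a ha
    rw [mem_filter] at ha
    obtain ⟨ha1, ha2⟩ := ha
    obtain ⟨ha3, ha4⟩ := mem_Ex.1 ha1
    have ha5 : ∀ i : Fin l, ∃ s, blk c n s = i.1 ∧ a s ≠ 0 := fun i => ha4 i.1 i.2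
    choose g hg1 hg2 using ha5
    have hgt : ∀ i : Fin l, (g i).1 = i.1 * c + (g i).1 % c := by
      intro i
      have h1 := Nat.div_add_mod' (g i).1 c
      have h2 : (g i).1 / c = i.1 := hg1 i
      rw [h2] at h1
      exact h1.symm
    set b : Fin n → ℕ := fun s => ∑ i : Fin l, ev n (g i).1 s with hb
    have hinj : ∀ i j : Fin l, g i = g j → i = j := by
      intro i j h
      refine Fin.ext ?_
      rw [← hg1 i, ← hg1 j, h]
    have hb1 : ∀ s, b s ≤ a s := by
      intro s
      by_cases h : ∃ i : Fin l, g i = s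
      · obtain ⟨i, rfl⟩ := h
        have h1 : b (g i) = 1 := by
          show ∑ j : Fin l, ev n (g j).1 (g i) = 1
          rw [Finset.sum_eq_single_of_mem i (mem_univ i)]
          · unfold ev
            rw [if_pos rfl]
          · intro j _ hj
            unfold ev
            rw [if_neg fun h => hj (hinj j i (Fin.ext h.symm))]
        rw [h1]
        exact Nat.one_le_iff_ne_zero.2 (hg2 i)
      · have h1 : b s = 0 := by
          refine sum_eq_zero fun i _ => ?_
          unfold ev
          rw [if_neg fun h2 => h ⟨i, Fin.ext h2.symm⟩]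
        rw [h1]
        exact Nat.zero_le _
    have hbs : ∀ P : Fin n → Prop, ∀ [DecidablePred P], (∀ i : Fin l, P (g i)) →
        ∑ s ∈ univ.filter P, b s = l := by
      intro P _ hP
      show ∑ s ∈ univ.filter P, ∑ i : Fin l, ev n (g i).1 s = l
      rw [sum_comm, sum_congr rfl fun i _ => sum_ev (g i) P (hP i)]
      simp
    have hsplit : ∀ P : Fin n → Prop, ∀ [DecidablePred P],
        ∑ s ∈ univ.filter P, a s = ∑ s ∈ univ.filter P, (a s - b s) +
          ∑ s ∈ univ.filter P, b s := by
      intro P _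
      rw [← sum_add_distrib]
      exact sum_congr rfl fun s _ => (Nat.sub_add_cancel (hb1 s)).symm
    have h1 : ∑ s, (a s - b s) = 2 * M - 1 - l := by
      have h2 := hsplit fun _ => True
      have h3 := hbs (fun _ => True) fun _ => trivial
      rw [filter_true] at h2 h3
      omega
    have h2 : 1 ≤ ∑ s ∈ univ.filter (fun s => blk c n s < l), (a s - b s) := by
      have h3 := hsplit fun s => blk c n s < l
      have h4 := hbs (fun s => blk c n s < l) fun i => by
        rw [hg1 i]
        exact i.2
      have h5 := Finset.sum_filter_add_sum_filter_not univ (fun s => l ≤ blk c n s) a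
      have h6 : (univ.filter fun s => ¬ l ≤ blk c n s) = univ.filter fun s => blk c n s < l :=
        filter_congr fun s _ => not_le
      rw [h6, ha3] at h5
      omega
    obtain ⟨s₀, hs₀, hs₁⟩ : ∃ s ∈ univ.filter (fun s => blk c n s < l), a s - b s ≠ 0 := by
      by_contra h
      push Not at h
      rw [sum_eq_zero h] at h2
      omega
    rw [mem_filter] at hs₀
    have h3 : ∀ s, a s - b s = (a s - b s - ev n s₀.1 s) + ev n s₀.1 s := by
      intro s
      refine (Nat.sub_add_cancel ?_).symm
      unfold ev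
      split_ifs with h
      · rw [Fin.ext h]
        omega
      · exact Nat.zero_le _
    have h4 : ∑ s, (a s - b s - ev n s₀.1 s) = 2 * M - 2 - l := by
      have h5 : ∑ s, (a s - b s) = ∑ s, (a s - b s - ev n s₀.1 s) + ∑ s, ev n s₀.1 s := by
        rw [← sum_add_distrib]
        exact sum_congr rfl fun s _ => h3 s
      have h6 : ∑ s, ev n s₀.1 s = 1 := by
        have h7 := sum_ev s₀ (fun _ => True) trivial
        rwa [filter_true] at h7
      omega
    obtain ⟨u, hu⟩ := exists_seq _ _ h4
    have hr : s₀.1 < l * c := (Nat.div_lt_iff_lt_mul hc).1 hs₀.2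
    rw [mem_image]
    refine ⟨(fun i => ⟨(g i).1 % c, Nat.mod_lt _ hc⟩, ⟨s₀.1, hr⟩, u), mem_univ _, ?_⟩
    funext s
    show ∑ i : Fin l, ev n (i.1 * c + (g i).1 % c) s + ev n s₀.1 s + ∑ t, ev n (u t).1 s = a s
    have h5 : ∑ i : Fin l, ev n (i.1 * c + (g i).1 % c) s = b s :=
      sum_congr rfl fun i _ => by rw [← hgt i]
    rw [h5, ← hu s]
    have h6 := h3 s
    have h7 := hb1 s
    omega
  have hcard : dz M c l n ≤ (univ.image F).card := card_le_card hF
  refine hcard.trans (card_image_le.trans (le_of_eq ?_))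
  rw [card_univ, Fintype.card_prod, Fintype.card_prod, Fintype.card_fun, Fintype.card_fun,
    Fintype.card_fin, Fintype.card_fin, Fintype.card_fin, Fintype.card_fin, Fintype.card_fin]
  ring

end Pool.Agent.V7
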