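import Pool.Agent.V7.AL.ChainA

/-!
# V7, block ALPHA: the configurations of the classes are contained in those of the chain
-/

set_option autoImplicit false

namespace Pool.Agent.V7

open Finset

/-- Binomial coefficients against powers. -/
theorem choose_large (c d : ℕ) (hc : 1 ≤ c) (a b : ℝ) (ha : 0 ≤ a)
    (hab : a * ((c : ℝ) ^ d * (d.factorial : ℝ)) < b) : ∃ e : ℝ, 0 < e ∧ ∃ n₀ : ℕ, ∀ n, n₀ ≤ n →
    (a + e) * (n : ℝ) ^ d ≤ b * ((n / c).choose d : ℝ) := by
  have hF : (0 : ℝ) < (c : ℝ) ^ d * (d.factorial : ℝ) := by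
    have h1 : (0 : ℝ) < (c : ℝ) := by exact_mod_cast hc
    have h2 : (0 : ℝ) < (d.factorial : ℝ) := by exact_mod_cast d.factorial_pos
    positivity
  set F : ℝ := (c : ℝ) ^ d * (d.factorial : ℝ) with hFd
  have hb : 0 < b := lt_of_le_of_lt (mul_nonneg ha hF.le) hab
  set e : ℝ := (b - a * F) / (2 * F) with he
  have hepos : 0 < e := div_pos (by linarith) (by linarith)
  have hb' : (a + e) * F = (a * F + b) / 2 := by
    rw [he]
    field_simp
    ring
  set b' : ℝ := (a * F + b) / 2 with hb'd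
  have hb'b : b' < b := by rw [hb'd]; linarith
  obtain ⟨N₀, hN₀⟩ := exists_nat_gt (b * (d : ℝ) ^ 2 / (b - b'))
  refine ⟨e, hepos, c * (N₀ + d), fun n hn => ?_⟩
  set ν : ℕ := n / c with hν
  have hνd : N₀ + d ≤ ν := by
    rw [hν, Nat.le_div_iff_mul_le (by omega), mul_comm]
    exact hn
  have hn' : n < c * (ν + 1) := Nat.lt_mul_div_succ n (by omega)
  set X : ℝ := (ν : ℝ) + 1 with hX
  have hXpos : 0 < X := by positivity
  have hXN : (N₀ : ℝ) + d ≤ X := by
    have : ((N₀ + d : ℕ) : ℝ) ≤ ν := by exact_mod_cast hνd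
    push_cast at this
    rw [hX]
    linarith
  have hXd : (d : ℝ) ≤ X := by
    have : (0 : ℝ) ≤ N₀ := Nat.cast_nonneg _
    linarith
  -- upper bound
  have h1 : (n : ℝ) ^ d ≤ ((c : ℝ) * X) ^ d := by
    refine pow_le_pow_left₀ (Nat.cast_nonneg _) ?_ d
    have : (n : ℝ) ≤ ((c * (ν + 1) : ℕ) : ℝ) := by exact_mod_cast hn'.le
    push_cast at this
    exact this
  -- lower bound
  have h2 : ((ν + 1 - d : ℕ) : ℝ) ^ d / (d.factorial : ℝ) ≤ (ν.choose d : ℝ) :=
    Nat.pow_le_choose d ν
  have h3 : ((ν + 1 - d : ℕ) : ℝ) = X - d := by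
    rw [Nat.cast_sub (by omega)]
    push_cast
    rfl
  rw [h3] at h2
  have hdf : (0 : ℝ) < (d.factorial : ℝ) := by exact_mod_cast d.factorial_pos
  have h4 : X ^ d * (1 - (d : ℝ) ^ 2 / X) ≤ (X - d) ^ d := by
    have h5 : X - d = X * (1 + -((d : ℝ) / X)) := by
      field_simp
      ring
    have h6 : -2 ≤ -((d : ℝ) / X) := by
      have : (d : ℝ) / X ≤ 1 := (div_le_one hXpos).2 hXd
      linarith
    have h7 := one_add_mul_le_pow h6 d
    rw [h5, mul_pow]
    refine mul_le_mul_of_nonneg_left (le_trans (le_of_eq ?_) h7) (pow_nonneg hXpos.le d)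
    field_simp
    ring
  have h5 : b * (d : ℝ) ^ 2 / X ≤ b - b' := by
    rw [div_le_iff₀ hXpos]
    rw [div_lt_iff₀ (by linarith)] at hN₀
    have h6 : (N₀ : ℝ) * (b - b') ≤ (b - b') * X := by
      rw [mul_comm]
      refine mul_le_mul_of_nonneg_left ?_ (by linarith)
      have : (0 : ℝ) ≤ d := Nat.cast_nonneg _
      linarith
    linarith
  have hXdp : 0 < X ^ d := pow_pos hXpos d
  have h6 : b' * X ^ d ≤ b * (X - d) ^ d := by
    refine le_trans ?_ (mul_le_mul_of_nonneg_left h4 hb.le)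
    have h7 : b * (X ^ d * (1 - (d : ℝ) ^ 2 / X)) = (b - b * (d : ℝ) ^ 2 / X) * X ^ d := by
      ring
    rw [h7]
    refine mul_le_mul_of_nonneg_right ?_ hXdp.le
    linarith
  calc (a + e) * (n : ℝ) ^ d ≤ (a + e) * ((c : ℝ) * X) ^ d :=
        mul_le_mul_of_nonneg_left h1 (by linarith)
    _ = (b' * X ^ d) / (d.factorial : ℝ) := by
        rw [← hb', hFd, mul_pow]
        field_simp
    _ ≤ (b * (X - d) ^ d) / (d.factorial : ℝ) := div_le_div_of_nonneg_right h6 hdf.le
    _ = b * ((X - d) ^ d / (d.factorial : ℝ)) := by ring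
    _ ≤ b * (ν.choose d : ℝ) := mul_le_mul_of_nonneg_left h2 hb.le

/-- The bound of the number of the points of a kind in a class. -/
theorem cls_kind (M c j : ℕ) (hM : 2 ≤ M) (hj : j < M) (hc : 1 ≤ c)
    (hdiv : (2 * M - 1).choose M ∣ c) (k : Kd) : ∃ e : ℝ, 0 < e ∧ ∃ n₀ : ℕ, ∀ n, n₀ ≤ n →
    ∀ e' : ℝ, e' ≤ e → ∀ N : Kd → ℕ, Cls0 M c j n e' N → N (Kd.ord M (range j)) = 0 →
      N k ≤ nmb M c j j (n / c) k := by
  by_cases hk : k ∈ kds M j
  swap
  · refine ⟨1, one_pos, 0, fun n _ e' _ N hN _ => ?_⟩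
    have h1 : N k = 0 := by
      by_contra h
      exact hk (hN.ok k h)
    omega
  have hCpos : 0 < (2 * M - 1).choose M := Nat.choose_pos (by omega)
  have hC0 : (0 : ℝ) < ((2 * M - 1).choose M : ℝ) := by exact_mod_cast hCpos
  have hc0 : (0 : ℝ) < (c : ℝ) := by exact_mod_cast hc
  have hk' := mem_kds.1 hk
  -- the nominal density
  have hnom : ∀ I : Finset ℕ, I ⊆ range j →
      nom M c j I * ((c : ℝ) ^ (M + I.card - j) * ((M + I.card - j).factorial : ℝ)) =
        (c : ℝ) ^ M / ((2 * M - 1).choose M : ℝ) := by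
    intro I hI
    have h1 : I.card ≤ j := by
      have := card_le_card hI
      rwa [card_range] at this
    have h2 : (c : ℝ) ^ M = (c : ℝ) ^ (j - I.card) * (c : ℝ) ^ (M + I.card - j) := by
      rw [← pow_add]
      congr 1
      omega
    have h3 : ((M + I.card - j).factorial : ℝ) ≠ 0 := by exact_mod_cast Nat.factorial_ne_zero _
    rw [h2]
    unfold nom
    field_simp
  have hnom0 : ∀ I : Finset ℕ, 0 ≤ nom M c j I := by
    intro I
    unfold nom
    positivity
  cases k with
  | ord μ I =>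
    obtain ⟨hμ1, hμM, hI⟩ := hk'
    have h1 : I.card ≤ j := by
      have := card_le_card hI
      rwa [card_range] at this
    rcases Nat.lt_or_ge μ M with hμ | hμ
    · -- small multiplicity
      obtain ⟨e, he, n₀, h⟩ := choose_large c (2 * M - μ + I.card - j) hc 0 1 le_rfl (by simp)
      refine ⟨e, he, n₀, fun n hn e' he' N hN _ => ?_⟩
      have h2 := hN.sml μ hμ1 hμ I hI
      have h3 := h n hn
      have h4 : nmb M c j j (n / c) (Kd.ord μ I) =
          (n / c).choose (2 * M - μ + I.card - j) := by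
        rw [nmb_pos hk (fun h => absurd h hμ.ne) (show j ≤ 2 * M - μ + I.card by omega)]
        show (if μ = M then _ else 1) * _ = _
        rw [if_neg hμ.ne, one_mul, Nat.sub_self, Nat.sub_zero]
        rfl
      rw [h4]
      have h5 : (N (Kd.ord μ I) : ℝ) ≤ ((n / c).choose (2 * M - μ + I.card - j) : ℝ) := by
        refine h2.trans (le_trans ?_ (h3.trans (le_of_eq (one_mul _))))
        refine mul_le_mul_of_nonneg_right ?_ (by positivity)
        linarith
      exact_mod_cast h5
    · obtain rfl : μ = M := le_antisymm hμM hμ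
      by_cases hIj : I = range j
      · refine ⟨1, one_pos, 0, fun n _ e' _ N _ h0 => ?_⟩
        rw [hIj, h0]
        exact Nat.zero_le _
      · have hdvd : (2 * μ - 1).choose μ ∣ c ^ μ := dvd_pow hdiv (by omega)
        have hcast : (((c ^ μ / (2 * μ - 1).choose μ + c ^ (μ - 1) : ℕ)) : ℝ) =
            (c : ℝ) ^ μ / ((2 * μ - 1).choose μ : ℝ) + (c : ℝ) ^ (μ - 1) := by
          rw [Nat.cast_add, Nat.cast_div hdvd hC0.ne']
          push_cast
          rfl
        obtain ⟨e, he, n₀, h⟩ := choose_large c (μ + I.card - j) hc (nom μ c j I)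
          ((c ^ μ / (2 * μ - 1).choose μ + c ^ (μ - 1) : ℕ) : ℝ) (hnom0 I) (by
            rw [hnom I hI, hcast]
            have : (0 : ℝ) < (c : ℝ) ^ (μ - 1) := by positivity
            linarith)
        refine ⟨e, he, n₀, fun n hn e' he' N hN _ => ?_⟩
        have h2 := hN.big I hI hIj
        have h3 := h n hn
        have h4 : nmb μ c j j (n / c) (Kd.ord μ I) =
            (c ^ μ / (2 * μ - 1).choose μ + c ^ (μ - 1)) * (n / c).choose (μ + I.card - j) := by
          rw [nmb_pos hk (fun _ h => hIj (subset_antisymm hI h))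
            (show j ≤ 2 * μ - μ + I.card by omega)]
          show (if μ = μ then _ else 1) * _ = _
          rw [if_pos rfl, Nat.sub_self, Nat.sub_zero]
          congr 2
          show 2 * μ - μ + I.card - j = _
          omega
        rw [h4]
        have h5 : (N (Kd.ord μ I) : ℝ) ≤ (tot μ j N I : ℝ) := by
          unfold tot
          exact_mod_cast Nat.le_add_right _ _
        have h6 := (abs_le.1 h2).2
        have h7 : (N (Kd.ord μ I) : ℝ) ≤ ((c ^ μ / (2 * μ - 1).choose μ + c ^ (μ - 1) : ℕ) : ℝ) *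
            ((n / c).choose (μ + I.card - j) : ℝ) := by
          refine le_trans ?_ h3
          have h8 : e' * (n : ℝ) ^ (μ + I.card - j) ≤ e * (n : ℝ) ^ (μ + I.card - j) :=
            mul_le_mul_of_nonneg_right he' (by positivity)
          rw [add_mul]
          linarith
        exact_mod_cast h7
  | sw i I =>
    obtain ⟨hi, hI⟩ := hk'
    have hI' : I ⊆ range j := fun x hx => by
      have := mem_Ico.1 (hI hx)
      rw [mem_range]
      exact this.2
    have h1 : I.card ≤ j := by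
      have := card_le_card hI'
      rwa [card_range] at this
    have hpow : (c : ℝ) ^ M = (c : ℝ) ^ (M - 1) * c := by
      rw [← pow_succ]
      congr 1
      omega
    obtain ⟨e, he, n₀, h⟩ := choose_large c (M + I.card - j) hc
      (2 * ((2 * M - 1).choose M : ℝ) / c * nom M c j I)
      ((3 * c ^ (M - 1) : ℕ) : ℝ) (by have := hnom0 I; positivity) (by
        have h2 : 2 * ((2 * M - 1).choose M : ℝ) / c * nom M c j I *
            ((c : ℝ) ^ (M + I.card - j) * ((M + I.card - j).factorial : ℝ)) =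
            2 * (c : ℝ) ^ (M - 1) := by
          rw [mul_assoc, hnom I hI', hpow]
          field_simp
        rw [h2]
        push_cast
        have : (0 : ℝ) < (c : ℝ) ^ (M - 1) := by positivity
        linarith)
    refine ⟨e, he, n₀, fun n hn e' he' N hN _ => ?_⟩
    have h2 := hN.swp i hi I hI'
    have h3 := h n hn
    have h4 : nmb M c j j (n / c) (Kd.sw i I) =
        (3 * c ^ (M - 1)) * (n / c).choose (M + I.card - j) := by
      rw [nmb_pos hk hi (show j ≤ M + I.card by omega)]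
      rw [Nat.sub_self, Nat.sub_zero]
      rfl
    rw [h4]
    have h7 : (N (Kd.sw i I) : ℝ) ≤ ((3 * c ^ (M - 1) : ℕ) : ℝ) *
        ((n / c).choose (M + I.card - j) : ℝ) := by
      refine h2.trans (le_trans ?_ h3)
      refine mul_le_mul_of_nonneg_right ?_ (by positivity)
      linarith
    exact_mod_cast h7

/-- N5 -/
theorem cls_le_cfg (M c j : ℕ) (hM : 2 ≤ M) (hj : j < M) (hc : 1 ≤ c)
    (hdiv : (2 * M - 1).choose M ∣ c) : ∃ e : ℝ, 0 < e ∧ ∃ n₀ : ℕ, ∀ n, n₀ ≤ n →
    ∀ s : Multiset Kd, Cls0 M c j n e (fun τ => s.count τ) → Kd.ord M (range j) ∉ s →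
      s ≤ cfg M c j j (n / c) := by
  choose e he n₀ h using cls_kind M c j hM hj hc hdiv
  refine ⟨1 / (1 + ∑ k ∈ kds M j, 1 / e k), ?_, ∑ k ∈ kds M j, n₀ k, fun n hn s hs hns => ?_⟩
  · have : 0 ≤ ∑ k ∈ kds M j, 1 / e k := sum_nonneg fun k _ => (one_div_pos.2 (he k)).le
    positivity
  rw [Multiset.le_iff_count]
  intro k
  rw [count_cfg]
  by_cases hk : s.count k = 0
  · rw [hk]
    exact Nat.zero_le _
  have hkk : k ∈ kds M j := hs.ok k hk
  refine h k n ((single_le_sum (f := n₀) (fun _ _ => Nat.zero_le _) hkk).trans hn) _ ?_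
    (fun τ => s.count τ) hs (Multiset.count_eq_zero_of_notMem hns)
  have h1 : 1 / e k ≤ ∑ k ∈ kds M j, 1 / e k :=
    single_le_sum (f := fun k => 1 / e k) (fun k _ => (one_div_pos.2 (he k)).le) hkk
  have h2 : 0 < 1 / e k := one_div_pos.2 (he k)
  rw [one_div_le (by linarith) (he k)]
  linarith

end Pool.Agent.V7
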