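import Pool.Agent.V7.AL.WinK
import Pool.Agent.V7.ST.Ms

/-!
# V7, block ALPHA, module BaseAbs: independence from room against window (abstract form)
-/

set_option autoImplicit false

namespace Pool.Agent.V7

open Finset MvPolynomial Pool.Agent.H51.TB Pool.Agent.V7.ST

variable {E ν T : Type} [Fintype E] (S : Sys E ν T)

/-- If the span property holds up to `D`, the kinds lie in the finite set `K`, every size is at most
`B` and there is room `D + |K| B²`, then the configuration is independent. -/
theorem base_abs {P : T → Prop} {D : ℕ} (hS : SpanP S P D) (K : Finset T) (hK : ∀ k ∈ K, P k)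
    (B : ℕ) (hB : ∀ k ∈ K, S.size k ≤ B) (s : Multiset T) (hs : ∀ k ∈ s, k ∈ K)
    (hroom : D + K.card * B * B + (s.map S.size).sum < Fintype.card E) :
    gM S s + (s.map S.size).sum = Fintype.card E := by
  classical
  induction s using Multiset.induction_on with
  | empty => rw [gM_zero]; simp
  | cons t s ih =>
    rw [Multiset.map_cons, Multiset.sum_cons] at hroom ⊢
    have h1 := ih (fun k hk => hs k (Multiset.mem_cons_of_mem hk)) (by omega)
    have htK : t ∈ K := hs t (Multiset.mem_cons_self t s)
    obtain ⟨m, hm, h⟩ := exists_conf S s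
    let b : Fin K.card → T := fun a => (K.equivFin.symm a : T)
    have hbK : ∀ a, b a ∈ K := fun a => (K.equivFin.symm a).2
    have hmK : ∀ i, m i ∈ K := by
      intro i
      refine hs _ (Multiset.mem_cons_of_mem ?_)
      rw [← hm]
      exact Multiset.mem_map_of_mem m (Finset.mem_univ i)
    have hsum : ∑ a, S.size (b a) ≤ K.card * B := by
      calc ∑ a, S.size (b a) ≤ ∑ _a : Fin K.card, B := sum_le_sum fun a _ => hB _ (hbK a)
        _ = K.card * B := by simp
    have hprod : S.size t * ∑ a, S.size (b a) ≤ K.card * B * B := by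
      calc S.size t * ∑ a, S.size (b a) ≤ B * (K.card * B) := Nat.mul_le_mul (hB t htK) hsum
        _ = K.card * B * B := by ring
    have h2 := windowP S hS m t b (fun i => hK _ (hmK i)) (fun a => hK _ (hbK a)) (fun i =>
      ⟨K.equivFin ⟨m i, hmK i⟩, by simp [b]⟩) (by rw [h]; omega)
    have h3 : S.gd (ad m t) = gM S (t ::ₘ s) := by
      rw [gd_eq_gM, map_ad, hm]
    rw [h, h3] at h2
    omega

end Pool.Agent.V7
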