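import Pool.Agent.V7.AL.KDefs
import Pool.Agent.V7.ST.Bb
import Pool.Agent.V7.F1

/-!
# V7, block ALPHA, the chain: the numbers

Trace and residual of the configurations of the chain.
-/

set_option autoImplicit false

namespace Pool.Agent.V7

open Finset Pool.Agent.H51.TB Pool.Agent.V7.ST

/-- The index set of a kind. -/
def Kd.ix : Kd → Finset ℕ
  | .ord _ I => I
  | .sw _ I => I

/-- The kind without the subspace `L_l`. -/
def Kd.del (l : ℕ) : Kd → Kd
  | .ord μ I => .ord μ (I.erase l)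
  | .sw i I => .sw i (I.erase l)

theorem nmb_pos {M c j l ν : ℕ} {k : Kd} (h : k ∈ kds M l) (h' : k.In M j) (h'' : l ≤ dgr M k) :
    nmb M c j l ν k = rho M c k * (ν - (l - j)).choose (dgr M k - l) := if_pos ⟨h, h', h''⟩

theorem nmb_neg {M c j l ν : ℕ} {k : Kd} (h : ¬ (k ∈ kds M l ∧ k.In M j ∧ l ≤ dgr M k)) :
    nmb M c j l ν k = 0 := if_neg h

theorem nmb_of_not {M c j l ν : ℕ} {k : Kd} (h : k ∉ kds M l) : nmb M c j l ν k = 0 :=
  if_neg fun h1 => h h1.1

theorem count_cfg (M c j l ν : ℕ) (k : Kd) : (cfg M c j l ν).count k = nmb M c j l ν k := by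
  unfold cfg
  rw [Multiset.count_sum']
  simp only [Multiset.count_replicate]
  rw [Finset.sum_ite_eq']
  split_ifs with h
  · rfl
  · exact (nmb_of_not h).symm

theorem mem_cfg {M c j l ν : ℕ} {k : Kd} (h : k ∈ cfg M c j l ν) :
    k.Ok M l ∧ k.In M j ∧ l ≤ dgr M k := by
  have h1 := Multiset.count_pos.2 h
  rw [count_cfg] at h1
  unfold nmb at h1
  split_ifs at h1 with h2
  · exact ⟨mem_kds.1 h2.1, h2.2.1, h2.2.2⟩
  · exact absurd h1 (lt_irrefl 0)

theorem notMem_ix {M l : ℕ} {k : Kd} (h : k ∈ kds M l) : l ∉ k.ix := by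
  rw [mem_kds] at h
  cases k with
  | ord μ I =>
    intro h1
    exact absurd (mem_range.1 (h.2.2 h1)) (lt_irrefl l)
  | sw i I =>
    intro h1
    exact absurd (mem_Ico.1 (h.2 h1)).2 (lt_irrefl l)

theorem add_eq_iff {M l : ℕ} {k k' : Kd} (h : k' ∈ kds M l) :
    k'.add l = k ↔ l ∈ k.ix ∧ k' = k.del l := by
  have h1 := notMem_ix h
  constructor
  · rintro rfl
    cases k' with
    | ord μ I => exact ⟨mem_insert_self _ _, by
        show Kd.ord μ I = Kd.ord μ ((insert l I).erase l)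
        rw [erase_insert (show l ∉ I from h1)]⟩
    | sw i I => exact ⟨mem_insert_self _ _, by
        show Kd.sw i I = Kd.sw i ((insert l I).erase l)
        rw [erase_insert (show l ∉ I from h1)]⟩
  · rintro ⟨h2, rfl⟩
    cases k with
    | ord μ I =>
      show Kd.ord μ (insert l (I.erase l)) = Kd.ord μ I
      rw [insert_erase (show l ∈ I from h2)]
    | sw i I =>
      show Kd.sw i (insert l (I.erase l)) = Kd.sw i I
      rw [insert_erase (show l ∈ I from h2)]

theorem mem_kds_del {M l : ℕ} {k : Kd} (h : l ∈ k.ix) : k ∈ kds M (l + 1) ↔ k.del l ∈ kds M l := by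
  rw [mem_kds, mem_kds]
  cases k with
  | ord μ I =>
    show (1 ≤ μ ∧ μ ≤ M ∧ I ⊆ range (l + 1)) ↔ (1 ≤ μ ∧ μ ≤ M ∧ I.erase l ⊆ range l)
    refine and_congr_right fun _ => and_congr_right fun _ => ?_
    constructor
    · intro h1 x hx
      rw [mem_erase] at hx
      have h2 := mem_range.1 (h1 hx.2)
      rw [mem_range]
      omega
    · intro h1 x hx
      by_cases hx' : x = l
      · rw [hx', mem_range]
        omega
      · have h2 := mem_range.1 (h1 (mem_erase.2 ⟨hx', hx⟩))
        rw [mem_range]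
        omega
  | sw i I =>
    show (i < l + 1 ∧ I ⊆ Ico (i + 1) (l + 1)) ↔ (i < l ∧ I.erase l ⊆ Ico (i + 1) l)
    constructor
    · rintro ⟨_, h1⟩
      have h3 := (mem_Ico.1 (h1 h)).1
      refine ⟨by omega, fun x hx => ?_⟩
      rw [mem_erase] at hx
      have h2 := mem_Ico.1 (h1 hx.2)
      rw [mem_Ico]
      omega
    · rintro ⟨h0, h1⟩
      refine ⟨by omega, fun x hx => ?_⟩
      by_cases hx' : x = l
      · rw [hx', mem_Ico]
        omega
      · have h2 := mem_Ico.1 (h1 (mem_erase.2 ⟨hx', hx⟩))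
        rw [mem_Ico]
        omega

theorem mem_kds_off {M j l : ℕ} {k : Kd} (hjl : j ≤ l) (hk : k.In M j) (h : l ∉ k.ix) :
    k ∈ kds M (l + 1) ↔ k ∈ kds M l := by
  rw [mem_kds, mem_kds]
  cases k with
  | ord μ I =>
    show (1 ≤ μ ∧ μ ≤ M ∧ I ⊆ range (l + 1)) ↔ (1 ≤ μ ∧ μ ≤ M ∧ I ⊆ range l)
    refine and_congr_right fun _ => and_congr_right fun _ => ?_
    constructor
    · intro h1 x hx
      have h2 := mem_range.1 (h1 hx)
      have h3 : x ≠ l := fun h4 => h (h4 ▸ hx)
      rw [mem_range]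
      omega
    · intro h1 x hx
      have h2 := mem_range.1 (h1 hx)
      rw [mem_range]
      omega
  | sw i I =>
    show (i < l + 1 ∧ I ⊆ Ico (i + 1) (l + 1)) ↔ (i < l ∧ I ⊆ Ico (i + 1) l)
    have h0 : i < j := hk
    constructor
    · rintro ⟨_, h1⟩
      refine ⟨by omega, fun x hx => ?_⟩
      have h2 := mem_Ico.1 (h1 hx)
      have h3 : x ≠ l := fun h4 => h (h4 ▸ hx)
      rw [mem_Ico]
      omega
    · rintro ⟨_, h1⟩
      refine ⟨by omega, fun x hx => ?_⟩
      have h2 := mem_Ico.1 (h1 hx)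
      rw [mem_Ico]
      omega

theorem In_del {M j l : ℕ} (hjl : j ≤ l) {k : Kd} : (k.del l).In M j ↔ k.In M j := by
  cases k with
  | ord μ I =>
    show (μ = M → ¬ range j ⊆ I.erase l) ↔ (μ = M → ¬ range j ⊆ I)
    refine imp_congr_right fun _ => not_congr ?_
    rw [subset_erase]
    constructor
    · exact fun h => h.1
    · exact fun h => ⟨h, by rw [mem_range]; omega⟩
  | sw i I => exact Iff.rfl

theorem dgr_del {M l : ℕ} {k : Kd} (h : l ∈ k.ix) : dgr M (k.del l) + 1 = dgr M k := by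
  cases k with
  | ord μ I =>
    have h1 : (I.erase l).card + 1 = I.card := card_erase_add_one h
    show 2 * M - μ + (I.erase l).card + 1 = 2 * M - μ + I.card
    omega
  | sw i I =>
    have h1 : (I.erase l).card + 1 = I.card := card_erase_add_one h
    show M + (I.erase l).card + 1 = M + I.card
    omega

theorem rho_del {M c l : ℕ} {k : Kd} : rho M c (k.del l) = rho M c k := by
  cases k <;> rfl

theorem nmb_add {M c j l ν : ℕ} {k : Kd} (hjl : j ≤ l) (h : l ∈ k.ix) :
    nmb M c j (l + 1) (ν + 1) k = nmb M c j l ν (k.del l) := by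
  have h1 := dgr_del (M := M) h
  have h4 := mem_kds_del (M := M) h
  have h5 := In_del (M := M) hjl (k := k)
  by_cases h2 : k.del l ∈ kds M l ∧ (k.del l).In M j ∧ l ≤ dgr M (k.del l)
  · rw [nmb_pos (h4.2 h2.1) (h5.1 h2.2.1) (by omega), nmb_pos h2.1 h2.2.1 h2.2.2, rho_del]
    congr 2
    · omega
    · omega
  · rw [nmb_neg h2, nmb_neg fun h3 => h2 ⟨h4.1 h3.1, h5.2 h3.2.1, by omega⟩]

theorem nmb_off {M c j l ν : ℕ} {k : Kd} (hjl : j ≤ l) (hν : l ≤ ν + j) (h : l ∉ k.ix) :
    nmb M c j (l + 1) (ν + 1) k + nmb M c j l ν k = nmb M c j l (ν + 1) k := by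
  by_cases h0 : k.In M j
  · have h6 := mem_kds_off hjl h0 h
    by_cases h1 : k ∈ kds M l
    · have e1 : ν + 1 - (l - j) = (ν - (l - j)) + 1 := by omega
      have e2 : ν + 1 - (l + 1 - j) = ν - (l - j) := by omega
      rcases Nat.lt_trichotomy (dgr M k) l with h2 | h2 | h2
      · rw [nmb_neg fun h3 => absurd h3.2.2 (by omega), nmb_neg fun h3 => absurd h3.2.2 (by omega),
          nmb_neg fun h3 => absurd h3.2.2 (by omega)]
      · rw [nmb_neg fun h3 => absurd h3.2.2 (by omega), nmb_pos h1 h0 (by omega),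
          nmb_pos h1 h0 (by omega), h2, Nat.sub_self, Nat.choose_zero_right,
          Nat.choose_zero_right, zero_add]
      · rw [nmb_pos (h6.2 h1) h0 (by omega), nmb_pos h1 h0 (by omega), nmb_pos h1 h0 (by omega),
          e1, e2]
        have e3 : dgr M k - l = (dgr M k - (l + 1)) + 1 := by omega
        rw [e3, Nat.choose_succ_succ, mul_add]
    · rw [nmb_neg fun h3 => h1 (h6.1 h3.1), nmb_neg fun h3 => h1 h3.1, nmb_neg fun h3 => h1 h3.1]
  · rw [nmb_neg fun h3 => h0 h3.2.1, nmb_neg fun h3 => h0 h3.2.1, nmb_neg fun h3 => h0 h3.2.1]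

theorem nmb_mono {M c j l ν : ℕ} {k : Kd} : nmb M c j l ν k ≤ nmb M c j l (ν + 1) k := by
  unfold nmb
  split_ifs
  · exact Nat.mul_le_mul_left _ (Nat.choose_le_choose _ (by omega))
  · exact le_rfl

theorem cfg_mono {M c j l ν : ℕ} : cfg M c j l ν ≤ cfg M c j l (ν + 1) := by
  rw [Multiset.le_iff_count]
  intro k
  rw [count_cfg, count_cfg]
  exact nmb_mono

/-- Trace and residual of a configuration of the chain. -/
theorem cfg_step {M c j l ν : ℕ} (hjl : j ≤ l) (hν : l ≤ ν + j) :
    (cfg M c j l ν).map (Kd.add l) + (cfg M c j l (ν + 1) - cfg M c j l ν) =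
      cfg M c j (l + 1) (ν + 1) := by
  rw [Multiset.ext]
  intro k
  rw [Multiset.count_add, Multiset.count_sub, count_cfg, count_cfg, count_cfg]
  have h1 : ((cfg M c j l ν).map (Kd.add l)).count k =
      if l ∈ k.ix then nmb M c j l ν (k.del l) else 0 := by
    unfold cfg
    have e : (∑ k ∈ kds M l, Multiset.replicate (nmb M c j l ν k) k).map (Kd.add l) =
        ∑ k ∈ kds M l, (Multiset.replicate (nmb M c j l ν k) k).map (Kd.add l) :=
      map_sum (Multiset.mapAddMonoidHom (Kd.add l)) _ _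
    rw [e, Multiset.count_sum']
    simp only [Multiset.map_replicate, Multiset.count_replicate]
    split_ifs with h2
    · rw [Finset.sum_eq_single (k.del l)]
      · split_ifs with h3
        · rfl
        · by_cases h4 : k.del l ∈ kds M l
          · exact absurd ((add_eq_iff h4).2 ⟨h2, rfl⟩) h3
          · exact (nmb_of_not h4).symm
      · intro k' hk' hne
        exact if_neg fun h3 => hne ((add_eq_iff hk').1 h3).2
      · intro h4
        rw [nmb_of_not h4]
        exact ite_self 0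
    · refine Finset.sum_eq_zero fun k' hk' => if_neg fun h3 => h2 ((add_eq_iff hk').1 h3).1
  rw [h1]
  split_ifs with h2
  · have h3 : ∀ ν', nmb M c j l ν' k = 0 := fun ν' => nmb_of_not fun h4 => notMem_ix h4 h2
    rw [nmb_add hjl h2, h3, h3]
    omega
  · have h3 := nmb_off (M := M) (c := c) hjl hν h2
    omega

end Pool.Agent.V7
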