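import Pool.Agent.V7.AL.ChainA

/-!
# V7, block ALPHA, the chain: growth of the virtual dimensions

`growth`: if `f (ν + 1) = f ν + g (ν + 1)`, `g ν ≥ a ν ^ e` and `f K ≥ - b` then `f` grows like `ν ^ (e+1)`.
-/

set_option autoImplicit false

namespace Pool.Agent.V7

open Finset Pool.Agent.H51.TB Pool.Agent.V7.ST

/-- Summation of a lower bound. -/
theorem growth (f g : ℕ → ℝ) (K e : ℕ) (a b : ℝ) (ha : 0 < a)
    (hf : ∀ ν, K ≤ ν → f (ν + 1) = f ν + g (ν + 1)) (hg : ∀ ν, K ≤ ν → a * (ν : ℝ) ^ e ≤ g ν)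
    (hK : -b ≤ f K) : ∀ ν, 2 * K + 2 ≤ ν → -b + a * ((ν : ℝ) / 4) ^ (e + 1) ≤ f ν := by
  have h1 : ∀ i, ∀ K', K ≤ K' → f K' + i * (a * (K' : ℝ) ^ e) ≤ f (K' + i) := by
    intro i
    induction i with
    | zero => intro K' _; simp
    | succ i ih =>
      intro K' hK'
      have h2 := ih K' hK'
      have h3 := hf (K' + i) (by omega)
      have h4 := hg (K' + i + 1) (by omega)
      have h5 : (K' : ℝ) ^ e ≤ ((K' + i + 1 : ℕ) : ℝ) ^ e := by
        refine pow_le_pow_left₀ (Nat.cast_nonneg _) ?_ e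
        exact_mod_cast (by omega : K' ≤ K' + i + 1)
      have h6 : a * (K' : ℝ) ^ e ≤ a * ((K' + i + 1 : ℕ) : ℝ) ^ e :=
        mul_le_mul_of_nonneg_left h5 ha.le
      have h7 : f (K' + (i + 1)) = f (K' + i) + g (K' + i + 1) := h3
      rw [h7]
      push_cast
      push_cast at h4 h6
      linarith
  intro ν hν
  set K' := ν / 2 with hK'
  have h2 : K ≤ K' := by omega
  have h3 := h1 (K' - K) K le_rfl
  have h4 := h1 (ν - K') K' h2
  have e3 : K + (K' - K) = K' := by omega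
  have e4 : K' + (ν - K') = ν := by omega
  rw [e3] at h3
  rw [e4] at h4
  have h5 : 0 ≤ ((K' - K : ℕ) : ℝ) * (a * (K : ℝ) ^ e) := by positivity
  have h6 : (ν : ℝ) / 4 ≤ K' := by
    have h7 : ν ≤ 2 * K' + 1 := by omega
    have h8 : (ν : ℝ) ≤ 2 * K' + 1 := by exact_mod_cast h7
    have h9 : (1 : ℝ) ≤ K' := by exact_mod_cast (by omega : 1 ≤ K')
    linarith
  have h7 : (ν : ℝ) / 4 ≤ ((ν - K' : ℕ) : ℝ) := by
    have h8 : K' ≤ ν - K' := by omega
    have h9 : (K' : ℝ) ≤ ((ν - K' : ℕ) : ℝ) := by exact_mod_cast h8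
    linarith
  have h8 : (0 : ℝ) ≤ (ν : ℝ) / 4 := by positivity
  have h9 : a * ((ν : ℝ) / 4) ^ (e + 1) ≤ ((ν - K' : ℕ) : ℝ) * (a * (K' : ℝ) ^ e) := by
    have h10 : ((ν : ℝ) / 4) ^ (e + 1) ≤ ((ν - K' : ℕ) : ℝ) * (K' : ℝ) ^ e := by
      rw [pow_succ, mul_comm]
      exact mul_le_mul h7 (pow_le_pow_left₀ h8 h6 e) (pow_nonneg h8 e) (Nat.cast_nonneg _)
    calc a * ((ν : ℝ) / 4) ^ (e + 1) ≤ a * (((ν - K' : ℕ) : ℝ) * (K' : ℝ) ^ e) :=
          mul_le_mul_of_nonneg_left h10 ha.le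
      _ = _ := by ring
  linarith

theorem bb_le_mc (c k : ℕ) : ∀ j n, bb c k j n ≤ n.multichoose k
  | 0, _ => le_rfl
  | j + 1, n => (Nat.sub_le _ _).trans (bb_le_mc c k j n)

theorem mc_le (n k : ℕ) : n.multichoose k ≤ (n + k) ^ k := by
  rw [Nat.multichoose_eq]
  refine (Nat.choose_le_pow _ _).trans (Nat.pow_le_pow_left (by omega) k)

/-- The number of conditions of a point is at most `const * c ^ (M - 1)`. -/
theorem wt_le {M c l n ν : ℕ} (hM : 1 ≤ M) (hc : 1 ≤ c) (hn : n ≤ c * (ν + 1)) {k : Kd}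
    (hk : k.Ok M l) : wt M c n k ≤ (ν + 1 + M) ^ (M - 1) * c ^ (M - 1) := by
  have h1 : ∀ μ, μ ≤ M → ∀ a, bb c (μ - 1) a n ≤ (ν + 1 + M) ^ (M - 1) * c ^ (M - 1) := by
    intro μ hμ a
    refine ((bb_le_mc c (μ - 1) a n).trans (mc_le n (μ - 1))).trans ?_
    rw [← mul_pow]
    have h2 : n + (μ - 1) ≤ (ν + 1 + M) * c := by
      have h3 : (ν + 1 + M) * c = c * (ν + 1) + M * c := by ring
      have h4 : M ≤ M * c := Nat.le_mul_of_pos_right M hc
      omega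
    refine (Nat.pow_le_pow_left h2 _).trans (Nat.pow_le_pow_right ?_ (by omega))
    exact Nat.mul_pos (by omega) hc
  cases k with
  | ord μ I => exact h1 μ hk.2.1 _
  | sw i I => exact (Nat.sub_le _ _).trans (h1 M le_rfl _)

theorem rho_le {M c : ℕ} (hM : 1 ≤ M) (hc : 1 ≤ c) (k : Kd) : rho M c k ≤ 3 * c ^ M := by
  have h1 : c ^ (M - 1) ≤ c ^ M := Nat.pow_le_pow_right hc (by omega)
  have h2 : 1 ≤ c ^ M := Nat.one_le_pow _ _ hc
  cases k with
  | ord μ I =>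
    show (if μ = M then c ^ M / (2 * M - 1).choose M + c ^ (M - 1) else 1) ≤ 3 * c ^ M
    have h3 := Nat.div_le_self (c ^ M) ((2 * M - 1).choose M)
    split_ifs <;> omega
  | sw i I =>
    show 3 * c ^ (M - 1) ≤ 3 * c ^ M
    omega

theorem nmb_le {M c j l ν : ℕ} (hM : 1 ≤ M) (hc : 1 ≤ c) (k : Kd) :
    nmb M c j l ν k ≤ 3 * 2 ^ ν * c ^ M := by
  unfold nmb
  split_ifs
  · have h1 := rho_le hM hc k
    have h2 : (ν - (l - j)).choose (dgr M k - l) ≤ 2 ^ ν :=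
      (Nat.choose_le_two_pow _ _).trans (Nat.pow_le_pow_right (by norm_num) (by omega))
    calc rho M c k * (ν - (l - j)).choose (dgr M k - l) ≤ (3 * c ^ M) * 2 ^ ν :=
          Nat.mul_le_mul h1 h2
      _ = _ := by ring
  · exact Nat.zero_le _

theorem sum_wt_cfg (M c j l ν n : ℕ) :
    ((cfg M c j l ν).map (wt M c n)).sum = ∑ k ∈ kds M l, nmb M c j l ν k * wt M c n k := by
  unfold cfg
  have e : (∑ k ∈ kds M l, Multiset.replicate (nmb M c j l ν k) k).map (wt M c n) =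
      ∑ k ∈ kds M l, (Multiset.replicate (nmb M c j l ν k) k).map (wt M c n) :=
    map_sum (Multiset.mapAddMonoidHom (wt M c n)) _ _
  rw [e]
  have e2 : (∑ k ∈ kds M l, (Multiset.replicate (nmb M c j l ν k) k).map (wt M c n)).sum =
      ∑ k ∈ kds M l, ((Multiset.replicate (nmb M c j l ν k) k).map (wt M c n)).sum :=
    map_sum (Multiset.sumAddMonoidHom : Multiset ℕ →+ ℕ) _ _
  rw [e2]
  refine Finset.sum_congr rfl fun k _ => ?_
  rw [Multiset.map_replicate, Multiset.sum_replicate, smul_eq_mul]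

/-- The virtual dimension is at least `- const * c ^ (2M-1)`. -/
theorem vd_low {M c j l ν n : ℕ} (hM : 1 ≤ M) (hc : 1 ≤ c) (hn : n ≤ c * (ν + 1)) :
    -(((kds M l).card * (3 * 2 ^ ν) * (ν + 1 + M) ^ (M - 1) * c ^ (2 * M - 1) : ℕ) : ℤ) ≤
      vd M c l n (cfg M c j l ν) := by
  unfold vd
  have h1 : ((cfg M c j l ν).map (wt M c n)).sum ≤
      (kds M l).card * (3 * 2 ^ ν) * (ν + 1 + M) ^ (M - 1) * c ^ (2 * M - 1) := by
    rw [sum_wt_cfg]
    have h2 : ∀ k ∈ kds M l, nmb M c j l ν k * wt M c n k ≤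
        3 * 2 ^ ν * (ν + 1 + M) ^ (M - 1) * c ^ (2 * M - 1) := by
      intro k hk
      have h3 := nmb_le (j := j) (l := l) (ν := ν) hM hc k
      have h4 := wt_le hM hc hn (mem_kds.1 hk)
      have h5 : c ^ (2 * M - 1) = c ^ M * c ^ (M - 1) := by
        rw [← pow_add]
        congr 1
        omega
      calc nmb M c j l ν k * wt M c n k ≤
          (3 * 2 ^ ν * c ^ M) * ((ν + 1 + M) ^ (M - 1) * c ^ (M - 1)) := Nat.mul_le_mul h3 h4
        _ = _ := by
          rw [h5]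
          ring
    refine (Finset.sum_le_card_nsmul _ _ _ h2).trans (le_of_eq ?_)
    rw [smul_eq_mul]
    ring
  have h2 : (0 : ℤ) ≤ (bb c (2 * M - 1) l n : ℤ) := Int.natCast_nonneg _
  have h3 : ((((cfg M c j l ν).map (wt M c n)).sum : ℕ) : ℤ) ≤
      (((kds M l).card * (3 * 2 ^ ν) * (ν + 1 + M) ^ (M - 1) * c ^ (2 * M - 1) : ℕ) : ℤ) := by
    exact_mod_cast h1
  omega

/-- Additivity of the virtual dimensions of the chain. -/
theorem vd_chain {M c j l n ν : ℕ} (hc : 0 < c) (hjl : j ≤ l) (hν : l ≤ ν + j)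
    (hn : (l + 1) * c + 1 ≤ n) :
    vd M c l n (cfg M c j l (ν + 1)) =
      vd M c l (n - c) (cfg M c j l ν) + vd M c (l + 1) n (cfg M c j (l + 1) (ν + 1)) := by
  have h1 := vd_res (M := M) hc hn (cfg M c j l ν) (cfg M c j l (ν + 1) - cfg M c j l ν) 0
    fun k hk => (mem_cfg hk).1
  rw [Multiset.replicate_zero, Multiset.replicate_zero, add_zero, add_zero, cfg_step hjl hν,
    add_tsub_cancel_of_le cfg_mono, Nat.cast_zero, add_zero] at h1
  omega

end Pool.Agent.V7
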