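import Pool.Agent.H51.TB.Win

/-!
# V7, tensor systems: definitions (used by the blocks ALPHA and BETA)

Slots `ι`, every slot has dimension `c`.  A tensor is a function `F : (ι → Fin c) → ℂ`.  A point of
kind `S : Finset ι` is a family of vectors `y j ∈ ℂ^c` (`j : ι`; only `j ∈ S` are used); it imposes the
conditions `∑_{e = w off S} (∏_{j ∈ S} y j (e j)) F e = 0` for all `w`, i.e. the contraction of `F`
with the pure tensor of the `y j`, `j ∈ S`, vanishes.
-/

namespace Pool.Agent.V7

open Finset MvPolynomial Pool.Agent.H51.TB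

/-- The tensor system. -/
noncomputable def TSys (ι : Type) [Fintype ι] [DecidableEq ι] (c : ℕ) :
    Sys (ι → Fin c) (ι × Fin c) (Finset ι) where
  R := fun _ => ι → Fin c
  fin := fun _ => inferInstance
  co := fun S w e => if ∀ j, j ∉ S → e j = w j then ∏ j ∈ S, X (j, e j) else 0

variable {ι : Type} [Fintype ι] [DecidableEq ι] {c : ℕ}

/-- The contraction of a tensor with the pure tensor of the `y j`, `j ∈ S`, at the index `w`. -/
noncomputable def ctr (S : Finset ι) (y : ι × Fin c → ℂ) (F : (ι → Fin c) → ℂ) (w : ι → Fin c) : ℂ :=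
  ∑ e : ι → Fin c, if ∀ j, j ∉ S → e j = w j then (∏ j ∈ S, y (j, e j)) * F e else 0

theorem mem_TSys {κ : Type} (m : κ → Finset ι) (p : κ → ι × Fin c → ℂ) (F : (ι → Fin c) → ℂ) :
    F ∈ (TSys ι c).V m p ↔ ∀ i w, ctr (m i) (p i) F w = 0 := by
  rw [Sys.mem_V]
  refine forall_congr' fun i => forall_congr' fun w => ?_
  have h : ∑ e, eval (p i) ((TSys ι c).co (m i) w e) * F e = ctr (m i) (p i) F w := by
    unfold ctr
    refine sum_congr rfl fun e _ => ?_
    show eval (p i) (if ∀ j, j ∉ m i → e j = w j then ∏ j ∈ m i, X (j, e j) else 0) * F e = _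
    split_ifs
    · rw [map_prod]
      simp
    · simp
  rw [h]

/-- The kinds with weights `w`, total weight `W`: `w S * c ^ |S| / W` points of kind `S`. -/
abbrev TIdx (ι : Type) (c W : ℕ) (w : Finset ι → ℕ) : Type :=
  Σ S : Finset ι, Fin (w S * c ^ S.card / W)

/-- An intersecting weight function. -/
def Inter (w : Finset ι → ℕ) : Prop :=
  ∀ S S', w S ≠ 0 → w S' ≠ 0 → (S ∩ S').Nonempty ∨ (S = ∅ ∧ S' = ∅)

end Pool.Agent.V7
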