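import Pool.Agent.V7.AL.SwapK

/-!
# V7, block ALPHA, module WinK: the window lemma for several kinds

Proof.  Suppose that a point of type `t` imposes fewer than `size t` conditions on the general
configuration `m`.  Add rounds, one point of every kind `b a`.  The number of conditions imposed by
`t` is non-increasing; if it does not change in a round then it does not change for one further
point of any kind, so by `swapP` it is `size t` (impossible) or the dimension is at most `D`.
-/

namespace Pool.Agent.V7

open Finset MvPolynomial Pool.Agent.H51.TB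

variable {E ν T : Type} [Fintype E] (S : Sys E ν T) {κ κ' : Type}

/-- Submodularity for a family of further points. -/
theorem gd_submod_fam [Fintype κ] [Fintype κ'] (m : κ → T) (n : κ' → T) (t : T) :
    S.gd (ad m t) + S.gd (Sum.elim m n) ≤ S.gd m + S.gd (ad (Sum.elim m n) t) := by
  have hinj : Function.Injective (fun i : κ => (Sum.inl (Sum.inl i) : (κ ⊕ κ') ⊕ Unit)) :=
    fun a b h => Sum.inl_injective (Sum.inl_injective h)
  obtain ⟨P, hP1, hP2⟩ := ((gn_gd S (ad (Sum.elim m n) t)).and
    ((gn_gd S m).comap (fun i : κ => (Sum.inl (Sum.inl i) : (κ ⊕ κ') ⊕ Unit)) hinj)).exists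
  let P₁ : κ ⊕ Unit → ν → ℂ :=
    Sum.elim (fun i => P (Sum.inl (Sum.inl i))) fun j => P (Sum.inr j)
  let P₂ : κ ⊕ κ' → ν → ℂ := fun i => P (Sum.inl i)
  let P₀ : κ → ν → ℂ := fun i => P (Sum.inl (Sum.inl i))
  have h1 := Submodule.finrank_sup_add_finrank_inf_eq (S.V (ad m t) P₁) (S.V (Sum.elim m n) P₂)
  have h2 : S.V (ad m t) P₁ ⊔ S.V (Sum.elim m n) P₂ ≤ S.V m P₀ := by
    refine sup_le (fun w hw => ?_) (fun w hw => ?_)
    · rw [S.mem_V] at hw ⊢
      exact fun i => hw (Sum.inl i)
    · rw [S.mem_V] at hw ⊢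
      exact fun i => hw (Sum.inl i)
  have h3 : S.V (ad m t) P₁ ⊓ S.V (Sum.elim m n) P₂ = S.V (ad (Sum.elim m n) t) P := by
    ext w
    rw [Submodule.mem_inf, S.mem_V, S.mem_V, S.mem_V]
    constructor
    · rintro ⟨hF1, hF2⟩ (i | j)
      · exact hF2 i
      · exact hF1 (Sum.inr j)
    · intro hF
      refine ⟨?_, fun i => hF (Sum.inl i)⟩
      rintro (i | j)
      · exact hF (Sum.inl (Sum.inl i))
      · exact hF (Sum.inr j)
  have h4 := Submodule.finrank_mono h2
  have h5 := gd_le S (ad m t) P₁
  have h6 := gd_le S (Sum.elim m n) P₂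
  rw [h3, hP1] at h1
  have hP2' : Module.finrank ℂ (S.V m P₀) = S.gd m := hP2
  omega

/-- A family of further points imposes at most the sum of the sizes. -/
theorem gd_le_fam [Fintype κ] {w : ℕ} (m : κ → T) (b : Fin w → T) :
    S.gd m ≤ S.gd (Sum.elim m b) + ∑ a, S.size (b a) := by
  induction w with
  | zero =>
    have h := gd_comp_equiv S (Equiv.sumEmpty κ (Fin 0)) m
    have e : (fun i => m ((Equiv.sumEmpty κ (Fin 0)) i)) = Sum.elim m b := by
      funext i
      rcases i with i | i
      · rfl
      · exact i.elim0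
    rw [e] at h
    rw [h]
    simp
  | succ w ih =>
    have h1 := ih fun a => b (Fin.castSucc a)
    have h2 := gd_le_ad S (Sum.elim m fun a => b (Fin.castSucc a)) (b (Fin.last w))
    let e : (κ ⊕ Fin w) ⊕ Unit ≃ κ ⊕ Fin (w + 1) :=
      (Equiv.sumAssoc κ (Fin w) Unit).trans (Equiv.sumCongr (Equiv.refl κ)
        ((Equiv.sumCongr (Equiv.refl (Fin w)) (Equiv.equivPUnit (Fin 1)).symm).trans
          finSumFinEquiv))
    have h3 := gd_comp_equiv S e (Sum.elim m b)
    have e3 : (fun i => Sum.elim m b (e i)) =
        ad (Sum.elim m fun a => b (Fin.castSucc a)) (b (Fin.last w)) := by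
      funext i
      rcases i with (i | i) | i
      · rfl
      · simp [e, ad, Fin.castSucc]
      · have : (e (Sum.inr i)) = Sum.inr (Fin.last w) := by
          simp only [e, Equiv.trans_apply, Equiv.sumAssoc_apply_inr, Equiv.sumCongr_apply,
            Sum.map_inr, Equiv.coe_trans, Function.comp_apply, finSumFinEquiv_apply_right]
          congr 1
        rw [this]
        rfl
    rw [e3] at h3
    rw [Fin.sum_univ_castSucc]
    omega

/-- Equivalences of index types for the rounds. -/
private noncomputable def WkX.eqv (κ : Type) (j w : ℕ) :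
    (κ ⊕ (Fin j × Fin w)) ⊕ Fin w ≃ κ ⊕ (Fin (j + 1) × Fin w) :=
  (Equiv.sumAssoc κ (Fin j × Fin w) (Fin w)).trans
    (Equiv.sumCongr (Equiv.refl κ) (((Equiv.sumCongr (Equiv.refl (Fin j × Fin w))
      (Equiv.uniqueProd (Fin w) (Fin 1)).symm).trans (Equiv.sumProdDistrib _ _ _).symm).trans
        (Equiv.prodCongr finSumFinEquiv (Equiv.refl (Fin w)))))

private theorem WkX.eqv_snd {κ : Type} {j w : ℕ} (m : κ → T) (b : Fin w → T) :
    (fun i => Sum.elim m (fun x : Fin (j + 1) × Fin w => b x.2) (WkX.eqv κ j w i)) =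
      Sum.elim (Sum.elim m fun x : Fin j × Fin w => b x.2) b := by
  funext i
  rcases i with (i | i) | i <;> rfl

/-- Splitting off one member of a round. -/
private def WkX.eqa (κ : Type) (w : ℕ) (a : Fin w) : (κ ⊕ Unit) ⊕ {x : Fin w // x ≠ a} ≃ κ ⊕ Fin w where
  toFun := Sum.elim (Sum.elim Sum.inl fun _ => Sum.inr a) fun x => Sum.inr x.1
  invFun := Sum.elim (fun i => Sum.inl (Sum.inl i)) fun x =>
    if h : x = a then Sum.inl (Sum.inr ()) else Sum.inr ⟨x, h⟩
  left_inv := by
    rintro ((i | i) | ⟨x, hx⟩)
    · rfl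
    · simp
    · simp [hx]
  right_inv := by
    rintro (i | x)
    · rfl
    · by_cases h : x = a
      · simp [h]
      · simp [h]

/-- The window lemma for several kinds. -/
theorem windowP {P : T → Prop} {D : ℕ} (hS : SpanP S P D) [Fintype κ] {w : ℕ} (m : κ → T) (t : T)
    (b : Fin w → T) (hm : ∀ i, P (m i)) (hbP : ∀ a, P (b a)) (hb : ∀ i, ∃ a, m i = b a) (h : D + S.size t * ∑ a, S.size (b a) < S.gd m) :
    S.gd m = S.gd (ad m t) + S.size t := by
  classical
  set g : ℕ → ℕ := fun j => S.gd (Sum.elim m fun x : Fin j × Fin w => b x.2) with hg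
  set G : ℕ → ℕ := fun j => S.gd (ad (Sum.elim m fun x : Fin j × Fin w => b x.2) t) with hG
  set B := ∑ a, S.size (b a) with hB
  have h1 : ∀ j, G j ≤ g j := fun j => gd_ad_le S _ t
  have h2 : ∀ j, g j ≤ G j + S.size t := fun j => gd_le_ad S _ t
  have gs : ∀ j, g (j + 1) = S.gd (Sum.elim (Sum.elim m fun x : Fin j × Fin w => b x.2) b) := by
    intro j
    have e := gd_comp_equiv S (WkX.eqv κ j w) (Sum.elim m fun x : Fin (j + 1) × Fin w => b x.2)
    rw [WkX.eqv_snd] at e
    exact e.symm
  have Gs : ∀ j, G (j + 1) = S.gd (ad (Sum.elim (Sum.elim m fun x : Fin j × Fin w => b x.2) b) t) := by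
    intro j
    have e := gd_comp_equiv S (Equiv.sumCongr (WkX.eqv κ j w) (Equiv.refl Unit))
      (ad (Sum.elim m fun x : Fin (j + 1) × Fin w => b x.2) t)
    rw [← show (fun i => ad (Sum.elim m fun x : Fin (j + 1) × Fin w => b x.2) t
        ((Equiv.sumCongr (WkX.eqv κ j w) (Equiv.refl Unit)) i)) =
        ad (Sum.elim (Sum.elim m fun x : Fin j × Fin w => b x.2) b) t from ?_]
    · exact e.symm
    · funext i
      rcases i with ((i | i) | i) | i <;> rfl
  have h3 : ∀ j, g j ≤ g (j + 1) + B := fun j => by
    rw [gs j]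
    exact gd_le_fam S _ b
  have hg0 : g 0 = S.gd m := by
    rw [← gd_comp_equiv S (Equiv.sumEmpty κ (Fin 0 × Fin w)) m]
    simp only [hg]
    congr 1
    funext i
    rcases i with i | i
    · rfl
    · exact i.1.elim0
  have hG0 : G 0 = S.gd (ad m t) := by
    rw [← gd_comp_equiv S (Equiv.sumCongr (Equiv.sumEmpty κ (Fin 0 × Fin w)) (Equiv.refl Unit))
      (ad m t)]
    simp only [hG]
    congr 1
    funext i
    rcases i with (i | i) | i
    · rfl
    · exact i.1.elim0
    · rfl
  have hlow : ∀ j, g 0 ≤ g j + j * B := by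
    intro j
    induction j with
    | zero => simp
    | succ j ih =>
      have := h3 j
      have e : (j + 1) * B = j * B + B := by ring
      omega
  -- a round without a drop
  have key : ∀ j, D < g j → g j ≠ G j + S.size t → g (j + 1) - G (j + 1) < g j - G j := by
    intro j hj hne
    by_contra hcon
    push Not at hcon
    apply hne
    have hmon : G j + g (j + 1) ≤ g j + G (j + 1) := by
      rw [gs j, Gs j]
      exact gd_submod_fam S _ b t
    have i3 := h1 j
    have i4 := h1 (j + 1)
    have heq : G j + g (j + 1) = g j + G (j + 1) := by omega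
    have hst : ∀ a, S.gd (Sum.elim m fun x : Fin j × Fin w => b x.2) +
        S.gd (ad (ad (Sum.elim m fun x : Fin j × Fin w => b x.2) (b a)) t) =
        S.gd (ad (Sum.elim m fun x : Fin j × Fin w => b x.2) t) +
        S.gd (ad (Sum.elim m fun x : Fin j × Fin w => b x.2) (b a)) := by
      intro a
      have k1 := gd_submod S (Sum.elim m fun x : Fin j × Fin w => b x.2) t (b a)
      have k1' := gd_submod S (Sum.elim m fun x : Fin j × Fin w => b x.2) (b a) t
      have k2 := gd_submod_fam S (ad (Sum.elim m fun x : Fin j × Fin w => b x.2) (b a))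
        (fun x : {x : Fin w // x ≠ a} => b x.1) t
      have e1 := gd_comp_equiv S (WkX.eqa (κ ⊕ (Fin j × Fin w)) w a)
        (Sum.elim (Sum.elim m fun x : Fin j × Fin w => b x.2) b)
      have e1' : (fun i => Sum.elim (Sum.elim m fun x : Fin j × Fin w => b x.2) b
          (WkX.eqa (κ ⊕ (Fin j × Fin w)) w a i)) =
          Sum.elim (ad (Sum.elim m fun x : Fin j × Fin w => b x.2) (b a))
            (fun x : {x : Fin w // x ≠ a} => b x.1) := by
        funext i
        rcases i with (i | i) | i <;> rfl
      rw [e1'] at e1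
      have e2 := gd_comp_equiv S (Equiv.sumCongr (WkX.eqa (κ ⊕ (Fin j × Fin w)) w a)
        (Equiv.refl Unit)) (ad (Sum.elim (Sum.elim m fun x : Fin j × Fin w => b x.2) b) t)
      have e2' : (fun i => ad (Sum.elim (Sum.elim m fun x : Fin j × Fin w => b x.2) b) t
          ((Equiv.sumCongr (WkX.eqa (κ ⊕ (Fin j × Fin w)) w a) (Equiv.refl Unit)) i)) =
          ad (Sum.elim (ad (Sum.elim m fun x : Fin j × Fin w => b x.2) (b a))
            (fun x : {x : Fin w // x ≠ a} => b x.1)) t := by
        funext i
        rcases i with ((i | i) | i) | i <;> rfl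
      rw [e2'] at e2
      rw [e1, e2, ← gs j, ← Gs j] at k2
      change G j + g (j + 1) = g j + G (j + 1) at heq
      simp only [hg, hG] at heq k2
      have k3 := gd_ad_le S (ad (Sum.elim m fun x : Fin j × Fin w => b x.2) (b a)) t
      omega
    rcases swapP S hS (Sum.elim m fun x : Fin j × Fin w => b x.2) (by
      rintro (i | i)
      · exact hm i
      · exact hbP i.2) t (by
      rintro (i | i)
      · obtain ⟨a, ha⟩ := hb i
        have := hst a
        rw [← ha] at this
        exact this
      · exact hst i.2) with h | h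
    · exact absurd h (by simp only [hg] at hj; omega)
    · exact h
  by_contra hcon
  rw [← hg0, ← hG0] at hcon
  have a1 := h1 0
  have a2 := h2 0
  have hDj : ∀ j, j ≤ S.size t → D < g j := by
    intro j hj
    have i1 := hlow j
    have i2 : j * B ≤ S.size t * B := Nat.mul_le_mul_right _ hj
    have i3 : g 0 = S.gd m := hg0
    omega
  have kk : ∀ j, j ≤ S.size t → g j - G j + j < S.size t := by
    intro j
    induction j with
    | zero => intro _; omega
    | succ j ih =>
      intro hj
      have i1 := ih (by omega)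
      have i2 := key j (hDj j (by omega)) (by omega)
      omega
  have := kk (S.size t) le_rfl
  omega

end Pool.Agent.V7
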